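import Mathlib

set_option autoImplicit false

namespace Pool.Agent.QGP776

universe u v

/-- `op` is a quasigroup operation on `Ω`: the equations `a x = b` and `y a = b` have exactly one
solution. -/
def IsQuasigroup {Ω : Type u} (op : Ω → Ω → Ω) : Prop :=
  (∀ a b, ∃! x, op a x = b) ∧ (∀ a b, ∃! y, op y a = b)

/-- The permutation group `G` on `Ω` is realisable: there is a quasigroup operation on `Ω` with
every element of `G` as an automorphism. -/
def Realisable {Ω : Type u} (G : Subgroup (Equiv.Perm Ω)) : Prop :=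
  ∃ op : Ω → Ω → Ω, IsQuasigroup op ∧ ∀ g ∈ G, ∀ x y, g (op x y) = op (g x) (g y)

/-- The triple `(x, y, z)` is rigid for `G`: the two-point stabilisers of `{x, y}`, `{x, z}`,
`{y, z}` coincide. -/
def Rigid {Ω : Type u} (G : Subgroup (Equiv.Perm Ω)) (x y z : Ω) : Prop :=
  ∀ g ∈ G, (g x = x → g y = y → g z = z) ∧ (g x = x → g z = z → g y = y) ∧
    (g y = y → g z = z → g x = x)

/-- `G` is 2-transitive on `Ω`. -/
def TwoTransitive {Ω : Type u} (G : Subgroup (Equiv.Perm Ω)) : Prop :=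
  ∀ x y x' y' : Ω, x ≠ y → x' ≠ y' → ∃ g ∈ G, g x = x' ∧ g y = y'

/-- `N` is a regular subgroup of `G`, normalised by `G`. -/
def RegularNormal {Ω : Type u} (N G : Subgroup (Equiv.Perm Ω)) : Prop :=
  N ≤ G ∧ (∀ g ∈ G, ∀ n ∈ N, g * n * g⁻¹ ∈ N) ∧ ∀ x y : Ω, ∃! n, n ∈ N ∧ n x = y

/-- `G` is transitive on `Ω`. -/
def Transitive {Ω : Type u} (G : Subgroup (Equiv.Perm Ω)) : Prop :=
  ∀ x y : Ω, ∃ g ∈ G, g x = y

/-- Points fixed by the stabiliser of `x`. -/
def FixPt {Ω : Type u} (G : Subgroup (Equiv.Perm Ω)) (x : Ω) : Set Ω :=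
  {w | ∀ g ∈ G, g x = x → g w = w}

/-- Points fixed by the stabiliser of `x` and `y`. -/
def FixPair {Ω : Type u} (G : Subgroup (Equiv.Perm Ω)) (x y : Ω) : Set Ω :=
  {w | ∀ g ∈ G, g x = x → g y = y → g w = w}

/-- The permutation group induced on the set `F` by the elements of `G` that map `F` onto itself. -/
def induced {Ω : Type u} (G : Subgroup (Equiv.Perm Ω)) (F : Set Ω) : Subgroup (Equiv.Perm F) where
  carrier := {p | ∃ g ∈ G, ∀ w : F, ((p w : F) : Ω) = g w}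
  one_mem' := ⟨1, G.one_mem, fun _ => rfl⟩
  mul_mem' := by
    rintro p q ⟨g, hg, h1⟩ ⟨k, hk, h2⟩
    exact ⟨g * k, G.mul_mem hg hk, fun w => by
      rw [Equiv.Perm.mul_apply, h1, h2, Equiv.Perm.mul_apply]⟩
  inv_mem' := by
    rintro p ⟨g, hg, h1⟩
    refine ⟨g⁻¹, G.inv_mem hg, fun w => ?_⟩
    rw [Equiv.Perm.eq_inv_iff_eq, ← h1]
    simp

end Pool.Agent.QGP776
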