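import Mathlib

set_option autoImplicit false

namespace Pool.Agent.QGP776

universe u v

open Finset

section cyclic

variable {F : Type u} [Fintype F] {m : ℕ}

lemma exists_coord (t : Equiv.Perm F) (hm0 : 0 < m) (htm : t ^ m = 1)
    (hfree : ∀ i, 0 < i → i < m → ∀ x, (t ^ i) x ≠ x) :
    ∃ c : F → ZMod m, ∀ x, c (t x) = c x + 1 := by
  classical
  have hmod : ∀ i : ℕ, t ^ i = t ^ (i % m) := by
    intro i
    conv_lhs => rw [← Nat.div_add_mod i m, pow_add, pow_mul, htm, one_pow, one_mul]
  have key : ∀ (a b : ℕ) (z : F), (t ^ a) z = (t ^ b) z → (a : ZMod m) = (b : ZMod m) := by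
    have aux : ∀ (a b : ℕ) (z : F), a < m → b < m → a ≤ b → (t ^ a) z = (t ^ b) z → a = b := by
      intro a b z ha hb hab h
      by_contra hne
      have hlt : a < b := lt_of_le_of_ne hab hne
      have h1 : (t ^ (b - a)) z = z := by
        have h2 : t ^ b = t ^ a * t ^ (b - a) := by rw [← pow_add]; congr 1; omega
        rw [h2, Equiv.Perm.mul_apply] at h
        exact ((t ^ a).injective h).symm
      exact hfree (b - a) (by omega) (by omega) z h1
    intro a b z h
    rw [hmod a, hmod b] at h
    have ha : a % m < m := Nat.mod_lt _ hm0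
    have hb : b % m < m := Nat.mod_lt _ hm0
    have : a % m = b % m := by
      rcases le_total (a % m) (b % m) with hle | hle
      · exact aux _ _ z ha hb hle h
      · exact (aux _ _ z hb ha hle h.symm).symm
    exact (ZMod.natCast_eq_natCast_iff' a b m).2 this
  let s : Setoid F :=
    { r := fun x y => ∃ i : ℕ, (t ^ i) x = y
      iseqv := by
        refine ⟨fun x => ⟨0, rfl⟩, ?_, ?_⟩
        · rintro x y ⟨i, rfl⟩
          refine ⟨(m - i % m), ?_⟩
          rw [hmod i, ← Equiv.Perm.mul_apply, ← pow_add]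
          have : m - i % m + i % m = m := Nat.sub_add_cancel (Nat.mod_lt _ hm0).le
          rw [this, htm]; rfl
        · rintro x y z ⟨i, rfl⟩ ⟨j, rfl⟩
          exact ⟨j + i, by rw [pow_add, Equiv.Perm.mul_apply]⟩ }
  have hrep : ∀ x : F, ∃ i : ℕ, (t ^ i) (Quotient.mk s x).out = x := fun x =>
    Quotient.exact (Quotient.out_eq (Quotient.mk s x))
  choose i hi using hrep
  refine ⟨fun x => (i x : ZMod m), fun x => ?_⟩
  have hq : Quotient.mk s (t x) = Quotient.mk s x := by
    refine (Quotient.sound ?_).symm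
    exact ⟨1, by simp⟩
  have h1 := hi (t x)
  rw [hq] at h1
  have h2 : (t ^ (i x + 1)) (Quotient.mk s x).out = t x := by
    rw [pow_succ', Equiv.Perm.mul_apply, hi x]
  have h3 := key (i (t x)) (i x + 1) _ (h1.trans h2.symm)
  show ((i (t x) : ℕ) : ZMod m) = (i x : ZMod m) + 1
  rw [h3]; push_cast; rfl

lemma sum_zmod (m : ℕ) [NeZero m] : ∑ v : ZMod m, v = ((∑ i ∈ range m, i : ℕ) : ZMod m) := by
  obtain ⟨k, rfl⟩ : ∃ k, m = k + 1 := ⟨m - 1, by have := NeZero.ne m; omega⟩
  have h1 : ∑ v : ZMod (k + 1), v = ∑ v : Fin (k + 1), ((v : ℕ) : ZMod (k + 1)) := by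
    refine Finset.sum_congr rfl ?_
    intro v _
    exact (ZMod.natCast_zmod_val (n := k + 1) v).symm
  rw [h1, Fin.sum_univ_eq_sum_range (fun i => ((i : ℕ) : ZMod (k + 1))) (k + 1)]
  push_cast
  rfl

/-- A quasigroup with a semiregular cyclic group of automorphisms of even order `m` has order
divisible by `2 * m`. -/
theorem two_mul_dvd_card {op : F → F → F}
    (hq1 : ∀ a, Function.Bijective (op a)) (hq2 : ∀ b, Function.Bijective (fun x => op x b))
    (t : Equiv.Perm F) (ht : ∀ x y, t (op x y) = op (t x) (t y))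
    (hm0 : 0 < m) (hev : Even m) (htm : t ^ m = 1)
    (hfree : ∀ i, 0 < i → i < m → ∀ x, (t ^ i) x ≠ x) : 2 * m ∣ Fintype.card F := by
  classical
  have : NeZero m := ⟨hm0.ne'⟩
  obtain ⟨c, hc⟩ := exists_coord t hm0 htm hfree
  -- shifted double sums
  let U : (F → F → ZMod m) → ZMod m → ZMod m → ZMod m := fun A v w =>
    ∑ x, ∑ y, if c x = v ∧ c y = w then A x y else 0
  have shift1 : ∀ A : F → F → ZMod m, (∀ x y, A (t x) (t y) = A x y) → ∀ v w,
      U A (v + 1) (w + 1) = U A v w := by
    intro A hA v w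
    simp only [U]
    rw [← Equiv.sum_comp t]
    refine Finset.sum_congr rfl fun x _ => ?_
    rw [← Equiv.sum_comp t]
    refine Finset.sum_congr rfl fun y _ => ?_
    rw [hc, hc, hA]
    simp
  have shift : ∀ A : F → F → ZMod m, (∀ x y, A (t x) (t y) = A x y) → ∀ (k : ℕ) v w,
      U A (v + k) (w + k) = U A v w := by
    intro A hA k
    induction k with
    | zero => intro v w; simp
    | succ k ih =>
      intro v w
      push_cast
      rw [← add_assoc, ← add_assoc, shift1 A hA, ih]
  have swap : ∀ A : F → F → ZMod m, (∀ x y, A (t x) (t y) = A x y) →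
      ∑ w, U A 0 w = ∑ w, U A w 0 := by
    intro A hA
    rw [← Equiv.sum_comp (Equiv.neg (ZMod m))]
    refine Finset.sum_congr rfl fun w _ => ?_
    have h := shift A hA (ZMod.val w) 0 (-w)
    rw [ZMod.natCast_zmod_val] at h
    simp only [Equiv.neg_apply]
    rw [← h]; simp
  have sumL : ∀ A : F → F → ZMod m, ∑ w, U A 0 w = ∑ x, if c x = 0 then ∑ y, A x y else 0 := by
    intro A
    simp only [U]
    rw [Finset.sum_comm]
    refine Finset.sum_congr rfl fun x _ => ?_
    rw [Finset.sum_comm]
    by_cases hx : c x = 0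
    · simp [hx]
    · simp [hx]
  have sumR : ∀ A : F → F → ZMod m, ∑ w, U A w 0 = ∑ y, if c y = 0 then ∑ x, A x y else 0 := by
    intro A
    simp only [U]
    rw [Finset.sum_comm]
    have : ∀ x, (∑ w : ZMod m, ∑ y, if c x = w ∧ c y = 0 then A x y else 0) =
        ∑ y, if c y = 0 then A x y else 0 := by
      intro x
      rw [Finset.sum_comm]
      refine Finset.sum_congr rfl fun y _ => ?_
      by_cases hy : c y = 0
      · simp [hy]
      · simp [hy]
    simp_rw [this]
    rw [Finset.sum_comm]
    refine Finset.sum_congr rfl fun y _ => ?_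
    by_cases hy : c y = 0
    · simp [hy]
    · simp [hy]
  set C : ZMod m := ∑ z, c z with hC
  set r : ℕ := (Finset.univ.filter (fun x => c x = 0)).card with hr
  have hop1 : ∀ x, ∑ y, c (op x y) = C := fun x => (hq1 x).sum_comp c
  have hop2 : ∀ y, ∑ x, c (op x y) = C := fun y => (hq2 y).sum_comp c
  have hconst : ∀ K : ZMod m, (∑ x : F, if c x = 0 then K else 0) = (r : ZMod m) * K := by
    intro K
    rw [← Finset.sum_filter, Finset.sum_const, nsmul_eq_mul]
  -- three functions
  have hA1 : ∑ w, U (fun x y => c (op x y) - c x) 0 w = (r : ZMod m) * C := by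
    rw [sumL, ← hconst]
    refine Finset.sum_congr rfl fun x _ => ?_
    by_cases hx : c x = 0
    · simp [hx, hop1]
    · simp [hx]
  have hB : ∑ w, U (fun x y => c (op x y) - c y) 0 w = (r : ZMod m) * C := by
    rw [swap _ (fun x y => by rw [← ht, hc, hc]; ring), sumR, ← hconst]
    refine Finset.sum_congr rfl fun x _ => ?_
    by_cases hx : c x = 0
    · simp [hx, hop2]
    · simp [hx]
  have hD : ∑ w, U (fun x y => c y - c x) 0 w = (r : ZMod m) * C := by
    rw [sumL, ← hconst]
    refine Finset.sum_congr rfl fun x _ => ?_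
    by_cases hx : c x = 0
    · simp [hx, hC]
    · simp [hx]
  have hlin : ∑ w, U (fun x y => c (op x y) - c x) 0 w =
      ∑ w, U (fun x y => c (op x y) - c y) 0 w + ∑ w, U (fun x y => c y - c x) 0 w := by
    rw [sumL, sumL, sumL, ← Finset.sum_add_distrib]
    refine Finset.sum_congr rfl fun x _ => ?_
    by_cases hx : c x = 0
    · simp only [hx, if_true]
      rw [← Finset.sum_add_distrib]
      refine Finset.sum_congr rfl fun y _ => ?_
      ring
    · simp [hx]
  have hrC : (r : ZMod m) * C = 0 := by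
    rw [hA1, hB, hD] at hlin
    have := hlin
    linear_combination -this
  -- all fibres of `c` have size `r`
  have hfib1 : ∀ v : ZMod m, (Finset.univ.filter (fun x => c x = v + 1)).card =
      (Finset.univ.filter (fun x => c x = v)).card := by
    intro v
    refine (Finset.card_bij (fun x _ => t x) ?_ ?_ ?_).symm
    · intro x hx
      simp only [Finset.mem_filter, Finset.mem_univ, true_and] at hx ⊢
      rw [hc, hx]
    · intro x _ y _ h
      exact t.injective h
    · intro y hy
      simp only [Finset.mem_filter, Finset.mem_univ, true_and] at hy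
      refine ⟨t.symm y, ?_, by simp⟩
      simp only [Finset.mem_filter, Finset.mem_univ, true_and]
      have := hc (t.symm y)
      rw [Equiv.apply_symm_apply, hy] at this
      exact (add_right_cancel this).symm
  have hfibk : ∀ k : ℕ, (Finset.univ.filter (fun x => c x = (k : ZMod m))).card = r := by
    intro k
    induction k with
    | zero => simp [hr]
    | succ k ih => push_cast; rw [hfib1, ih]
  have hfib : ∀ v : ZMod m, (Finset.univ.filter (fun x => c x = v)).card = r := by
    intro v
    rw [← hfibk (ZMod.val v), ZMod.natCast_zmod_val]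
  have hcard : Fintype.card F = m * r := by
    have h1 := Finset.card_eq_sum_card_fiberwise (s := (Finset.univ : Finset F))
      (t := (Finset.univ : Finset (ZMod m))) (f := c) (fun _ _ => Finset.mem_coe.2 (Finset.mem_univ _))
    rw [Finset.card_univ] at h1
    rw [h1]
    simp_rw [hfib]
    rw [Finset.sum_const, Finset.card_univ, ZMod.card, smul_eq_mul]
  have hCsum : C = (r : ZMod m) * ∑ v : ZMod m, v := by
    rw [hC]
    rw [← Finset.sum_fiberwise (s := (Finset.univ : Finset F)) (g := c) (f := c)]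
    rw [Finset.mul_sum]
    refine Finset.sum_congr rfl fun v _ => ?_
    rw [← hfib v, ← nsmul_eq_mul, ← Finset.sum_const]
    refine Finset.sum_congr rfl fun x hx => ?_
    exact (Finset.mem_filter.1 hx).2
  obtain ⟨h, hh⟩ := hev
  have hS : (∑ i ∈ range m, i) * 2 = m * (m - 1) := Finset.sum_range_id_mul_two m
  have hS' : (∑ i ∈ range m, i) = h * (m - 1) := by
    have : (∑ i ∈ range m, i) * 2 = (h * (m - 1)) * 2 := by
      rw [hS, hh]; ring
    omega
  have hz : ((r * r * (h * (m - 1)) : ℕ) : ZMod m) = 0 := by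
    have h2 := hrC
    rw [hCsum, sum_zmod, hS'] at h2
    push_cast at h2 ⊢
    linear_combination h2
  rw [ZMod.natCast_eq_zero_iff] at hz
  -- m ∣ r * r * (h * (m-1))
  have hh0 : 0 < h := by omega
  obtain ⟨q, hq⟩ := hz
  have h5 : r * r * (m - 1) = 2 * q := by
    have h6 : h * (r * r * (m - 1)) = h * (2 * q) := by
      calc h * (r * r * (m - 1)) = r * r * (h * (m - 1)) := by ring
        _ = m * q := hq
        _ = h * (2 * q) := by rw [hh]; ring
    exact Nat.eq_of_mul_eq_mul_left hh0 h6
  have hodd : Odd (m - 1) := by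
    refine ⟨h - 1, ?_⟩
    omega
  have hreven : Even r := by
    by_contra hne
    have hro : Odd r := Nat.not_even_iff_odd.1 hne
    have h7 : Odd (r * r * (m - 1)) := (hro.mul hro).mul hodd
    rw [h5] at h7
    exact (Nat.not_odd_iff_even.2 (even_two_mul q)) h7
  obtain ⟨e, he⟩ := hreven
  exact ⟨e, by rw [hcard, he]; ring⟩

end cyclic

lemma dvd_card_of_classes {α : Type u} [Finite α] (s : Setoid α) (d : ℕ)
    (h : ∀ a, d ∣ Nat.card {b // s.r a b}) : d ∣ Nat.card α := by
  classical
  have e := Equiv.sigmaFiberEquiv (Quotient.mk s)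
  rw [← Nat.card_congr e]
  have : Fintype (Quotient s) := Fintype.ofFinite _
  rw [Nat.card_sigma]
  refine Finset.dvd_sum fun q _ => ?_
  induction q using Quotient.inductionOn with
  | h a =>
    have e2 : {b // Quotient.mk s b = Quotient.mk s a} ≃ {b // s.r a b} :=
      Equiv.subtypeEquivRight fun b => by
        constructor
        · intro hb; exact s.symm (Quotient.exact hb)
        · intro hb; exact Quotient.sound (s.symm hb)
    rw [Nat.card_congr e2]
    exact h a

section twogroup

variable {Ω : Type u} [Finite Ω] {P : Type v} [Group P] [Finite P] [MulAction P Ω]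

open MulAction

/-- Two points are related if their stabilisers are conjugate. -/
def conjStab (P : Type v) [Group P] (Ω : Type u) [MulAction P Ω] : Setoid Ω where
  r x y := ∃ g : P, stabilizer P (g • x) = stabilizer P y
  iseqv := by
    have key : ∀ (g : P) (x y : Ω), stabilizer P x = stabilizer P y →
        stabilizer P (g • x) = stabilizer P (g • y) := by
      intro g x y h
      rw [stabilizer_smul_eq_stabilizer_map_conj, stabilizer_smul_eq_stabilizer_map_conj, h]
    refine ⟨fun x => ⟨1, by simp⟩, ?_, ?_⟩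
    · rintro x y ⟨g, hg⟩
      refine ⟨g⁻¹, ?_⟩
      have := key g⁻¹ _ _ hg
      rw [inv_smul_smul] at this
      exact this.symm
    · rintro x y z ⟨g, hg⟩ ⟨k, hk⟩
      refine ⟨k * g, ?_⟩
      rw [mul_smul, key k _ _ hg, hk]

lemma card_orbit_mul (x : Ω) :
    Nat.card (orbit P x) * Nat.card (stabilizer P x) = Nat.card P := by
  classical
  have : Fintype P := Fintype.ofFinite P
  have : Fintype (orbit P x) := Fintype.ofFinite _
  have : Fintype (stabilizer P x) := Fintype.ofFinite _
  simp only [Nat.card_eq_fintype_card]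
  exact card_orbit_mul_card_stabilizer_eq_card_group P x

lemma card_stab_conj {x y : Ω} (h : (conjStab P Ω).r x y) :
    Nat.card (orbit P x) = Nat.card (orbit P y) := by
  obtain ⟨g, hg⟩ := h
  have h1 := card_orbit_mul (P := P) (g • x)
  have h2 := card_orbit_mul (P := P) y
  rw [hg] at h1
  have h3 : orbit P (g • x) = orbit P x := orbit_eq_iff.2 ⟨g, rfl⟩
  rw [h3] at h1
  have h4 : 0 < Nat.card (stabilizer P y) := Nat.card_pos
  exact Nat.eq_of_mul_eq_mul_right h4 (h1.trans h2.symm)

/-- Membership in the normaliser of a subgroup, in terms of conjugation. -/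
lemma stab_smul_eq_iff {L : Subgroup P} {y : Ω} (hy : stabilizer P y = L) (g : P) :
    stabilizer P (g • y) = L ↔ g ∈ Subgroup.normalizer (L : Set P) := by
  rw [stabilizer_smul_eq_stabilizer_map_conj, hy, Subgroup.mem_normalizer_iff_map_conj_eq]
  rfl

/-- Case B: the class of a point with orbit size `2 ^ k` and cyclic normaliser quotient. -/
lemma class_card {op : Ω → Ω → Ω}
    (hq1 : ∀ a, Function.Injective (op a)) (hq2 : ∀ b, Function.Injective (fun x => op x b))
    (hG : ∀ (g : P) (x y : Ω), g • op x y = op (g • x) (g • y))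
    (hP : IsPGroup 2 P) (k : ℕ) (hk : 0 < k) (horb : ∀ x : Ω, 2 ^ k ∣ Nat.card (orbit P x))
    (x : Ω) (hx : Nat.card (orbit P x) = 2 ^ k)
    (hcyc : IsCyclic (↥(Subgroup.normalizer (stabilizer P x : Set P)) ⧸
        (stabilizer P x).subgroupOf (Subgroup.normalizer (stabilizer P x : Set P)))) :
    2 ^ (k + 1) ∣ Nat.card {y // (conjStab P Ω).r x y} := by
  classical
  set L : Subgroup P := stabilizer P x with hL
  set N : Subgroup P := Subgroup.normalizer (L : Set P) with hN
  have hLN : L ≤ N := Subgroup.le_normalizer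
  set m : ℕ := Nat.card (↥N ⧸ L.subgroupOf N) with hm
  have hPL : 2 ^ k * Nat.card L = Nat.card P := by rw [← hx]; exact card_orbit_mul x
  have hLsub : Nat.card (L.subgroupOf N) = Nat.card L :=
    Nat.card_congr (Subgroup.subgroupOfEquivOfLe hLN).toEquiv
  have hNL : Nat.card N = m * Nat.card L := by
    rw [Subgroup.card_eq_card_quotient_mul_card_subgroup (L.subgroupOf N), hLsub]
  have hLpos : 0 < Nat.card L := Nat.card_pos
  have hm0 : 0 < m := Nat.card_pos
  -- `m` is even
  have hLtop : L ≠ ⊤ := by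
    intro h
    rw [h, Subgroup.card_top] at hPL
    have hPpos : 0 < Nat.card P := Nat.card_pos
    have h1 : 2 ^ k = 1 := by
      have : 2 ^ k * Nat.card P = 1 * Nat.card P := by rw [hPL, one_mul]
      exact Nat.eq_of_mul_eq_mul_right hPpos this
    have h2 : 1 < 2 ^ k := Nat.one_lt_two_pow (by omega)
    omega
  have hlt : L < N := by
    have : Fact (Nat.Prime 2) := ⟨Nat.prime_two⟩
    have : Group.IsNilpotent P := hP.isNilpotent
    exact Group.normalizerCondition_of_isNilpotent L (lt_top_iff_ne_top.2 hLtop)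
  have hm1 : m ≠ 1 := by
    intro h
    rw [h, one_mul] at hNL
    exact hlt.ne (Subgroup.eq_of_le_of_card_ge hLN hNL.le)
  have hev : Even m := by
    obtain ⟨n, hn⟩ := IsPGroup.iff_card.1 hP
    have h1 : m ∣ Nat.card P :=
      (Dvd.intro _ hNL.symm).trans (Subgroup.card_subgroup_dvd_card N)
    rw [hn] at h1
    obtain ⟨j, -, hj⟩ := (Nat.dvd_prime_pow Nat.prime_two).1 h1
    have hj0 : j ≠ 0 := by
      rintro rfl
      exact hm1 (by rw [hj, pow_zero])
    rw [hj]
    exact (Nat.even_pow.2 ⟨even_two, hj0⟩)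
  -- the generator
  obtain ⟨q, hq⟩ := hcyc.exists_generator
  have hord : orderOf q = m := orderOf_eq_card_of_forall_mem_zpowers hq
  obtain ⟨t, rfl⟩ := QuotientGroup.mk_surjective q
  have htpow : ∀ i : ℕ, ((t : P) ^ i ∈ L ↔ m ∣ i) := by
    intro i
    rw [← hord, orderOf_dvd_iff_pow_eq_one, ← QuotientGroup.mk_pow, QuotientGroup.eq_one_iff,
      Subgroup.mem_subgroupOf]
    simp
  -- the fixed sub-quasigroup
  let E := {y : Ω // stabilizer P y = L}
  have hEsmul : ∀ (g : P), g ∈ N → ∀ y : E, stabilizer P (g • y.1) = L := fun g hg y =>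
    (stab_smul_eq_iff y.2 g).2 hg
  let τ : Equiv.Perm E :=
    { toFun := fun y => ⟨(t : P) • y.1, hEsmul _ t.2 y⟩
      invFun := fun y => ⟨(t : P)⁻¹ • y.1, hEsmul _ (N.inv_mem t.2) y⟩
      left_inv := fun y => Subtype.ext (inv_smul_smul _ _)
      right_inv := fun y => Subtype.ext (smul_inv_smul _ _) }
  have hτ : ∀ (i : ℕ) (y : E), ((τ ^ i) y).1 = (t : P) ^ i • y.1 := by
    intro i
    induction i with
    | zero => intro y; simp
    | succ i ih =>
      intro y
      rw [pow_succ', Equiv.Perm.mul_apply, pow_succ', mul_smul, ← ih y]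
      rfl
  have hop : ∀ y z : E, stabilizer P (op y.1 z.1) = L := by
    intro y z
    have h1 : L ≤ stabilizer P (op y.1 z.1) := by
      intro g hg
      have hy : g ∈ stabilizer P y.1 := by rw [y.2]; exact hg
      have hz : g ∈ stabilizer P z.1 := by rw [z.2]; exact hg
      rw [mem_stabilizer_iff] at hy hz ⊢
      rw [hG, hy, hz]
    refine (Subgroup.eq_of_le_of_card_ge h1 ?_).symm
    have h2 := card_orbit_mul (P := P) (op y.1 z.1)
    obtain ⟨c, hc⟩ := horb (op y.1 z.1)
    rw [hc, ← hPL] at h2
    have hpos : 0 < 2 ^ k := by positivity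
    have h3 : c * Nat.card (stabilizer P (op y.1 z.1)) = Nat.card L := by
      apply Nat.eq_of_mul_eq_mul_left hpos
      rw [← mul_assoc, h2]
    have hc0 : 0 < c := by
      rcases Nat.eq_zero_or_pos c with h | h
      · rw [h, zero_mul] at h3; omega
      · exact h
    calc Nat.card (stabilizer P (op y.1 z.1)) ≤ c * Nat.card (stabilizer P (op y.1 z.1)) :=
          Nat.le_mul_of_pos_left _ hc0
      _ = Nat.card L := h3
  let opE : E → E → E := fun y z => ⟨op y.1 z.1, hop y z⟩
  have : Fintype E := Fintype.ofFinite E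
  have hE1 : ∀ a, Function.Bijective (opE a) := by
    intro a
    refine Finite.injective_iff_bijective.1 ?_
    intro b c h
    exact Subtype.ext (hq1 a.1 (congrArg Subtype.val h))
  have hE2 : ∀ b, Function.Bijective (fun a => opE a b) := by
    intro b
    refine Finite.injective_iff_bijective.1 ?_
    intro a c h
    exact Subtype.ext (hq2 b.1 (congrArg Subtype.val h))
  have hdvd : 2 * m ∣ Nat.card E := by
    rw [Nat.card_eq_fintype_card]
    refine two_mul_dvd_card (op := opE) hE1 hE2 τ ?_ hm0 hev ?_ ?_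
    · intro y z
      exact Subtype.ext (hG _ _ _)
    · ext y
      rw [hτ]
      have : (t : P) ^ m ∈ stabilizer P y.1 := by
        rw [y.2]; exact (htpow m).2 dvd_rfl
      exact this
    · intro i hi0 him y h
      have h1 : (t : P) ^ i • y.1 = y.1 := by rw [← hτ, h]
      have h2 : (t : P) ^ i ∈ L := y.2.le (mem_stabilizer_iff.2 h1)
      exact absurd (Nat.le_of_dvd hi0 ((htpow i).1 h2)) (by omega)
  -- double counting
  let X := {y // (conjStab P Ω).r x y}
  let S := {p : P × Ω // stabilizer P (p.1 • p.2) = L}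
  have e1 : S ≃ P × E :=
    { toFun := fun p => (p.1.1, ⟨p.1.1 • p.1.2, p.2⟩)
      invFun := fun p => ⟨(p.1, p.1⁻¹ • p.2.1), by
        show stabilizer P (p.1 • p.1⁻¹ • p.2.1) = L
        rw [smul_inv_smul]; exact p.2.2⟩
      left_inv := fun p => Subtype.ext (Prod.ext rfl (inv_smul_smul _ _))
      right_inv := fun p => Prod.ext rfl (Subtype.ext (smul_inv_smul _ _)) }
  have hXr : ∀ y : X, ∃ g : P, stabilizer P (g • y.1) = L := fun y => (conjStab P Ω).symm y.2
  choose g0 hg0 using hXr
  have e2 : S ≃ X × N :=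
    { toFun := fun p => (⟨p.1.2, (conjStab P Ω).symm ⟨p.1.1, p.2⟩⟩,
        ⟨p.1.1 * (g0 ⟨p.1.2, (conjStab P Ω).symm ⟨p.1.1, p.2⟩⟩)⁻¹, by
          rw [hN, ← stab_smul_eq_iff (hg0 ⟨p.1.2, (conjStab P Ω).symm ⟨p.1.1, p.2⟩⟩),
            mul_smul, inv_smul_smul]
          exact p.2⟩)
      invFun := fun p => ⟨(p.2.1 * g0 p.1, p.1.1), by
        show stabilizer P ((p.2.1 * g0 p.1) • p.1.1) = L
        rw [mul_smul, stab_smul_eq_iff (hg0 p.1)]
        exact p.2.2⟩
      left_inv := fun p => Subtype.ext (Prod.ext (inv_mul_cancel_right _ _) rfl)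
      right_inv := fun p => Prod.ext rfl (Subtype.ext (mul_inv_cancel_right _ _)) }
  have hcount : Nat.card P * Nat.card E = Nat.card X * Nat.card N := by
    rw [← Nat.card_prod, ← Nat.card_prod, ← Nat.card_congr e1, ← Nat.card_congr e2]
  obtain ⟨j, hj⟩ := hdvd
  rw [← hPL, hNL, hj] at hcount
  refine ⟨j, ?_⟩
  have h1 : (m * Nat.card L) * Nat.card X = (m * Nat.card L) * (2 ^ (k + 1) * j) := by
    calc (m * Nat.card L) * Nat.card X = Nat.card X * (m * Nat.card L) := by ring
      _ = 2 ^ k * Nat.card L * (2 * m * j) := hcount.symm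
      _ = (m * Nat.card L) * (2 ^ (k + 1) * j) := by rw [pow_succ]; ring
  exact Nat.eq_of_mul_eq_mul_left (Nat.mul_pos hm0 hLpos) h1

/-- Generalised Hall-Paige obstruction. -/
theorem exists_noncyclic {op : Ω → Ω → Ω}
    (hq1 : ∀ a, Function.Injective (op a)) (hq2 : ∀ b, Function.Injective (fun x => op x b))
    (hG : ∀ (g : P) (x y : Ω), g • op x y = op (g • x) (g • y))
    (hP : IsPGroup 2 P) (k : ℕ) (hk : 0 < k) (horb : ∀ x : Ω, 2 ^ k ∣ Nat.card (orbit P x))
    (hcard : ¬ 2 ^ (k + 1) ∣ Nat.card Ω) :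
    ∃ x : Ω, Nat.card (orbit P x) = 2 ^ k ∧
      ¬ IsCyclic (↥(Subgroup.normalizer (stabilizer P x : Set P)) ⧸
        (stabilizer P x).subgroupOf (Subgroup.normalizer (stabilizer P x : Set P))) := by
  classical
  by_contra hcon
  push Not at hcon
  apply hcard
  apply dvd_card_of_classes (conjStab P Ω)
  intro x
  set X := {y // (conjStab P Ω).r x y} with hX
  by_cases hx : Nat.card (orbit P x) = 2 ^ k
  swap
  · -- all orbits in the class have size divisible by `2 ^ (k+1)`
    have hdiv : 2 ^ (k + 1) ∣ Nat.card (orbit P x) := by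
      have h1 : Nat.card (orbit P x) ∣ Nat.card P := ⟨_, (card_orbit_mul (P := P) x).symm⟩
      obtain ⟨n, hn⟩ := IsPGroup.iff_card.1 hP
      rw [hn] at h1
      obtain ⟨j, -, hj⟩ := (Nat.dvd_prime_pow Nat.prime_two).1 h1
      have h2 := horb x
      rw [hj] at h2 hx ⊢
      have h3 : k ≤ j := (Nat.pow_dvd_pow_iff_le_right (by norm_num)).1 h2
      have h4 : k ≠ j := fun h => hx (by rw [h])
      exact pow_dvd_pow 2 (by omega)
    let s : Setoid X :=
      { r := fun a b => (orbitRel P Ω).r a.1 b.1
        iseqv := ⟨fun a => (orbitRel P Ω).refl _, fun h => (orbitRel P Ω).symm h,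
          fun h1 h2 => (orbitRel P Ω).trans h1 h2⟩ }
    apply dvd_card_of_classes s
    intro a
    have e : {b : X // s.r a b} ≃ orbit P a.1 :=
      { toFun := fun b => ⟨b.1.1, by
          have := b.2
          exact (orbitRel P Ω).symm this⟩
        invFun := fun y => ⟨⟨y.1, by
          refine (conjStab P Ω).trans a.2 ?_
          obtain ⟨g, hg⟩ := y.2
          exact ⟨g, by rw [← hg]⟩⟩, (orbitRel P Ω).symm y.2⟩
        left_inv := fun b => rfl
        right_inv := fun y => rfl }
    rw [Nat.card_congr e, ← card_stab_conj a.2]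
    exact hdiv
  · exact class_card hq1 hq2 hG hP k hk horb x hx (hcon x hx)

end twogroup

end Pool.Agent.QGP776
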