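import Mathlib
import Pool.Agent.QGP776.Parity
import Pool.Agent.QGP776.Defs

set_option autoImplicit false

namespace Pool.Agent.QGP776

universe u v

variable {Ω : Type u} {G : Subgroup (Equiv.Perm Ω)}

lemma imul {k g : Equiv.Perm Ω} {a b : Ω} (h : g b = k a) : (k⁻¹ * g) b = a := by
  rw [Equiv.Perm.mul_apply, h]; simp

lemma rigid_of_op {op : Ω → Ω → Ω} (hq : IsQuasigroup op)
    (hG : ∀ g ∈ G, ∀ x y, g (op x y) = op (g x) (g y)) (x y : Ω) : Rigid G x y (op x y) := by
  intro g hg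
  refine ⟨fun h1 h2 => ?_, fun h1 h2 => ?_, fun h1 h2 => ?_⟩
  · rw [hG g hg, h1, h2]
  · have h3 := hG g hg x y
    rw [h1, h2] at h3
    exact (hq.1 x (op x y)).unique h3.symm rfl
  · have h3 := hG g hg x y
    rw [h1, h2] at h3
    exact (hq.2 y (op x y)).unique h3.symm rfl

/-- General criterion. -/
theorem criterion : Realisable G ↔ ∃ R : Set (Ω × Ω × Ω),
    (∀ t ∈ R, Rigid G t.1 t.2.1 t.2.2) ∧
    (∀ x y, ∃! t, t ∈ R ∧ ∃ g ∈ G, g t.1 = x ∧ g t.2.1 = y) ∧
    (∀ x z, ∃! t, t ∈ R ∧ ∃ g ∈ G, g t.1 = x ∧ g t.2.2 = z) ∧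
    (∀ y z, ∃! t, t ∈ R ∧ ∃ g ∈ G, g t.2.1 = y ∧ g t.2.2 = z) := by
  constructor
  · rintro ⟨op, hq, hG⟩
    let s : Setoid (Ω × Ω) :=
      { r := fun p q => ∃ g ∈ G, g p.1 = q.1 ∧ g p.2 = q.2
        iseqv := by
          refine ⟨fun p => ⟨1, G.one_mem, rfl, rfl⟩, ?_, ?_⟩
          · rintro p q ⟨g, hg, h1, h2⟩
            exact ⟨g⁻¹, G.inv_mem hg, by rw [← h1]; simp, by rw [← h2]; simp⟩
          · rintro p q r ⟨g, hg, h1, h2⟩ ⟨k, hk, h3, h4⟩
            exact ⟨k * g, G.mul_mem hk hg, by simp [h1, h3], by simp [h2, h4]⟩ }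
    let R : Set (Ω × Ω × Ω) :=
      {t | ∃ q : Quotient s, t = (q.out.1, q.out.2, op q.out.1 q.out.2)}
    have key : ∀ t ∈ R, ∀ t' ∈ R, (∃ g ∈ G, g t.1 = t'.1 ∧ g t.2.1 = t'.2.1) → t = t' := by
      rintro t ⟨q, rfl⟩ t' ⟨q', rfl⟩ ⟨g, hg, h1, h2⟩
      have : q = q' := by
        rw [← Quotient.out_eq q, ← Quotient.out_eq q']
        exact Quotient.sound ⟨g, hg, h1, h2⟩
      rw [this]
    have hR : ∀ t ∈ R, t.2.2 = op t.1 t.2.1 := by
      rintro t ⟨q, rfl⟩; rfl
    have ex : ∀ x y, ∃ t ∈ R, ∃ g ∈ G, g t.1 = x ∧ g t.2.1 = y ∧ g t.2.2 = op x y := by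
      intro x y
      let q : Quotient s := Quotient.mk s (x, y)
      obtain ⟨g, hg, h1, h2⟩ : s.r q.out (x, y) := Quotient.exact (Quotient.out_eq q)
      refine ⟨(q.out.1, q.out.2, op q.out.1 q.out.2), ⟨q, rfl⟩, g, hg, h1, h2, ?_⟩
      simp only
      rw [hG g hg, h1, h2]
    refine ⟨R, ?_, ?_, ?_, ?_⟩
    · intro t ht
      rw [hR t ht]
      exact rigid_of_op hq hG _ _
    · intro x y
      obtain ⟨t, ht, g, hg, h1, h2, -⟩ := ex x y
      refine ⟨t, ⟨ht, g, hg, h1, h2⟩, ?_⟩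
      rintro t' ⟨ht', g', hg', h1', h2'⟩
      refine key t' ht' t ht ⟨g⁻¹ * g', G.mul_mem (G.inv_mem hg) hg', ?_, ?_⟩
      · simp [h1', ← h1]
      · simp [h2', ← h2]
    · intro x z
      obtain ⟨y, hy, -⟩ := hq.1 x z
      obtain ⟨t, ht, g, hg, h1, h2, h3⟩ := ex x y
      rw [hy] at h3
      refine ⟨t, ⟨ht, g, hg, h1, h3⟩, ?_⟩
      rintro t' ⟨ht', g', hg', h1', h3'⟩
      refine key t' ht' t ht ⟨g⁻¹ * g', G.mul_mem (G.inv_mem hg) hg', ?_, ?_⟩
      · simp [h1', ← h1]
      · have e1 : op x (g' t'.2.1) = z := by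
          rw [← h1', ← hG g' hg', ← hR t' ht', h3']
        have e2 : g' t'.2.1 = y := (hq.1 x z).unique e1 hy
        simp [e2, ← h2]
    · intro y z
      obtain ⟨x, hx, -⟩ := hq.2 y z
      obtain ⟨t, ht, g, hg, h1, h2, h3⟩ := ex x y
      rw [hx] at h3
      refine ⟨t, ⟨ht, g, hg, h2, h3⟩, ?_⟩
      rintro t' ⟨ht', g', hg', h2', h3'⟩
      refine key t' ht' t ht ⟨g⁻¹ * g', G.mul_mem (G.inv_mem hg) hg', ?_, ?_⟩
      · have e1 : op (g' t'.1) y = z := by
          rw [← h2', ← hG g' hg', ← hR t' ht', h3']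
        have e2 : g' t'.1 = x := (hq.2 y z).unique e1 hx
        simp [e2, ← h1]
      · simp [h2', ← h2]
  · rintro ⟨R, hrig, h12, h13, h23⟩
    choose t ht htu using h12
    have htR : ∀ x y, t x y ∈ R := fun x y => (ht x y).1
    choose g hgG hg1 hg2 using fun x y => (ht x y).2
    -- the value does not depend on the group element
    have val : ∀ x y, ∀ s ∈ R, ∀ k ∈ G, k s.1 = x → k s.2.1 = y →
        k s.2.2 = g x y (t x y).2.2 := by
      intro x y s hs k hk h1 h2
      have hst : s = t x y := htu x y s ⟨hs, k, hk, h1, h2⟩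
      subst hst
      have h := (hrig _ (htR x y) ((g x y)⁻¹ * k) (G.mul_mem (G.inv_mem (hgG x y)) hk)).1
        (imul (by rw [h1, hg1])) (imul (by rw [h2, hg2]))
      rw [Equiv.Perm.mul_apply] at h
      calc k (t x y).2.2 = g x y ((g x y)⁻¹ (k (t x y).2.2)) := by simp
        _ = _ := by rw [h]
    refine ⟨fun x y => g x y (t x y).2.2, ⟨?_, ?_⟩, ?_⟩
    · intro a b
      obtain ⟨s, ⟨hs, k, hk, h1, h3⟩, hu⟩ := h13 a b
      refine ⟨k s.2.1, ?_, ?_⟩
      · show g a (k s.2.1) (t a (k s.2.1)).2.2 = b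
        rw [← val a (k s.2.1) s hs k hk h1 rfl, h3]
      · intro y hy
        have hs' : t a y = s := hu _ ⟨htR a y, g a y, hgG a y, hg1 a y, hy⟩
        have e1 := hg1 a y
        have e2 := hg2 a y
        have e3 : g a y (t a y).2.2 = b := hy
        rw [hs'] at e1 e2 e3
        have h := (hrig _ hs (k⁻¹ * g a y) (G.mul_mem (G.inv_mem hk) (hgG a y))).2.1
          (imul (by rw [e1, h1])) (imul (by rw [e3, h3]))
        rw [Equiv.Perm.mul_apply, e2] at h
        calc y = k (k⁻¹ y) := by simp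
          _ = _ := by rw [h]
    · intro a b
      obtain ⟨s, ⟨hs, k, hk, h2, h3⟩, hu⟩ := h23 a b
      refine ⟨k s.1, ?_, ?_⟩
      · show g (k s.1) a (t (k s.1) a).2.2 = b
        rw [← val (k s.1) a s hs k hk rfl h2, h3]
      · intro y hy
        have hs' : t y a = s := hu _ ⟨htR y a, g y a, hgG y a, hg2 y a, hy⟩
        have e1 := hg1 y a
        have e2 := hg2 y a
        have e3 : g y a (t y a).2.2 = b := hy
        rw [hs'] at e1 e2 e3
        have h := (hrig _ hs (k⁻¹ * g y a) (G.mul_mem (G.inv_mem hk) (hgG y a))).2.2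
          (imul (by rw [e2, h2])) (imul (by rw [e3, h3]))
        rw [Equiv.Perm.mul_apply, e1] at h
        calc y = k (k⁻¹ y) := by simp
          _ = _ := by rw [h]
    · intro k hk x y
      show k (g x y (t x y).2.2) = g (k x) (k y) (t (k x) (k y)).2.2
      exact val (k x) (k y) (t x y) (htR x y) (k * g x y) (G.mul_mem hk (hgG x y))
        (by simp [hg1 x y]) (by simp [hg2 x y])

lemma Rigid.map {x y z : Ω} (h : Rigid G x y z) {k : Equiv.Perm Ω} (hk : k ∈ G) :
    Rigid G (k x) (k y) (k z) := by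
  intro g hg
  have h0 := h (k⁻¹ * g * k) (G.mul_mem (G.mul_mem (G.inv_mem hk) hg) hk)
  have e : ∀ a : Ω, (k⁻¹ * g * k) a = a ↔ g (k a) = k a := by
    intro a
    rw [Equiv.Perm.mul_apply, Equiv.Perm.mul_apply, Equiv.Perm.inv_eq_iff_eq]
  rw [e, e, e] at h0
  exact h0

lemma Rigid.agree {x y z : Ω} (h : Rigid G x y z) {g k : Equiv.Perm Ω} (hg : g ∈ G) (hk : k ∈ G) :
    (g x = k x → g y = k y → g z = k z) ∧ (g x = k x → g z = k z → g y = k y) ∧
    (g y = k y → g z = k z → g x = k x) := by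
  have h0 := h (k⁻¹ * g) (G.mul_mem (G.inv_mem hk) hg)
  have e : ∀ a : Ω, (k⁻¹ * g) a = a ↔ g a = k a := by
    intro a
    rw [Equiv.Perm.mul_apply, Equiv.Perm.inv_eq_iff_eq]
  rw [e, e, e] at h0
  exact h0

theorem two_transitive_iff [Nontrivial Ω] (h2 : TwoTransitive G) :
    Realisable G ↔ ∃ x y z : Ω, x ≠ y ∧ x ≠ z ∧ y ≠ z ∧ Rigid G x y z := by
  constructor
  · rintro ⟨op, hq, hG⟩
    obtain ⟨x, y, hxy⟩ := exists_pair_ne Ω
    have hr := rigid_of_op hq hG x y
    by_cases hx : op x y = x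
    · exfalso
      have hall : ∀ a b : Ω, a ≠ b → op a b = a := by
        intro a b hab
        obtain ⟨g, hg, h1, h3⟩ := h2 x y a b hxy hab
        rw [← h1, ← h3, ← hG g hg, hx]
      -- then `op y x = y`, and `op x x` equals neither
      have hyx := hall y x hxy.symm
      obtain ⟨c, hc, -⟩ := hq.2 y x
      by_cases hcy : c = y
      · subst hcy
        -- op c c = x, where c ≠ x
        obtain ⟨d, hd, -⟩ := hq.1 x c
        by_cases hdx : d = x
        · subst hdx
          have e1 := (hq.2 c d).unique hc hx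
          exact hxy e1.symm
        · have e1 := hall x d (Ne.symm hdx)
          rw [hd] at e1
          exact hxy e1.symm
      · have e1 := hall c y hcy
        rw [hc] at e1
        -- c = x, fine: use row of x
        obtain ⟨d, hd, -⟩ := hq.1 x y
        by_cases hdx : d = x
        · subst hdx
          -- op d d = y
          obtain ⟨a, ha, -⟩ := hq.2 y y
          by_cases hay : a = y
          · subst hay
            have e2 := (hq.1 a a).unique ha (hall a d hxy.symm)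
            exact hxy e2.symm
          · have e2 := hall a y hay
            rw [ha] at e2
            exact hay e2.symm
        · have e2 := hall x d (Ne.symm hdx)
          rw [hd] at e2
          exact hxy e2.symm
    · by_cases hy : op x y = y
      · exfalso
        have hall : ∀ a b : Ω, a ≠ b → op a b = b := by
          intro a b hab
          obtain ⟨g, hg, h1, h3⟩ := h2 x y a b hxy hab
          rw [← h1, ← h3, ← hG g hg, hy]
        obtain ⟨c, hc, -⟩ := hq.2 x y
        by_cases hcx : c = x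
        · subst hcx
          -- op c c = y
          have e1 := (hq.1 c y).unique hc hy
          exact hxy e1
        · have e1 := hall c x hcx
          rw [hc] at e1
          exact hxy e1.symm
      · exact ⟨x, y, op x y, hxy, Ne.symm hx, Ne.symm hy, hr⟩
  · rintro ⟨x0, y0, z0, hxy, hxz, hyz, hr⟩
    classical
    choose g hgG hg1 hg2 using fun (p : {p : Ω × Ω // p.1 ≠ p.2}) =>
      h2 x0 y0 p.1.1 p.1.2 hxy p.2
    let op : Ω → Ω → Ω := fun x y => if h : x ≠ y then g ⟨(x, y), h⟩ z0 else x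
    have op_self : ∀ x, op x x = x := fun x => by simp [op]
    have op_ne : ∀ x y, x ≠ y → ∀ k ∈ G, k x0 = x → k y0 = y → op x y = k z0 := by
      intro x y h k hk h1 h3
      simp only [op, dif_pos h]
      exact (hr.agree (hgG _) hk).1 (by rw [hg1, h1]) (by rw [hg2, h3])
    have ex : ∀ x y, x ≠ y → ∃ k ∈ G, k x0 = x ∧ k y0 = y ∧ op x y = k z0 := by
      intro x y h
      obtain ⟨k, hk, h1, h3⟩ := h2 x0 y0 x y hxy h
      exact ⟨k, hk, h1, h3, op_ne x y h k hk h1 h3⟩
    have op_ne_left : ∀ x y, x ≠ y → op x y ≠ x := by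
      intro x y h he
      obtain ⟨k, hk, h1, h3, h4⟩ := ex x y h
      rw [h4, ← h1] at he
      exact hxz (k.injective he).symm
    have op_ne_right : ∀ x y, x ≠ y → op x y ≠ y := by
      intro x y h he
      obtain ⟨k, hk, h1, h3, h4⟩ := ex x y h
      rw [h4, ← h3] at he
      exact hyz (k.injective he).symm
    refine ⟨op, ⟨?_, ?_⟩, ?_⟩
    · intro a b
      by_cases hab : a = b
      · subst hab
        refine ⟨a, op_self a, fun y hy => ?_⟩
        by_contra hne
        exact op_ne_left a y (Ne.symm hne) hy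
      · obtain ⟨k, hk, h1, h3⟩ := h2 x0 z0 a b hxz hab
        have hay : a ≠ k y0 := by
          rw [← h1]; exact fun h => hxy (k.injective h)
        refine ⟨k y0, ?_, ?_⟩
        · show op a (k y0) = b
          rw [op_ne a (k y0) hay k hk h1 rfl, h3]
        · intro y hy
          have hy' : op a y = b := hy
          have hne : a ≠ y := by
            rintro rfl
            rw [op_self] at hy'
            exact hab hy'
          obtain ⟨k', hk', h1', h3', h4'⟩ := ex a y hne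
          rw [← h3']
          exact (hr.agree hk' hk).2.1 (by rw [h1', h1]) (by rw [← h4', hy', h3])
    · intro a b
      by_cases hab : a = b
      · subst hab
        refine ⟨a, op_self a, fun y hy => ?_⟩
        by_contra hne
        exact op_ne_right y a hne hy
      · obtain ⟨k, hk, h1, h3⟩ := h2 y0 z0 a b hyz hab
        have hay : k x0 ≠ a := by
          rw [← h1]; exact fun h => hxy (k.injective h)
        refine ⟨k x0, ?_, ?_⟩
        · show op (k x0) a = b
          rw [op_ne (k x0) a hay k hk rfl h1, h3]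
        · intro y hy
          have hy' : op y a = b := hy
          have hne : y ≠ a := by
            rintro rfl
            rw [op_self] at hy'
            exact hab hy'
          obtain ⟨k', hk', h1', h3', h4'⟩ := ex y a hne
          rw [← h1']
          exact (hr.agree hk' hk).2.2 (by rw [h3', h1]) (by rw [← h4', hy', h3])
    · intro k hk x y
      by_cases hxy' : x = y
      · subst hxy'
        rw [op_self, op_self]
      · obtain ⟨k', hk', h1, h3, h4⟩ := ex x y hxy'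
        rw [h4, op_ne (k x) (k y) (fun h => hxy' (k.injective h)) (k * k') (G.mul_mem hk hk')
          (by rw [Equiv.Perm.mul_apply, h1]) (by rw [Equiv.Perm.mul_apply, h3])]
        rfl

/-- For finite `Ω` and `G` 2-transitive, a point fixed by a two-point stabiliser gives a rigid
triple. -/
theorem rigid_of_fixed [Finite Ω] (h2 : TwoTransitive G) {x y z : Ω} (hxy : x ≠ y) (hxz : x ≠ z)
    (hyz : y ≠ z) (h : ∀ g ∈ G, g x = x → g y = y → g z = z) : Rigid G x y z := by
  classical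
  have main : ∀ a b : Ω, a ≠ b → (∀ g ∈ G, g x = x → g y = y → g a = a ∧ g b = b) →
      ∀ g ∈ G, g a = a → g b = b → g x = x ∧ g y = y := by
    intro a b hab hsub g hg ha hb
    obtain ⟨k, hk, hk1, hk2⟩ := h2 x y a b hxy hab
    let A : Set (Equiv.Perm Ω) := {g | g ∈ G ∧ g x = x ∧ g y = y}
    let B : Set (Equiv.Perm Ω) := {g | g ∈ G ∧ g a = a ∧ g b = b}
    have hAB : A ⊆ B := fun g hg => ⟨hg.1, hsub g hg.1 hg.2.1 hg.2.2⟩
    have hinj : Function.Injective (fun g : Equiv.Perm Ω => k⁻¹ * g * k) := by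
      intro g g' hgg
      have h1 : k⁻¹ * g * k = k⁻¹ * g' * k := hgg
      simpa using h1
    have himg : (fun g : Equiv.Perm Ω => k⁻¹ * g * k) '' B ⊆ A := by
      rintro _ ⟨g, ⟨hg, h1, h3⟩, rfl⟩
      refine ⟨G.mul_mem (G.mul_mem (G.inv_mem hk) hg) hk, ?_, ?_⟩
      · show (k⁻¹ * g * k) x = x
        rw [Equiv.Perm.mul_apply, Equiv.Perm.mul_apply, Equiv.Perm.inv_eq_iff_eq, hk1, h1]
      · show (k⁻¹ * g * k) y = y
        rw [Equiv.Perm.mul_apply, Equiv.Perm.mul_apply, Equiv.Perm.inv_eq_iff_eq, hk2, h3]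
    have hcard : B.ncard ≤ A.ncard := by
      rw [← Set.ncard_image_of_injective B hinj]
      exact Set.ncard_le_ncard himg (Set.toFinite _)
    have hEq : A = B := Set.eq_of_subset_of_ncard_le hAB hcard (Set.toFinite _)
    have hgA : g ∈ A := by rw [hEq]; exact ⟨hg, ha, hb⟩
    exact hgA.2
  intro g hg
  refine ⟨h g hg, fun h1 h3 => ?_, fun h1 h3 => ?_⟩
  · exact (main x z hxz (fun g hg h1 h3 => ⟨h1, h g hg h1 h3⟩) g hg h1 h3).2
  · exact (main y z hyz (fun g hg h1 h3 => ⟨h3, h g hg h1 h3⟩) g hg h1 h3).1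

/-- Obstruction by block-local elements; it applies to all imprimitive wreath products. -/
theorem not_realisable_of_local {Γ : Type v} (π : Ω → Γ) (hπ : ∃ x y, π x ≠ π y)
    (hloc : ∀ x, ∃ g ∈ G, g x ≠ x ∧ ∀ y, π y ≠ π x → g y = y) : ¬ Realisable G := by
  rintro ⟨op, hq, hG⟩
  obtain ⟨x, y, hxy⟩ := hπ
  have hr := rigid_of_op hq hG x y
  by_cases hzx : π (op x y) = π x
  · obtain ⟨g, hg, hm, hf⟩ := hloc y
    exact hm ((hr g hg).2.1 (hf x hxy) (hf _ (by rw [hzx]; exact hxy)))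
  · by_cases hzy : π (op x y) = π y
    · obtain ⟨g, hg, hm, hf⟩ := hloc x
      exact hm ((hr g hg).2.2 (hf y (Ne.symm hxy)) (hf _ (by rw [hzy]; exact Ne.symm hxy)))
    · obtain ⟨g, hg, hm, hf⟩ := hloc (op x y)
      exact hm ((hr g hg).1 (hf x (Ne.symm hzx)) (hf y (Ne.symm hzy)))

/-- Criterion when `G` has a regular normal subgroup `N`. -/
theorem regular_normal_iff {N : Subgroup (Equiv.Perm Ω)} (hN : RegularNormal N G) (ω : Ω) :
    Realisable G ↔ ∃ f : Equiv.Perm Ω → Equiv.Perm Ω,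
      (∀ n ∈ N, f n ∈ N) ∧ (∀ m ∈ N, ∃! n, n ∈ N ∧ f n = m) ∧
      (∀ m ∈ N, ∃! n, n ∈ N ∧ n⁻¹ * f n = m) ∧
      (∀ h ∈ G, h ω = ω → ∀ n ∈ N, f (h * n * h⁻¹) = h * f n * h⁻¹) := by
  obtain ⟨hNG, hnorm, hreg⟩ := hN
  choose α hα hαu using fun x => hreg ω x
  have hαN : ∀ x, α x ∈ N := fun x => (hα x).1
  have hαω : ∀ x, (α x) ω = x := fun x => (hα x).2
  have uniq : ∀ n ∈ N, ∀ m ∈ N, n ω = m ω → n = m := by
    intro n hn m hm h
    exact (hαu (m ω) n ⟨hn, h⟩).trans (hαu (m ω) m ⟨hm, rfl⟩).symm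
  have hαn : ∀ n ∈ N, α (n ω) = n := fun n hn => uniq _ (hαN _) _ hn (hαω _)
  constructor
  · rintro ⟨op, hq, hG⟩
    have hf : ∀ n ∈ N, (α (op ω (n ω))) ω = op ω (n ω) := fun n _ => hαω _
    refine ⟨fun n => α (op ω (n ω)), fun n _ => hαN _, ?_, ?_, ?_⟩
    · intro m hm
      obtain ⟨x, hx, hxu⟩ := hq.1 ω (m ω)
      refine ⟨α x, ⟨hαN x, ?_⟩, ?_⟩
      · show α (op ω ((α x) ω)) = m
        rw [hαω, hx, hαn m hm]
      · rintro n ⟨hn, he⟩
        have e1 : n ω = x := hxu _ (by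
          have := congrArg (fun p : Equiv.Perm Ω => p ω) he
          simpa [hαω] using this)
        rw [← e1, hαn n hn]
    · intro m hm
      obtain ⟨x, hx, hxu⟩ := hq.2 ω (m ω)
      have key : ∀ n ∈ N, (n⁻¹ * α (op ω (n ω)) = m ↔ op (n⁻¹ ω) ω = m ω) := by
        intro n hn
        have e2 : n⁻¹ (op ω (n ω)) = op (n⁻¹ ω) ω := by
          rw [hG _ (G.inv_mem (hNG hn))]; simp
        constructor
        · intro h
          rw [← h, Equiv.Perm.mul_apply, hαω, e2]
        · intro h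
          refine uniq _ (N.mul_mem (N.inv_mem hn) (hαN _)) _ hm ?_
          rw [Equiv.Perm.mul_apply, hαω, e2, h]
      refine ⟨(α x)⁻¹, ⟨N.inv_mem (hαN x), ?_⟩, ?_⟩
      · show ((α x)⁻¹)⁻¹ * α (op ω ((α x)⁻¹ ω)) = m
        rw [key _ (N.inv_mem (hαN x)), inv_inv, hαω, hx]
      · rintro n ⟨hn, he⟩
        have e1 : n⁻¹ ω = x := hxu _ ((key n hn).1 he)
        rw [← e1, hαn _ (N.inv_mem hn), inv_inv]
    · intro h hh hω n hn
      show α (op ω ((h * n * h⁻¹) ω)) = h * α (op ω (n ω)) * h⁻¹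
      have hω' : h⁻¹ ω = ω := by rw [Equiv.Perm.inv_eq_iff_eq, hω]
      refine uniq _ (hαN _) _ (hnorm h hh _ (hαN _)) ?_
      rw [hαω, Equiv.Perm.mul_apply, Equiv.Perm.mul_apply, Equiv.Perm.mul_apply,
        Equiv.Perm.mul_apply, hω', hαω, hG h hh, hω]
  · rintro ⟨f, hfN, hf1, hf2, hfe⟩
    have hopN : ∀ x y, α x * f ((α x)⁻¹ * α y) ∈ N := fun x y =>
      N.mul_mem (hαN x) (hfN _ (N.mul_mem (N.inv_mem (hαN x)) (hαN y)))
    refine ⟨fun x y => (α x * f ((α x)⁻¹ * α y)) ω, ⟨?_, ?_⟩, ?_⟩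
    · intro a b
      obtain ⟨n, ⟨hn, hfn⟩, hnu⟩ := hf1 ((α a)⁻¹ * α b) (N.mul_mem (N.inv_mem (hαN a)) (hαN b))
      refine ⟨(α a * n) ω, ?_, ?_⟩
      · show (α a * f ((α a)⁻¹ * α ((α a * n) ω))) ω = b
        rw [hαn _ (N.mul_mem (hαN a) hn), inv_mul_cancel_left, hfn, mul_inv_cancel_left, hαω]
      · intro y hy
        have hy' : (α a * f ((α a)⁻¹ * α y)) ω = b := hy
        have e1 : α a * f ((α a)⁻¹ * α y) = α b := by
          rw [← hy', hαn _ (hopN a y)]
        have e2 : (α a)⁻¹ * α y = n := hnu _ ⟨N.mul_mem (N.inv_mem (hαN a)) (hαN y), by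
          rw [← e1, inv_mul_cancel_left]⟩
        rw [← e2, mul_inv_cancel_left, hαω]
    · intro a b
      -- find x with `α x * f ((α x)⁻¹ * α a) = α b`; put n = (α x)⁻¹ * α a
      obtain ⟨n, ⟨hn, hfn⟩, hnu⟩ := hf2 ((α a)⁻¹ * α b) (N.mul_mem (N.inv_mem (hαN a)) (hαN b))
      have hxN : α a * n⁻¹ ∈ N := N.mul_mem (hαN a) (N.inv_mem hn)
      refine ⟨(α a * n⁻¹) ω, ?_, ?_⟩
      · show (α ((α a * n⁻¹) ω) * f ((α ((α a * n⁻¹) ω))⁻¹ * α a)) ω = b
        rw [hαn _ hxN]
        have e1 : (α a * n⁻¹)⁻¹ * α a = n := by group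
        rw [e1, mul_assoc, hfn, mul_inv_cancel_left, hαω]
      · intro x hx
        have hx' : (α x * f ((α x)⁻¹ * α a)) ω = b := hx
        have e1 : α x * f ((α x)⁻¹ * α a) = α b := by
          rw [← hx', hαn _ (hopN x a)]
        have e2 : (α x)⁻¹ * α a = n := hnu _ ⟨N.mul_mem (N.inv_mem (hαN x)) (hαN a), by
          rw [← e1]; group⟩
        have e3 : α a * n⁻¹ = α x := by rw [← e2]; group
        rw [e3, hαω]
    · intro g hg x y
      show g ((α x * f ((α x)⁻¹ * α y)) ω) = (α (g x) * f ((α (g x))⁻¹ * α (g y))) ω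
      -- g = ν h
      let ν : Equiv.Perm Ω := α (g ω)
      let h : Equiv.Perm Ω := ν⁻¹ * g
      have hνN : ν ∈ N := hαN _
      have hhG : h ∈ G := G.mul_mem (G.inv_mem (hNG hνN)) hg
      have hhω : h ω = ω := by
        show (ν⁻¹ * g) ω = ω
        rw [Equiv.Perm.mul_apply, Equiv.Perm.inv_eq_iff_eq]
        exact (hαω (g ω)).symm
      have hhω' : h⁻¹ ω = ω := by rw [Equiv.Perm.inv_eq_iff_eq, hhω]
      have hgx : ∀ x, α (g x) = ν * (h * α x * h⁻¹) := by
        intro x
        refine uniq _ (hαN _) _ (N.mul_mem hνN (hnorm h hhG _ (hαN x))) ?_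
        rw [hαω, Equiv.Perm.mul_apply, Equiv.Perm.mul_apply, Equiv.Perm.mul_apply, hhω', hαω]
        show g x = ν ((ν⁻¹ * g) x)
        simp
      rw [hgx x, hgx y]
      have e1 : (ν * (h * α x * h⁻¹))⁻¹ * (ν * (h * α y * h⁻¹)) =
          h * ((α x)⁻¹ * α y) * h⁻¹ := by group
      rw [e1, hfe h hhG hhω _ (N.mul_mem (N.inv_mem (hαN x)) (hαN y))]
      have e2 : ν * (h * α x * h⁻¹) * (h * f ((α x)⁻¹ * α y) * h⁻¹) =
          g * (α x * f ((α x)⁻¹ * α y)) * h⁻¹ := by
        show ν * ((ν⁻¹ * g) * α x * h⁻¹) * (h * f ((α x)⁻¹ * α y) * h⁻¹) = _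
        group
      rw [e2]
      show _ = (g * (α x * f ((α x)⁻¹ * α y))) (h⁻¹ ω)
      rw [hhω']
      rfl

/-- If `G` has a regular normal subgroup in which every element has a unique square root
(for instance one of odd order), then `G` is realisable. -/
theorem realisable_of_unique_roots {N : Subgroup (Equiv.Perm Ω)} (hN : RegularNormal N G)
    (ω : Ω) (hroot : ∀ m ∈ N, ∃! s, s ∈ N ∧ s * s = m) : Realisable G := by
  rw [regular_normal_iff hN ω]
  classical
  let f : Equiv.Perm Ω → Equiv.Perm Ω := fun m =>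
    if h : m ∈ N then (hroot m h).choose else 1
  have hf : ∀ m ∈ N, f m ∈ N ∧ f m * f m = m := by
    intro m hm
    simp only [f, dif_pos hm]
    exact (hroot m hm).choose_spec.1
  have hfu : ∀ s ∈ N, f (s * s) = s := by
    intro s hs
    exact (hroot _ (N.mul_mem hs hs)).unique (hf _ (N.mul_mem hs hs)) ⟨hs, rfl⟩
  refine ⟨f, fun n hn => (hf n hn).1, ?_, ?_, ?_⟩
  · intro m hm
    refine ⟨m * m, ⟨N.mul_mem hm hm, hfu m hm⟩, ?_⟩
    rintro n ⟨hn, rfl⟩
    exact (hf n hn).2.symm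
  · intro m hm
    refine ⟨m⁻¹ * m⁻¹, ⟨N.mul_mem (N.inv_mem hm) (N.inv_mem hm), ?_⟩, ?_⟩
    · show (m⁻¹ * m⁻¹)⁻¹ * f (m⁻¹ * m⁻¹) = m
      rw [hfu _ (N.inv_mem hm)]; group
    · rintro n ⟨hn, he⟩
      have h1 := (hf n hn).2
      have h3 : f n = m⁻¹ := by
        have h4 : n⁻¹ * f n = (f n)⁻¹ := by
          nth_rewrite 1 [← h1]; group
        rw [h4] at he
        rw [← he, inv_inv]
      rw [← h1, h3]
  · intro h hh _ n hn
    have h1 := hf n hn
    have hfN := hN.2.1 h hh _ h1.1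
    have e1 : h * n * h⁻¹ = (h * f n * h⁻¹) * (h * f n * h⁻¹) := by
      have : (h * f n * h⁻¹) * (h * f n * h⁻¹) = h * (f n * f n) * h⁻¹ := by group
      rw [this, h1.2]
    rw [e1, hfu _ hfN]

/-- Product action: if `A` is realisable on `Δ`, so is every group of permutations of `Γ → Δ`
inside the wreath product of `A` with `Sym Γ` in product action. -/
theorem realisable_product {Δ : Type u} {Γ : Type v} {A : Subgroup (Equiv.Perm Δ)}
    (hA : Realisable A) (W : Subgroup (Equiv.Perm (Γ → Δ)))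
    (hW : ∀ g ∈ W, ∃ σ : Equiv.Perm Γ, ∃ a : Γ → Equiv.Perm Δ, (∀ γ, a γ ∈ A) ∧
      ∀ (f : Γ → Δ) (γ : Γ), g f γ = a γ (f (σ γ))) : Realisable W := by
  obtain ⟨op, hq, hA⟩ := hA
  refine ⟨fun p q γ => op (p γ) (q γ), ⟨?_, ?_⟩, ?_⟩
  · intro p q
    choose r hr hru using fun γ => hq.1 (p γ) (q γ)
    exact ⟨r, funext hr, fun s hs => funext fun γ => hru γ _ (congrFun hs γ)⟩
  · intro p q
    choose r hr hru using fun γ => hq.2 (p γ) (q γ)
    exact ⟨r, funext hr, fun s hs => funext fun γ => hru γ _ (congrFun hs γ)⟩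
  · intro g hg p q
    obtain ⟨σ, a, ha, hga⟩ := hW g hg
    funext γ
    show g (fun γ => op (p γ) (q γ)) γ = op (g p γ) (g q γ)
    rw [hga, hga, hga, hA _ (ha γ)]

/-- A finite `G` with a regular normal subgroup `N` is realisable as soon as some permutation `c`
normalising `N` and commuting with the stabiliser of `ω` fixes `ω` and nothing else. -/
theorem realisable_of_central [Finite Ω] {N : Subgroup (Equiv.Perm Ω)} (hN : RegularNormal N G)
    (ω : Ω) (c : Equiv.Perm Ω) (hcω : c ω = ω) (hfix : ∀ x, c x = x → x = ω)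
    (hcN : ∀ n ∈ N, c * n * c⁻¹ ∈ N) (hcomm : ∀ h ∈ G, h ω = ω → h * c = c * h) :
    Realisable G := by
  rw [regular_normal_iff hN ω]
  have uniq : ∀ n ∈ N, n ω = ω → n = 1 := by
    intro n hn h
    exact (hN.2.2 ω ω).unique ⟨hn, h⟩ ⟨N.one_mem, rfl⟩
  have hfinj : ∀ n m : Equiv.Perm Ω, c * n * c⁻¹ = c * m * c⁻¹ → n = m := by
    intro n m h
    simpa using h
  have hginj : ∀ n ∈ N, ∀ m ∈ N, n⁻¹ * (c * n * c⁻¹) = m⁻¹ * (c * m * c⁻¹) → n = m := by
    intro n hn m hm h
    have h1 : (m * n⁻¹) * c = c * (m * n⁻¹) := by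
      have h2 : m * (n⁻¹ * (c * n * c⁻¹)) * c * n⁻¹ = m * (m⁻¹ * (c * m * c⁻¹)) * c * n⁻¹ := by
        rw [h]
      have e1 : m * (n⁻¹ * (c * n * c⁻¹)) * c * n⁻¹ = (m * n⁻¹) * c := by group
      have e2 : m * (m⁻¹ * (c * m * c⁻¹)) * c * n⁻¹ = c * (m * n⁻¹) := by group
      rw [← e1, h2, e2]
    have h3 : c ((m * n⁻¹) ω) = (m * n⁻¹) ω := by
      have := congrArg (fun p : Equiv.Perm Ω => p ω) h1
      simp only [Equiv.Perm.mul_apply] at this ⊢
      rw [← this, hcω]
    have h4 := uniq _ (N.mul_mem hm (N.inv_mem hn)) (hfix _ h3)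
    exact (mul_inv_eq_one.1 h4).symm
  refine ⟨fun n => c * n * c⁻¹, hcN, ?_, ?_, ?_⟩
  · intro m hm
    have hbij : Function.Bijective (fun n : N => (⟨c * n.1 * c⁻¹, hcN n.1 n.2⟩ : N)) := by
      refine Finite.injective_iff_bijective.1 ?_
      intro a b hab
      exact Subtype.ext (hfinj _ _ (congrArg Subtype.val hab))
    obtain ⟨n, hn⟩ := hbij.2 ⟨m, hm⟩
    refine ⟨n.1, ⟨n.2, congrArg Subtype.val hn⟩, ?_⟩
    rintro n' ⟨hn', he⟩
    exact hfinj _ _ (he.trans (congrArg Subtype.val hn).symm)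
  · intro m hm
    have hbij : Function.Bijective
        (fun n : N => (⟨n.1⁻¹ * (c * n.1 * c⁻¹), N.mul_mem (N.inv_mem n.2) (hcN n.1 n.2)⟩ : N)) := by
      refine Finite.injective_iff_bijective.1 ?_
      intro a b hab
      exact Subtype.ext (hginj _ a.2 _ b.2 (congrArg Subtype.val hab))
    obtain ⟨n, hn⟩ := hbij.2 ⟨m, hm⟩
    refine ⟨n.1, ⟨n.2, congrArg Subtype.val hn⟩, ?_⟩
    rintro n' ⟨hn', he⟩
    exact hginj _ hn' _ n.2 (he.trans (congrArg Subtype.val hn).symm)
  · intro h hh hω n hn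
    have h1 := hcomm h hh hω
    show c * (h * n * h⁻¹) * c⁻¹ = h * (c * n * c⁻¹) * h⁻¹
    have e1 : c * (h * n * h⁻¹) * c⁻¹ = (c * h) * n * (c * h)⁻¹ := by group
    have e2 : h * (c * n * c⁻¹) * h⁻¹ = (h * c) * n * (h * c)⁻¹ := by group
    rw [e1, e2, h1]

lemma fixPt_symm [Finite Ω] (ht : Transitive G) {x w : Ω} (h : w ∈ FixPt G x) :
    x ∈ FixPt G w := by
  classical
  obtain ⟨k, hk, hkx⟩ := ht x w
  let A : Set (Equiv.Perm Ω) := {g | g ∈ G ∧ g x = x}
  let B : Set (Equiv.Perm Ω) := {g | g ∈ G ∧ g w = w}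
  have hAB : A ⊆ B := fun g hg => ⟨hg.1, h g hg.1 hg.2⟩
  have hinj : Function.Injective (fun g : Equiv.Perm Ω => k⁻¹ * g * k) := by
    intro g g' hgg
    have h1 : k⁻¹ * g * k = k⁻¹ * g' * k := hgg
    simpa using h1
  have himg : (fun g : Equiv.Perm Ω => k⁻¹ * g * k) '' B ⊆ A := by
    rintro _ ⟨g, ⟨hg, h1⟩, rfl⟩
    refine ⟨G.mul_mem (G.mul_mem (G.inv_mem hk) hg) hk, ?_⟩
    show (k⁻¹ * g * k) x = x
    rw [Equiv.Perm.mul_apply, Equiv.Perm.mul_apply, Equiv.Perm.inv_eq_iff_eq, hkx, h1]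
  have hcard : B.ncard ≤ A.ncard := by
    rw [← Set.ncard_image_of_injective B hinj]
    exact Set.ncard_le_ncard himg (Set.toFinite _)
  have hEq : A = B := Set.eq_of_subset_of_ncard_le hAB hcard (Set.toFinite _)
  intro g hg hgw
  have hgA : g ∈ A := by rw [hEq]; exact ⟨hg, hgw⟩
  exact hgA.2

/-- Fixed-point tripling. -/
theorem tripling [Finite Ω] (ht : Transitive G) (hR : Realisable G) {x y : Ω}
    (hy : y ∉ FixPt G x) : 3 * (FixPt G x).ncard ≤ (FixPair G x y).ncard := by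
  classical
  obtain ⟨op, hq, hG⟩ := hR
  have hr := rigid_of_op hq hG x y
  set z := op x y with hz
  have trans : ∀ a b c : Ω, b ∈ FixPt G a → c ∈ FixPt G b → c ∈ FixPt G a := by
    intro a b c h1 h2 g hg hga
    exact h2 g hg (h1 g hg hga)
  have hcard : ∀ a b : Ω, (FixPt G a).ncard = (FixPt G b).ncard := by
    intro a b
    obtain ⟨k, hk, hkab⟩ := ht a b
    have himg : FixPt G b = k '' FixPt G a := by
      ext w
      constructor
      · intro hw
        refine ⟨k⁻¹ w, ?_, by simp⟩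
        intro g hg hga
        have h1 := hw (k * g * k⁻¹) (G.mul_mem (G.mul_mem hk hg) (G.inv_mem hk)) (by
          rw [← hkab]; simp [hga])
        have h2 : k (g (k⁻¹ w)) = w := h1
        rw [← Equiv.Perm.eq_inv_iff_eq] at h2
        exact h2
      · rintro ⟨v, hv, rfl⟩ g hg hgb
        have h1 := hv (k⁻¹ * g * k) (G.mul_mem (G.mul_mem (G.inv_mem hk) hg) hk) (by
          rw [Equiv.Perm.mul_apply, Equiv.Perm.mul_apply, Equiv.Perm.inv_eq_iff_eq, hkab, hgb])
        have h2 : k⁻¹ (g (k v)) = v := h1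
        rw [Equiv.Perm.inv_eq_iff_eq] at h2
        exact h2
    rw [himg, Set.ncard_image_of_injective _ k.injective]
  -- pairwise disjointness
  have dxy : Disjoint (FixPt G x) (FixPt G y) := by
    rw [Set.disjoint_left]
    intro w h1 h2
    exact hy (trans x w y h1 (fixPt_symm ht h2))
  have dxz : Disjoint (FixPt G x) (FixPt G z) := by
    rw [Set.disjoint_left]
    intro w h1 h2
    have h3 : z ∈ FixPt G x := trans x w z h1 (fixPt_symm ht h2)
    exact hy fun g hg hgx => (hr g hg).2.1 hgx (h3 g hg hgx)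
  have dyz : Disjoint (FixPt G y) (FixPt G z) := by
    rw [Set.disjoint_left]
    intro w h1 h2
    have h3 : z ∈ FixPt G y := trans y w z h1 (fixPt_symm ht h2)
    have h4 : x ∈ FixPt G y := fun g hg hgy => (hr g hg).2.2 hgy (h3 g hg hgy)
    exact hy (fixPt_symm ht h4)
  have hsub : FixPt G x ∪ FixPt G y ∪ FixPt G z ⊆ FixPair G x y := by
    rintro w ((hw | hw) | hw) g hg h1 h2
    · exact hw g hg h1
    · exact hw g hg h2
    · exact hw g hg ((hr g hg).1 h1 h2)
  have h1 : (FixPt G x ∪ FixPt G y ∪ FixPt G z).ncard = 3 * (FixPt G x).ncard := by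
    rw [Set.ncard_union_eq (Set.disjoint_union_left.2 ⟨dxz, dyz⟩) (Set.toFinite _) (Set.toFinite _),
      Set.ncard_union_eq dxy (Set.toFinite _) (Set.toFinite _), hcard y x, hcard z x]
    ring
  rw [← h1]
  exact Set.ncard_le_ncard hsub (Set.toFinite _)

lemma orbit_dvd [Finite Ω] (ht : Transitive G) {P : Subgroup (Equiv.Perm Ω)} (hPG : P ≤ G)
    (hidx : Odd (P.relIndex G)) {k : ℕ} (hk : 2 ^ k ∣ Nat.card Ω) (x : Ω) :
    2 ^ k ∣ Nat.card (MulAction.orbit P x) := by
  classical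
  have h1 := card_orbit_mul (P := P) x
  have h2 := card_orbit_mul (P := G) x
  have horb : MulAction.orbit G x = Set.univ := by
    ext y
    simp only [Set.mem_univ, iff_true]
    obtain ⟨g, hg, hgx⟩ := ht x y
    exact ⟨⟨g, hg⟩, hgx⟩
  rw [horb, Nat.card_univ] at h2
  have h3 : Nat.card P * P.relIndex G = Nat.card G := by
    have := Subgroup.card_mul_index (P.subgroupOf G)
    rw [Nat.card_congr (Subgroup.subgroupOfEquivOfLe hPG).toEquiv] at this
    exact this
  have h4 : Nat.card (MulAction.stabilizer P x) ∣ Nat.card (MulAction.stabilizer G x) := by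
    have hA : Nat.card ((MulAction.stabilizer P x).map P.subtype) =
        Nat.card (MulAction.stabilizer P x) :=
      (Nat.card_congr ((MulAction.stabilizer P x).equivMapOfInjective P.subtype
        P.subtype_injective).toEquiv).symm
    have hB : Nat.card ((MulAction.stabilizer G x).map G.subtype) =
        Nat.card (MulAction.stabilizer G x) :=
      (Nat.card_congr ((MulAction.stabilizer G x).equivMapOfInjective G.subtype
        G.subtype_injective).toEquiv).symm
    rw [← hA, ← hB]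
    apply Subgroup.card_dvd_of_le
    rintro _ ⟨g, hg, rfl⟩
    exact ⟨⟨g.1, hPG g.2⟩, hg, rfl⟩
  obtain ⟨j, hj⟩ := h4
  have hpos : 0 < Nat.card (MulAction.stabilizer P x) := Nat.card_pos
  have h5 : Nat.card (MulAction.orbit P x) * P.relIndex G = Nat.card Ω * j := by
    apply Nat.eq_of_mul_eq_mul_left hpos
    calc Nat.card (MulAction.stabilizer P x) * (Nat.card (MulAction.orbit P x) * P.relIndex G)
        = (Nat.card (MulAction.orbit P x) * Nat.card (MulAction.stabilizer P x)) *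
          P.relIndex G := by ring
      _ = Nat.card Ω * Nat.card (MulAction.stabilizer G x) := by rw [h1, h3, h2]
      _ = _ := by rw [hj]; ring
  have h6 : 2 ^ k ∣ Nat.card (MulAction.orbit P x) * P.relIndex G := by
    rw [h5]; exact hk.mul_right j
  exact (Nat.Coprime.pow_left k (Nat.coprime_two_left.2 hidx)).dvd_of_dvd_mul_right h6

/-- Hall-Paige type obstruction for all finite transitive groups of even degree. -/
theorem sylow_obstruction [Finite Ω] (ht : Transitive G) (hR : Realisable G)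
    (heven : Even (Nat.card Ω)) (h0 : Nat.card Ω ≠ 0) {P : Subgroup (Equiv.Perm Ω)} (hPG : P ≤ G)
    (hP : IsPGroup 2 P) (hidx : Odd (P.relIndex G)) :
    ∃ x : Ω, Nat.card (MulAction.orbit P x) = 2 ^ (Nat.card Ω).factorization 2 ∧
      ¬ IsCyclic (↥(Subgroup.normalizer (MulAction.stabilizer P x : Set P)) ⧸
        (MulAction.stabilizer P x).subgroupOf
          (Subgroup.normalizer (MulAction.stabilizer P x : Set P))) := by
  classical
  obtain ⟨op, hq, hG⟩ := hR
  refine exists_noncyclic (op := op) ?_ ?_ ?_ hP _ ?_ ?_ ?_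
  · intro a x y h
    exact (hq.1 a (op a y)).unique h rfl
  · intro b x y h
    exact (hq.2 b (op y b)).unique h rfl
  · intro g x y
    exact hG g.1 (hPG g.2) x y
  · exact Nat.Prime.factorization_pos_of_dvd Nat.prime_two h0 heven.two_dvd
  · intro x
    exact orbit_dvd ht hPG hidx (Nat.ordProj_dvd _ _) x
  · exact Nat.pow_succ_factorization_not_dvd h0 Nat.prime_two

/-- Converse for product actions: if `W` contains the base group `A ^ Γ` and the stabiliser of `δ`
in `A` fixes only `δ`, then realisability of `W` implies that of `A`. -/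
theorem realisable_of_product {Δ : Type u} {Γ : Type v} [Nonempty Γ]
    {A : Subgroup (Equiv.Perm Δ)} (δ : Δ) (hδ : ∀ w, (∀ a ∈ A, a δ = δ → a w = w) → w = δ)
    (W : Subgroup (Equiv.Perm (Γ → Δ)))
    (hW : ∀ a : Γ → Equiv.Perm Δ, (∀ γ, a γ ∈ A) → ∃ g ∈ W, ∀ (f : Γ → Δ) (γ : Γ),
      g f γ = a γ (f γ)) (hR : Realisable W) : Realisable A := by
  classical
  obtain ⟨γ0⟩ := ‹Nonempty Γ›
  obtain ⟨op, hq, hG⟩ := hR
  let e : Δ → (Γ → Δ) := fun d => Function.update (fun _ => δ) γ0 d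
  have e0 : ∀ d, e d γ0 = d := fun d => by simp [e]
  have e1 : ∀ d γ, γ ≠ γ0 → e d γ = δ := fun d γ h => by simp [e, h]
  have einj : ∀ p : Γ → Δ, (∀ γ, γ ≠ γ0 → p γ = δ) → p = e (p γ0) := by
    intro p hp
    funext γ
    by_cases h : γ = γ0
    · subst h; rw [e0]
    · rw [hp γ h, e1 _ _ h]
  -- the key closure property
  have key : ∀ p : Γ → Δ, (∀ g ∈ W, (∀ d, g (e d) = e d) → g p = p) →
      ∀ γ, γ ≠ γ0 → p γ = δ := by
    intro p hp γ hγ
    apply hδ
    intro a ha haδ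
    obtain ⟨g, hg, hgf⟩ := hW (fun γ' => if γ' = γ then a else 1) (by
      intro γ'
      by_cases h : γ' = γ
      · simp [h, ha]
      · simp [h, A.one_mem])
    have h1 := hp g hg (by
      intro d
      funext γ'
      rw [hgf]
      by_cases h : γ' = γ
      · subst h; simp [e1 _ _ hγ, haδ]
      · simp [h])
    have h2 := congrFun h1 γ
    rw [hgf] at h2
    simpa using h2
  have hop : ∀ x y : Δ, op (e x) (e y) = e (op (e x) (e y) γ0) := by
    intro x y
    apply einj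
    apply key
    intro g hg hfix
    rw [hG g hg, hfix, hfix]
  refine ⟨fun x y => op (e x) (e y) γ0, ⟨?_, ?_⟩, ?_⟩
  · intro a b
    obtain ⟨p, hp, hpu⟩ := hq.1 (e a) (e b)
    have hpe : p = e (p γ0) := by
      apply einj
      apply key
      intro g hg hfix
      have h1 := hG g hg (e a) p
      rw [hp, hfix, hfix] at h1
      exact hpu _ h1.symm
    refine ⟨p γ0, ?_, ?_⟩
    · show op (e a) (e (p γ0)) γ0 = b
      rw [← hpe, hp, e0]
    · intro y hy
      have hy' : op (e a) (e y) γ0 = b := hy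
      have h1 : op (e a) (e y) = e b := by rw [hop, hy']
      have h2 := hpu _ h1
      rw [← h2, e0]
  · intro a b
    obtain ⟨p, hp, hpu⟩ := hq.2 (e a) (e b)
    have hpe : p = e (p γ0) := by
      apply einj
      apply key
      intro g hg hfix
      have h1 := hG g hg p (e a)
      rw [hp, hfix, hfix] at h1
      exact hpu _ h1.symm
    refine ⟨p γ0, ?_, ?_⟩
    · show op (e (p γ0)) (e a) γ0 = b
      rw [← hpe, hp, e0]
    · intro y hy
      have hy' : op (e y) (e a) γ0 = b := hy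
      have h1 : op (e y) (e a) = e b := by rw [hop, hy']
      have h2 := hpu _ h1
      rw [← h2, e0]
  · intro a ha x y
    obtain ⟨g, hg, hgf⟩ := hW (fun γ' => if γ' = γ0 then a else 1) (by
      intro γ'
      by_cases h : γ' = γ0
      · simp [h, ha]
      · simp [h, A.one_mem])
    have hge : ∀ d, g (e d) = e (a d) := by
      intro d
      funext γ'
      rw [hgf]
      by_cases h : γ' = γ0
      · subst h; simp [e0]
      · simp [h, e1 _ _ h]
    show a (op (e x) (e y) γ0) = op (e (a x)) (e (a y)) γ0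
    rw [← hge, ← hge, ← hG g hg, hgf]
    simp

/-- A group with a regular normal subgroup of odd order is realisable. -/
theorem realisable_of_odd {N : Subgroup (Equiv.Perm Ω)} (hN : RegularNormal N G) (ω : Ω)
    (hodd : Odd (Nat.card N)) : Realisable G := by
  refine realisable_of_unique_roots hN ω fun m hm => ?_
  have hcop : (Nat.card N).Coprime 2 := Nat.coprime_two_right.2 hodd
  let e := powCoprime hcop
  have he : ∀ a : N, e a = a * a := fun a => by
    show a ^ 2 = a * a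
    exact pow_two a
  refine ⟨(e.symm ⟨m, hm⟩).1, ⟨(e.symm ⟨m, hm⟩).2, ?_⟩, ?_⟩
  · have h1 := he (e.symm ⟨m, hm⟩)
    rw [Equiv.apply_symm_apply] at h1
    exact (congrArg Subtype.val h1).symm
  · rintro s ⟨hs, hss⟩
    have h1 : e ⟨s, hs⟩ = ⟨m, hm⟩ := by
      rw [he]; exact Subtype.ext hss
    have h2 : e.symm ⟨m, hm⟩ = ⟨s, hs⟩ := by rw [← h1, Equiv.symm_apply_apply]
    rw [h2]

end Pool.Agent.QGP776
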