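import Pool.Agent.QGP776.Basic

set_option autoImplicit false

namespace Pool.Agent.QGP776

universe u v

variable {Ω : Type u} {G : Subgroup (Equiv.Perm Ω)}

/-- `R` is a system of rigid triples that solves the pairs in `D`. -/
structure Solves (G : Subgroup (Equiv.Perm Ω)) (D : Set (Ω × Ω)) (R : Set (Ω × Ω × Ω)) :
    Prop where
  rigid : ∀ t ∈ R, Rigid G t.1 t.2.1 t.2.2
  mem12 : ∀ t ∈ R, (t.1, t.2.1) ∈ D
  mem13 : ∀ t ∈ R, (t.1, t.2.2) ∈ D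
  mem23 : ∀ t ∈ R, (t.2.1, t.2.2) ∈ D
  h12 : ∀ x y, (x, y) ∈ D → ∃! t, t ∈ R ∧ ∃ g ∈ G, g t.1 = x ∧ g t.2.1 = y
  h13 : ∀ x z, (x, z) ∈ D → ∃! t, t ∈ R ∧ ∃ g ∈ G, g t.1 = x ∧ g t.2.2 = z
  h23 : ∀ y z, (y, z) ∈ D → ∃! t, t ∈ R ∧ ∃ g ∈ G, g t.2.1 = y ∧ g t.2.2 = z

lemma union_role {D0 D1 : Set (Ω × Ω)} {R0 R1 : Set (Ω × Ω × Ω)}
    (U V : Ω × Ω × Ω → Ω)
    (hinv0 : ∀ g ∈ G, ∀ x y, (x, y) ∈ D0 → (g x, g y) ∈ D0)
    (hinv1 : ∀ g ∈ G, ∀ x y, (x, y) ∈ D1 → (g x, g y) ∈ D1)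
    (hcov : ∀ p, p ∈ D0 ∨ p ∈ D1) (hdis : ∀ p, p ∈ D0 → p ∉ D1)
    (m0 : ∀ t ∈ R0, (U t, V t) ∈ D0) (m1 : ∀ t ∈ R1, (U t, V t) ∈ D1)
    (h0 : ∀ x y, (x, y) ∈ D0 → ∃! t, t ∈ R0 ∧ ∃ g ∈ G, g (U t) = x ∧ g (V t) = y)
    (h1 : ∀ x y, (x, y) ∈ D1 → ∃! t, t ∈ R1 ∧ ∃ g ∈ G, g (U t) = x ∧ g (V t) = y) (x y : Ω) :
    ∃! t, t ∈ R0 ∪ R1 ∧ ∃ g ∈ G, g (U t) = x ∧ g (V t) = y := by
  rcases hcov (x, y) with hp | hp
  · obtain ⟨t, ⟨ht, hg⟩, hu⟩ := h0 x y hp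
    refine ⟨t, ⟨Or.inl ht, hg⟩, ?_⟩
    rintro s ⟨hs | hs, g, hgG, e1, e2⟩
    · exact hu s ⟨hs, g, hgG, e1, e2⟩
    · exfalso
      have := hinv1 g hgG _ _ (m1 s hs)
      rw [e1, e2] at this
      exact hdis _ hp this
  · obtain ⟨t, ⟨ht, hg⟩, hu⟩ := h1 x y hp
    refine ⟨t, ⟨Or.inr ht, hg⟩, ?_⟩
    rintro s ⟨hs | hs, g, hgG, e1, e2⟩
    · exfalso
      have := hinv0 g hgG _ _ (m0 s hs)
      rw [e1, e2] at this
      exact hdis _ this hp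
    · exact hu s ⟨hs, g, hgG, e1, e2⟩

lemma realisable_of_union {D0 D1 : Set (Ω × Ω)} {R0 R1 : Set (Ω × Ω × Ω)}
    (h0 : Solves G D0 R0) (h1 : Solves G D1 R1)
    (hinv0 : ∀ g ∈ G, ∀ x y, (x, y) ∈ D0 → (g x, g y) ∈ D0)
    (hinv1 : ∀ g ∈ G, ∀ x y, (x, y) ∈ D1 → (g x, g y) ∈ D1)
    (hcov : ∀ p, p ∈ D0 ∨ p ∈ D1) (hdis : ∀ p, p ∈ D0 → p ∉ D1) : Realisable G := by
  rw [criterion]
  refine ⟨R0 ∪ R1, ?_, ?_, ?_, ?_⟩
  · rintro t (ht | ht)
    · exact h0.rigid t ht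
    · exact h1.rigid t ht
  · exact union_role (fun t => t.1) (fun t => t.2.1) hinv0 hinv1 hcov hdis h0.mem12 h1.mem12
      h0.h12 h1.h12
  · exact union_role (fun t => t.1) (fun t => t.2.2) hinv0 hinv1 hcov hdis h0.mem13 h1.mem13
      h0.h13 h1.h13
  · exact union_role (fun t => t.2.1) (fun t => t.2.2) hinv0 hinv1 hcov hdis h0.mem23 h1.mem23
      h0.h23 h1.h23

lemma fixPt_map {x w : Ω} (h : w ∈ FixPt G x) {k : Equiv.Perm Ω} (hk : k ∈ G) :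
    k w ∈ FixPt G (k x) := by
  intro g hg hgk
  have h1 := h (k⁻¹ * g * k) (G.mul_mem (G.mul_mem (G.inv_mem hk) hg) hk) (by
    rw [Equiv.Perm.mul_apply, Equiv.Perm.mul_apply, Equiv.Perm.inv_eq_iff_eq, hgk])
  rw [Equiv.Perm.mul_apply, Equiv.Perm.mul_apply, Equiv.Perm.inv_eq_iff_eq] at h1
  exact h1

lemma fixPt_trans {a b c : Ω} (h1 : b ∈ FixPt G a) (h2 : c ∈ FixPt G b) : c ∈ FixPt G a :=
  fun g hg hga => h2 g hg (h1 g hg hga)

lemma fixPt_self (x : Ω) : x ∈ FixPt G x := fun _ _ h => h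

/-- The symmetry of the relation `w ∈ FixPt G x`. -/
def FixSymm {Ω : Type u} (G : Subgroup (Equiv.Perm Ω)) : Prop :=
  ∀ x w : Ω, w ∈ FixPt G x → x ∈ FixPt G w

lemma block_role (hB : FixSymm G) (ht : Transitive G) (ω : Ω)
    {R : Set (FixPt G ω × FixPt G ω × FixPt G ω)}
    (c : FixPt G ω × FixPt G ω × FixPt G ω → Ω × Ω × Ω)
    (a b : FixPt G ω × FixPt G ω × FixPt G ω → FixPt G ω) (U V : Ω × Ω × Ω → Ω)
    (hU : ∀ t, U (c t) = a t) (hV : ∀ t, V (c t) = b t)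
    (h : ∀ x y, ∃! t, t ∈ R ∧ ∃ p ∈ induced G (FixPt G ω), p (a t) = x ∧ p (b t) = y) (x y : Ω)
    (hxy : y ∈ FixPt G x) : ∃! s, s ∈ c '' R ∧ ∃ g ∈ G, g (U s) = x ∧ g (V s) = y := by
  obtain ⟨k, hk, hkx⟩ := ht ω x
  have hky : k⁻¹ y ∈ FixPt G ω := by
    have := fixPt_map hxy (G.inv_mem hk)
    rwa [show k⁻¹ x = ω by rw [← hkx]; simp] at this
  obtain ⟨t, ⟨htR, p, ⟨g, hg, hpg⟩, e1, e2⟩, hu⟩ := h ⟨ω, fixPt_self ω⟩ ⟨k⁻¹ y, hky⟩
  refine ⟨c t, ⟨⟨t, htR, rfl⟩, k * g, G.mul_mem hk hg, ?_, ?_⟩, ?_⟩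
  · rw [hU, Equiv.Perm.mul_apply, ← hpg, e1, hkx]
  · rw [hV, Equiv.Perm.mul_apply, ← hpg, e2]; simp
  · rintro _ ⟨⟨s, hs, rfl⟩, g', hg', f1, f2⟩
    rw [hU] at f1
    rw [hV] at f2
    have hh : k⁻¹ * g' ∈ G := G.mul_mem (G.inv_mem hk) hg'
    have h1 : (k⁻¹ * g') (a s : Ω) = ω := by
      rw [Equiv.Perm.mul_apply, f1, ← hkx]; simp
    have h2 : (k⁻¹ * g') (b s : Ω) = k⁻¹ y := by
      rw [Equiv.Perm.mul_apply, f2]
    have m1 : ∀ w, w ∈ FixPt G ω → (k⁻¹ * g') w ∈ FixPt G ω := by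
      intro w hw
      have h3 : w ∈ FixPt G (a s : Ω) := fixPt_trans (hB _ _ (a s).2) hw
      have h4 := fixPt_map h3 hh
      rwa [h1] at h4
    have m2 : ∀ w, w ∈ FixPt G ω → (k⁻¹ * g')⁻¹ w ∈ FixPt G ω := by
      intro w hw
      have h4 := fixPt_map hw (G.inv_mem hh)
      have h5 : (k⁻¹ * g')⁻¹ ω = (a s : Ω) := by
        rw [Equiv.Perm.inv_eq_iff_eq, h1]
      rw [h5] at h4
      exact fixPt_trans (a s).2 h4
    let q : Equiv.Perm (FixPt G ω) :=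
      { toFun := fun w => ⟨(k⁻¹ * g') w.1, m1 _ w.2⟩
        invFun := fun w => ⟨(k⁻¹ * g')⁻¹ w.1, m2 _ w.2⟩
        left_inv := fun w => Subtype.ext (by simp)
        right_inv := fun w => Subtype.ext (by simp) }
    have hst : s = t := by
      refine hu s ⟨hs, q, ⟨k⁻¹ * g', hh, fun w => rfl⟩, ?_, ?_⟩
      · exact Subtype.ext h1
      · exact Subtype.ext h2
    rw [hst]

lemma solves_blocks (hB : FixSymm G) (ht : Transitive G) (ω : Ω)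
    (hF : Realisable (induced G (FixPt G ω))) :
    ∃ R, Solves G {p | p.2 ∈ FixPt G p.1} R := by
  rw [criterion] at hF
  obtain ⟨R, -, h12, h13, h23⟩ := hF
  let c : FixPt G ω × FixPt G ω × FixPt G ω → Ω × Ω × Ω := fun t => (t.1, t.2.1, t.2.2)
  have hall : ∀ x y : FixPt G ω, (y : Ω) ∈ FixPt G (x : Ω) := fun x y =>
    fixPt_trans (hB _ _ x.2) y.2
  refine ⟨c '' R, ?_, ?_, ?_, ?_, ?_, ?_, ?_⟩
  · rintro _ ⟨t, -, rfl⟩ g hg
    exact ⟨fun h _ => hall t.1 t.2.2 g hg h, fun h _ => hall t.1 t.2.1 g hg h,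
      fun h _ => hall t.2.1 t.1 g hg h⟩
  · rintro _ ⟨t, -, rfl⟩
    exact hall _ _
  · rintro _ ⟨t, -, rfl⟩
    exact hall _ _
  · rintro _ ⟨t, -, rfl⟩
    exact hall _ _
  · exact fun x y hxy => block_role hB ht ω c (fun t => t.1) (fun t => t.2.1) (fun t => t.1)
      (fun t => t.2.1) (fun _ => rfl) (fun _ => rfl) h12 x y hxy
  · exact fun x y hxy => block_role hB ht ω c (fun t => t.1) (fun t => t.2.2) (fun t => t.1)
      (fun t => t.2.2) (fun _ => rfl) (fun _ => rfl) h13 x y hxy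
  · exact fun x y hxy => block_role hB ht ω c (fun t => t.2.1) (fun t => t.2.2) (fun t => t.2.1)
      (fun t => t.2.2) (fun _ => rfl) (fun _ => rfl) h23 x y hxy

/-- Restriction to the fixed points of a point stabiliser. -/
lemma realisable_induced (hR : Realisable G) (ω : Ω) : Realisable (induced G (FixPt G ω)) := by
  obtain ⟨op, hq, hG⟩ := hR
  have hcl : ∀ x y : FixPt G ω, op x.1 y.1 ∈ FixPt G ω := by
    intro x y g hg hgω
    rw [hG g hg, x.2 g hg hgω, y.2 g hg hgω]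
  refine ⟨fun x y => ⟨op x.1 y.1, hcl x y⟩, ⟨?_, ?_⟩, ?_⟩
  · intro a b
    obtain ⟨x, hx, hu⟩ := hq.1 a.1 b.1
    have hxF : x ∈ FixPt G ω := by
      intro g hg hgω
      apply hu
      have := hG g hg a.1 x
      rw [hx, a.2 g hg hgω, b.2 g hg hgω] at this
      exact this.symm
    refine ⟨⟨x, hxF⟩, Subtype.ext hx, ?_⟩
    intro y hy
    exact Subtype.ext (hu _ (congrArg Subtype.val hy))
  · intro a b
    obtain ⟨x, hx, hu⟩ := hq.2 a.1 b.1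
    have hxF : x ∈ FixPt G ω := by
      intro g hg hgω
      apply hu
      have := hG g hg x a.1
      rw [hx, a.2 g hg hgω, b.2 g hg hgω] at this
      exact this.symm
    refine ⟨⟨x, hxF⟩, Subtype.ext hx, ?_⟩
    intro y hy
    exact Subtype.ext (hu _ (congrArg Subtype.val hy))
  · rintro p ⟨g, hg, hpg⟩ x y
    apply Subtype.ext
    rw [hpg]
    show g (op x.1 y.1) = op (p x).1 (p y).1
    rw [hG g hg, hpg, hpg]

/-- A value `op x y` with `y ∉ FixPt G x` lies outside the blocks of `x` and `y`. -/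
lemma op_outside (hB : FixSymm G) {op : Ω → Ω → Ω} (hq : IsQuasigroup op)
    (hG : ∀ g ∈ G, ∀ x y, g (op x y) = op (g x) (g y)) {x y : Ω} (hy : y ∉ FixPt G x) :
    op x y ∉ FixPt G x ∧ op x y ∉ FixPt G y := by
  have hr := rigid_of_op hq hG x y
  constructor
  · intro h3
    exact hy fun g hg hgx => (hr g hg).2.1 hgx (h3 g hg hgx)
  · intro h3
    have h4 : x ∈ FixPt G y := fun g hg hgy => (hr g hg).2.2 hgy (h3 g hg hgy)
    exact hy (hB _ _ h4)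

/-- The criterion when `G` is transitive on the pairs `(x, y)` with `y` not fixed by `G_x`. -/
theorem one_moved_orbit (hB : FixSymm G) (ht : Transitive G) (ω : Ω)
    (hT : ∀ x y x' y', y ∉ FixPt G x → y' ∉ FixPt G x' → ∃ g ∈ G, g x = x' ∧ g y = y') :
    Realisable G ↔ Realisable (induced G (FixPt G ω)) ∧
      (FixPt G ω = Set.univ ∨ ∃ x y z, y ∉ FixPt G x ∧ z ∉ FixPt G x ∧ z ∉ FixPt G y ∧
        Rigid G x y z) := by
  constructor
  · intro hR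
    refine ⟨realisable_induced hR ω, ?_⟩
    by_cases hF : FixPt G ω = Set.univ
    · exact Or.inl hF
    · right
      obtain ⟨y, hy⟩ := (Set.ne_univ_iff_exists_notMem _).1 hF
      obtain ⟨op, hq, hG⟩ := hR
      have h1 := op_outside hB hq hG hy
      exact ⟨ω, y, op ω y, hy, h1.1, h1.2, rigid_of_op hq hG _ _⟩
  · rintro ⟨hF, hF2⟩
    obtain ⟨R0, hR0⟩ := solves_blocks hB ht ω hF
    have hinv0 : ∀ g ∈ G, ∀ x y : Ω, (x, y) ∈ {p : Ω × Ω | p.2 ∈ FixPt G p.1} →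
        (g x, g y) ∈ {p : Ω × Ω | p.2 ∈ FixPt G p.1} := by
      intro g hg x y h
      exact fixPt_map h hg
    have hinv1 : ∀ g ∈ G, ∀ x y : Ω, (x, y) ∈ {p : Ω × Ω | p.2 ∉ FixPt G p.1} →
        (g x, g y) ∈ {p : Ω × Ω | p.2 ∉ FixPt G p.1} := by
      intro g hg x y h h'
      apply h
      have := fixPt_map h' (G.inv_mem hg)
      simpa using this
    have hsol : ∃ R1, Solves G {p | p.2 ∉ FixPt G p.1} R1 := by
      rcases hF2 with hF2 | ⟨x, y, z, h1, h2, h3, h4⟩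
      · have hempty : ∀ x y : Ω, y ∈ FixPt G x := by
          intro x y
          obtain ⟨k, hk, hkx⟩ := ht ω x
          have : k⁻¹ y ∈ FixPt G ω := by rw [hF2]; trivial
          have := fixPt_map this hk
          rw [hkx] at this
          simpa using this
        exact ⟨∅, by simp, by simp, by simp, by simp, fun x y h => absurd (hempty x y) h,
          fun x y h => absurd (hempty x y) h, fun x y h => absurd (hempty x y) h⟩
      · refine ⟨{(x, y, z)}, ?_, ?_, ?_, ?_, ?_, ?_, ?_⟩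
        · rintro t rfl; exact h4
        · rintro t rfl; exact h1
        · rintro t rfl; exact h2
        · rintro t rfl; exact h3
        · intro a b hab
          obtain ⟨g, hg, e1, e2⟩ := hT x y a b h1 hab
          exact ⟨(x, y, z), ⟨rfl, g, hg, e1, e2⟩, fun t ht => ht.1⟩
        · intro a b hab
          obtain ⟨g, hg, e1, e2⟩ := hT x z a b h2 hab
          exact ⟨(x, y, z), ⟨rfl, g, hg, e1, e2⟩, fun t ht => ht.1⟩
        · intro a b hab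
          obtain ⟨g, hg, e1, e2⟩ := hT y z a b h3 hab
          exact ⟨(x, y, z), ⟨rfl, g, hg, e1, e2⟩, fun t ht => ht.1⟩
    obtain ⟨R1, hR1⟩ := hsol
    exact realisable_of_union hR0 hR1 hinv0 hinv1 (fun p => em _) (fun p h h' => h' h)

end Pool.Agent.QGP776
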