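import Pool.Agent.QGP776.Neumann

set_option autoImplicit false

namespace Pool.Agent.QGP776

universe u v

open Cardinal

variable {Ω : Type u} {G : Subgroup (Equiv.Perm Ω)}

/-- Elements of `G` commuting with the stabiliser of `x` and `y`. -/
def Cent (G : Subgroup (Equiv.Perm Ω)) (x y : Ω) : Subgroup (Equiv.Perm Ω) where
  carrier := {n | n ∈ G ∧ ∀ g ∈ G, g x = x → g y = y → n * g = g * n}
  one_mem' := ⟨G.one_mem, fun g _ _ _ => by simp⟩
  mul_mem' := by
    rintro a b ⟨ha, ha'⟩ ⟨hb, hb'⟩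
    refine ⟨G.mul_mem ha hb, fun g hg h1 h2 => ?_⟩
    rw [mul_assoc, hb' g hg h1 h2, ← mul_assoc, ha' g hg h1 h2, mul_assoc]
  inv_mem' := by
    rintro a ⟨ha, ha'⟩
    refine ⟨G.inv_mem ha, fun g hg h1 h2 => ?_⟩
    have := ha' g hg h1 h2
    calc a⁻¹ * g = a⁻¹ * (g * a) * a⁻¹ := by group
      _ = a⁻¹ * (a * g) * a⁻¹ := by rw [this]
      _ = g * a⁻¹ := by group

lemma cent_card [Infinite Ω] (ht : Transitive G) (hfin : ∀ x, Finite (Stab G x)) (ω x y : Ω)
    (hfix : #(FixPair G x y) = #Ω) : #Ω ≤ #(Cent G x y) := by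
  classical
  by_contra hcon
  rw [not_le] at hcon
  choose k hk hkω using fun w => ht ω w
  let L : Type u := {g : Equiv.Perm Ω // g ∈ G ∧ g x = x ∧ g y = y}
  have hfx := hfin x
  have hL : Finite L := Finite.of_injective (β := Stab G x)
    (fun g : L => ⟨g.1, g.2.1, g.2.2.1⟩) (by
      intro a b h
      apply Subtype.ext
      exact congrArg (fun s : Stab G x => s.1) h)
  have := hfin ω
  let τ : FixPair G x y → L → Stab G ω := fun w g => ⟨(k w.1)⁻¹ * g.1 * k w.1,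
    G.mul_mem (G.mul_mem (G.inv_mem (hk _)) g.2.1) (hk _), by
      rw [Equiv.Perm.mul_apply, Equiv.Perm.mul_apply, Equiv.Perm.inv_eq_iff_eq, hkω]
      exact w.2 g.1 g.2.1 g.2.2.1 g.2.2.2⟩
  -- representatives of the fibres of `τ`
  let ρ : FixPair G x y → FixPair G x y := fun w =>
    (show ∃ v, τ v = τ w from ⟨w, rfl⟩).choose
  have hρ : ∀ w, τ (ρ w) = τ w := fun w => (show ∃ v, τ v = τ w from ⟨w, rfl⟩).choose_spec
  have hρ2 : ∀ w w', τ w = τ w' → ρ w = ρ w' := by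
    intro w w' h
    simp only [ρ, h]
  let n : FixPair G x y → Cent G x y := fun w => ⟨k w.1 * (k (ρ w).1)⁻¹,
    G.mul_mem (hk _) (G.inv_mem (hk _)), fun g hg h1 h2 => by
      have h3 := congrFun (hρ w) ⟨g, hg, h1, h2⟩
      have h4 : (k (ρ w).1)⁻¹ * g * k (ρ w).1 = (k w.1)⁻¹ * g * k w.1 := congrArg Subtype.val h3
      calc k w.1 * (k (ρ w).1)⁻¹ * g
          = k w.1 * ((k (ρ w).1)⁻¹ * g * k (ρ w).1) * (k (ρ w).1)⁻¹ := by group
        _ = k w.1 * ((k w.1)⁻¹ * g * k w.1) * (k (ρ w).1)⁻¹ := by rw [h4]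
        _ = g * (k w.1 * (k (ρ w).1)⁻¹) := by group⟩
  have hinj : Function.Injective (fun w => (τ w, n w)) := by
    intro w w' h
    simp only [Prod.mk.injEq] at h
    have h1 := hρ2 w w' h.1
    have h2 : k w.1 * (k (ρ w).1)⁻¹ = k w'.1 * (k (ρ w').1)⁻¹ := congrArg Subtype.val h.2
    rw [h1] at h2
    have h3 : k w.1 = k w'.1 := mul_right_cancel h2
    apply Subtype.ext
    rw [← hkω w.1, ← hkω w'.1, h3]
  have hle : #(FixPair G x y) ≤ #(L → Stab G ω) * #(Cent G x y) := by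
    have := mk_le_of_injective hinj
    rw [mk_prod, lift_id, lift_id] at this
    exact this
  have hlt : #(L → Stab G ω) * #(Cent G x y) < #Ω :=
    mul_lt_of_lt (aleph0_le_mk Ω) (lt_of_lt_of_le (lt_aleph0_of_finite _) (aleph0_le_mk Ω)) hcon
  rw [hfix] at hle
  exact absurd hle (not_le.2 hlt)

theorem completions_card [Infinite Ω] (ht : Transitive G) (hfin : ∀ x, Finite (Stab G x))
    {x y z0 : Ω} (hfix : #(FixPair G x y) = #Ω) (hr : Rigid G x y z0) :
    #Ω ≤ #{z // Rigid G x y z} := by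
  classical
  have hC := cent_card ht hfin x x y hfix
  have hCinf : Infinite (Cent G x y) := by
    rw [Cardinal.infinite_iff]
    exact (aleph0_le_mk Ω).trans hC
  set S : Set (Cent G x y) := {n | Rigid G x y (n.1 z0)} with hS
  have hScard : #Ω ≤ #S := by
    by_contra hcon
    rw [not_le] at hcon
    -- the index set
    let I : Set (Equiv.Perm Ω × Equiv.Perm Ω) := {p | p.1 ∈ G ∧ (p.1 x = x ∨ p.1 y = y) ∧
      ¬ (p.1 x = x ∧ p.1 y = y) ∧ p.2 ∈ G ∧ p.2 z0 = z0 ∧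
      ∃ n ∈ Cent G x y, n⁻¹ * p.1 * n = p.2}
    have hfset : ∀ a : Ω, {g : Equiv.Perm Ω | g ∈ G ∧ g a = a}.Finite := by
      intro a
      have h' : Finite {g : Equiv.Perm Ω | g ∈ G ∧ g a = a} := hfin a
      exact Set.toFinite _
    have hI : I.Finite := by
      refine Set.Finite.subset (((hfset x).union (hfset y)).prod (hfset z0)) ?_
      rintro ⟨g, h⟩ ⟨h1, h2, -, h3, h4, -⟩
      refine ⟨?_, h3, h4⟩
      rcases h2 with h2 | h2
      · exact Or.inl ⟨h1, h2⟩
      · exact Or.inr ⟨h1, h2⟩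
    have : Finite I := hI
    choose m hmC hm using fun (i : I) => i.2.2.2.2.2.2
    let H : I → Subgroup (Cent G x y) := fun i =>
      { carrier := {c | c.1 * i.1.2 = i.1.2 * c.1}
        one_mem' := by simp
        mul_mem' := by
          intro a b ha hb
          show (a.1 * b.1) * i.1.2 = i.1.2 * (a.1 * b.1)
          have ha' : a.1 * i.1.2 = i.1.2 * a.1 := ha
          have hb' : b.1 * i.1.2 = i.1.2 * b.1 := hb
          rw [mul_assoc, hb', ← mul_assoc, ha', mul_assoc]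
        inv_mem' := by
          intro a ha
          have ha' : a.1 * i.1.2 = i.1.2 * a.1 := ha
          show a.1⁻¹ * i.1.2 = i.1.2 * a.1⁻¹
          calc a.1⁻¹ * i.1.2 = a.1⁻¹ * (i.1.2 * a.1) * a.1⁻¹ := by group
            _ = a.1⁻¹ * (a.1 * i.1.2) * a.1⁻¹ := by rw [ha']
            _ = i.1.2 * a.1⁻¹ := by group }
    have hcov : ∀ n : Cent G x y, n ∈ S ∨ ∃ i : I, (⟨m i, hmC i⟩ : Cent G x y)⁻¹ * n ∈ H i := by
      intro n
      by_cases hn : n ∈ S
      · exact Or.inl hn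
      · right
        have key : ∀ g ∈ G, (g x = x ∨ g y = y) → ¬ (g x = x ∧ g y = y) → g (n.1 z0) = n.1 z0 →
            ∃ i : I, (⟨m i, hmC i⟩ : Cent G x y)⁻¹ * n ∈ H i := by
          intro g hg h1 h2 h3
          let i : I := ⟨(g, n.1⁻¹ * g * n.1), hg, h1, h2,
            G.mul_mem (G.mul_mem (G.inv_mem n.2.1) hg) n.2.1, by
              show (n.1⁻¹ * g * n.1) z0 = z0
              rw [Equiv.Perm.mul_apply, Equiv.Perm.mul_apply, Equiv.Perm.inv_eq_iff_eq, h3],
            n.1, n.2, rfl⟩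
          refine ⟨i, ?_⟩
          have h4 : (m i)⁻¹ * g * m i = n.1⁻¹ * g * n.1 := hm i
          show ((m i)⁻¹ * n.1) * (n.1⁻¹ * g * n.1) = (n.1⁻¹ * g * n.1) * ((m i)⁻¹ * n.1)
          calc ((m i)⁻¹ * n.1) * (n.1⁻¹ * g * n.1) = ((m i)⁻¹ * g * m i) * (m i)⁻¹ * n.1 := by
                group
            _ = (n.1⁻¹ * g * n.1) * ((m i)⁻¹ * n.1) := by rw [h4]; group
        have hn' : ¬ Rigid G x y (n.1 z0) := hn
        unfold Rigid at hn'
        push Not at hn'
        obtain ⟨g, hg, hbad⟩ := hn'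
        have hcase1 : g x = x → g y = y → g (n.1 z0) = n.1 z0 := by
          intro h1 h2
          have h3 := n.2.2 g hg h1 h2
          have h4 : g z0 = z0 := (hr g hg).1 h1 h2
          calc g (n.1 z0) = (g * n.1) z0 := rfl
            _ = (n.1 * g) z0 := by rw [h3]
            _ = n.1 z0 := by rw [Equiv.Perm.mul_apply, h4]
        by_cases hA : g x = x → g (n.1 z0) = n.1 z0 → g y = y
        · obtain ⟨h1, h2, h3⟩ := hbad hcase1 hA
          exact key g hg (Or.inr h1) (fun h => h3 h.1) h2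
        · push Not at hA
          obtain ⟨h1, h2, h3⟩ := hA
          exact key g hg (Or.inl h1) (fun h => h3 h.2) h2
    have hfinal := neumann_card H (fun i => ⟨m i, hmC i⟩) S hcov (lt_of_lt_of_le hcon hC) 1
    obtain ⟨i, hi⟩ := hfinal
    have hi' : ((m i)⁻¹ * 1) * i.1.2 = i.1.2 * ((m i)⁻¹ * 1) := hi
    rw [mul_one] at hi'
    have h5 := hm i
    have h6 : i.1.1 = i.1.2 := by
      calc i.1.1 = m i * ((m i)⁻¹ * i.1.1 * m i) * (m i)⁻¹ := by group
        _ = m i * (i.1.2 * (m i)⁻¹) := by rw [h5, mul_assoc]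
        _ = m i * ((m i)⁻¹ * i.1.2) := by rw [hi']
        _ = i.1.2 := by group
    obtain ⟨g1, g2, g3, g4, g5, -⟩ := i.2
    rw [← h6] at g5
    apply g3
    rcases g2 with g2 | g2
    · exact ⟨g2, (hr _ g1).2.1 g2 g5⟩
    · exact ⟨(hr _ g1).2.2 g2 g5, g2⟩
  -- from `S` to the completions
  by_contra hcon
  rw [not_le] at hcon
  have := hfin z0
  choose q hq using fun (z : {z // Rigid G x y z}) => ht z0 z.1
  let ψ : S → {z // Rigid G x y z} × Stab G z0 := fun n =>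
    (⟨n.1.1 z0, n.2⟩, ⟨(q ⟨n.1.1 z0, n.2⟩)⁻¹ * n.1.1,
      G.mul_mem (G.inv_mem (hq _).1) n.1.2.1, by
        rw [Equiv.Perm.mul_apply, Equiv.Perm.inv_eq_iff_eq, (hq _).2]⟩)
  have hψ : Function.Injective ψ := by
    intro a b h
    have h1 : (⟨a.1.1 z0, a.2⟩ : {z // Rigid G x y z}) = ⟨b.1.1 z0, b.2⟩ := congrArg Prod.fst h
    have h2 : (q ⟨a.1.1 z0, a.2⟩)⁻¹ * a.1.1 = (q ⟨b.1.1 z0, b.2⟩)⁻¹ * b.1.1 :=
      congrArg (fun s : Stab G z0 => s.1) (congrArg Prod.snd h)
    rw [h1] at h2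
    exact Subtype.ext (Subtype.ext (mul_left_cancel h2))
  have hle : #S ≤ #{z // Rigid G x y z} * #(Stab G z0) := by
    have := mk_le_of_injective hψ
    rw [mk_prod, lift_id, lift_id] at this
    exact this
  have hlt : #{z // Rigid G x y z} * #(Stab G z0) < #Ω :=
    mul_lt_of_lt (aleph0_le_mk Ω) hcon (lt_of_lt_of_le (lt_aleph0_of_finite _) (aleph0_le_mk Ω))
  exact absurd (hScard.trans hle) (not_le.2 hlt)

end Pool.Agent.QGP776
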