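import Pool.Agent.QGP776.Local

set_option autoImplicit false

namespace Pool.Agent.QGP776

universe u v

open Cardinal

variable {Ω : Type u} {G : Subgroup (Equiv.Perm Ω)}

lemma cent_card_mu {μ : Cardinal.{u}} (hμ : ℵ₀ ≤ μ) (ht : Transitive G)
    (hfin : ∀ x, Finite (Stab G x)) (ω x y : Ω) (hfix : #(FixPair G x y) = μ) :
    μ ≤ #(Cent G x y) := by
  classical
  by_contra hcon
  rw [not_le] at hcon
  choose k hk hkω using fun w => ht ω w
  let L : Type u := {g : Equiv.Perm Ω // g ∈ G ∧ g x = x ∧ g y = y}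
  have hfx := hfin x
  have hL : Finite L := Finite.of_injective (β := Stab G x)
    (fun g : L => ⟨g.1, g.2.1, g.2.2.1⟩) (by
      intro a b h
      apply Subtype.ext
      exact congrArg (fun s : Stab G x => s.1) h)
  have := hfin ω
  let τ : FixPair G x y → L → Stab G ω := fun w g => ⟨(k w.1)⁻¹ * g.1 * k w.1,
    G.mul_mem (G.mul_mem (G.inv_mem (hk _)) g.2.1) (hk _), by
      rw [Equiv.Perm.mul_apply, Equiv.Perm.mul_apply, Equiv.Perm.inv_eq_iff_eq, hkω]
      exact w.2 g.1 g.2.1 g.2.2.1 g.2.2.2⟩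
  -- representatives of the fibres of `τ`
  let ρ : FixPair G x y → FixPair G x y := fun w =>
    (show ∃ v, τ v = τ w from ⟨w, rfl⟩).choose
  have hρ : ∀ w, τ (ρ w) = τ w := fun w => (show ∃ v, τ v = τ w from ⟨w, rfl⟩).choose_spec
  have hρ2 : ∀ w w', τ w = τ w' → ρ w = ρ w' := by
    intro w w' h
    simp only [ρ, h]
  let n : FixPair G x y → Cent G x y := fun w => ⟨k w.1 * (k (ρ w).1)⁻¹,
    G.mul_mem (hk _) (G.inv_mem (hk _)), fun g hg h1 h2 => by
      have h3 := congrFun (hρ w) ⟨g, hg, h1, h2⟩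
      have h4 : (k (ρ w).1)⁻¹ * g * k (ρ w).1 = (k w.1)⁻¹ * g * k w.1 := congrArg Subtype.val h3
      calc k w.1 * (k (ρ w).1)⁻¹ * g
          = k w.1 * ((k (ρ w).1)⁻¹ * g * k (ρ w).1) * (k (ρ w).1)⁻¹ := by group
        _ = k w.1 * ((k w.1)⁻¹ * g * k w.1) * (k (ρ w).1)⁻¹ := by rw [h4]
        _ = g * (k w.1 * (k (ρ w).1)⁻¹) := by group⟩
  have hinj : Function.Injective (fun w => (τ w, n w)) := by
    intro w w' h
    simp only [Prod.mk.injEq] at h
    have h1 := hρ2 w w' h.1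
    have h2 : k w.1 * (k (ρ w).1)⁻¹ = k w'.1 * (k (ρ w').1)⁻¹ := congrArg Subtype.val h.2
    rw [h1] at h2
    have h3 : k w.1 = k w'.1 := mul_right_cancel h2
    apply Subtype.ext
    rw [← hkω w.1, ← hkω w'.1, h3]
  have hle : #(FixPair G x y) ≤ #(L → Stab G ω) * #(Cent G x y) := by
    have := mk_le_of_injective hinj
    rw [mk_prod, lift_id, lift_id] at this
    exact this
  have hlt : #(L → Stab G ω) * #(Cent G x y) < μ :=
    mul_lt_of_lt hμ (lt_of_lt_of_le (lt_aleph0_of_finite _) hμ) hcon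
  rw [hfix] at hle
  exact absurd hle (not_le.2 hlt)

theorem completions_card_mu {μ : Cardinal.{u}} (hμ : ℵ₀ ≤ μ) (ht : Transitive G)
    (hfin : ∀ x, Finite (Stab G x)) {x y z0 : Ω} (hfix : #(FixPair G x y) = μ)
    (hr : Rigid G x y z0) : μ ≤ #{z // Rigid G x y z} := by
  classical
  have hC := cent_card_mu hμ ht hfin x x y hfix
  have hCinf : Infinite (Cent G x y) := by
    rw [Cardinal.infinite_iff]
    exact hμ.trans hC
  set S : Set (Cent G x y) := {n | Rigid G x y (n.1 z0)} with hS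
  have hScard : μ ≤ #S := by
    by_contra hcon
    rw [not_le] at hcon
    -- the index set
    let I : Set (Equiv.Perm Ω × Equiv.Perm Ω) := {p | p.1 ∈ G ∧ (p.1 x = x ∨ p.1 y = y) ∧
      ¬ (p.1 x = x ∧ p.1 y = y) ∧ p.2 ∈ G ∧ p.2 z0 = z0 ∧
      ∃ n ∈ Cent G x y, n⁻¹ * p.1 * n = p.2}
    have hfset : ∀ a : Ω, {g : Equiv.Perm Ω | g ∈ G ∧ g a = a}.Finite := by
      intro a
      have h' : Finite {g : Equiv.Perm Ω | g ∈ G ∧ g a = a} := hfin a
      exact Set.toFinite _
    have hI : I.Finite := by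
      refine Set.Finite.subset (((hfset x).union (hfset y)).prod (hfset z0)) ?_
      rintro ⟨g, h⟩ ⟨h1, h2, -, h3, h4, -⟩
      refine ⟨?_, h3, h4⟩
      rcases h2 with h2 | h2
      · exact Or.inl ⟨h1, h2⟩
      · exact Or.inr ⟨h1, h2⟩
    have : Finite I := hI
    choose m hmC hm using fun (i : I) => i.2.2.2.2.2.2
    let H : I → Subgroup (Cent G x y) := fun i =>
      { carrier := {c | c.1 * i.1.2 = i.1.2 * c.1}
        one_mem' := by simp
        mul_mem' := by
          intro a b ha hb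
          show (a.1 * b.1) * i.1.2 = i.1.2 * (a.1 * b.1)
          have ha' : a.1 * i.1.2 = i.1.2 * a.1 := ha
          have hb' : b.1 * i.1.2 = i.1.2 * b.1 := hb
          rw [mul_assoc, hb', ← mul_assoc, ha', mul_assoc]
        inv_mem' := by
          intro a ha
          have ha' : a.1 * i.1.2 = i.1.2 * a.1 := ha
          show a.1⁻¹ * i.1.2 = i.1.2 * a.1⁻¹
          calc a.1⁻¹ * i.1.2 = a.1⁻¹ * (i.1.2 * a.1) * a.1⁻¹ := by group
            _ = a.1⁻¹ * (a.1 * i.1.2) * a.1⁻¹ := by rw [ha']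
            _ = i.1.2 * a.1⁻¹ := by group }
    have hcov : ∀ n : Cent G x y, n ∈ S ∨ ∃ i : I, (⟨m i, hmC i⟩ : Cent G x y)⁻¹ * n ∈ H i := by
      intro n
      by_cases hn : n ∈ S
      · exact Or.inl hn
      · right
        have key : ∀ g ∈ G, (g x = x ∨ g y = y) → ¬ (g x = x ∧ g y = y) → g (n.1 z0) = n.1 z0 →
            ∃ i : I, (⟨m i, hmC i⟩ : Cent G x y)⁻¹ * n ∈ H i := by
          intro g hg h1 h2 h3
          let i : I := ⟨(g, n.1⁻¹ * g * n.1), hg, h1, h2,
            G.mul_mem (G.mul_mem (G.inv_mem n.2.1) hg) n.2.1, by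
              show (n.1⁻¹ * g * n.1) z0 = z0
              rw [Equiv.Perm.mul_apply, Equiv.Perm.mul_apply, Equiv.Perm.inv_eq_iff_eq, h3],
            n.1, n.2, rfl⟩
          refine ⟨i, ?_⟩
          have h4 : (m i)⁻¹ * g * m i = n.1⁻¹ * g * n.1 := hm i
          show ((m i)⁻¹ * n.1) * (n.1⁻¹ * g * n.1) = (n.1⁻¹ * g * n.1) * ((m i)⁻¹ * n.1)
          calc ((m i)⁻¹ * n.1) * (n.1⁻¹ * g * n.1) = ((m i)⁻¹ * g * m i) * (m i)⁻¹ * n.1 := by
                group
            _ = (n.1⁻¹ * g * n.1) * ((m i)⁻¹ * n.1) := by rw [h4]; group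
        have hn' : ¬ Rigid G x y (n.1 z0) := hn
        unfold Rigid at hn'
        push Not at hn'
        obtain ⟨g, hg, hbad⟩ := hn'
        have hcase1 : g x = x → g y = y → g (n.1 z0) = n.1 z0 := by
          intro h1 h2
          have h3 := n.2.2 g hg h1 h2
          have h4 : g z0 = z0 := (hr g hg).1 h1 h2
          calc g (n.1 z0) = (g * n.1) z0 := rfl
            _ = (n.1 * g) z0 := by rw [h3]
            _ = n.1 z0 := by rw [Equiv.Perm.mul_apply, h4]
        by_cases hA : g x = x → g (n.1 z0) = n.1 z0 → g y = y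
        · obtain ⟨h1, h2, h3⟩ := hbad hcase1 hA
          exact key g hg (Or.inr h1) (fun h => h3 h.1) h2
        · push Not at hA
          obtain ⟨h1, h2, h3⟩ := hA
          exact key g hg (Or.inl h1) (fun h => h3 h.2) h2
    have hfinal := neumann_card H (fun i => ⟨m i, hmC i⟩) S hcov (lt_of_lt_of_le hcon hC) 1
    obtain ⟨i, hi⟩ := hfinal
    have hi' : ((m i)⁻¹ * 1) * i.1.2 = i.1.2 * ((m i)⁻¹ * 1) := hi
    rw [mul_one] at hi'
    have h5 := hm i
    have h6 : i.1.1 = i.1.2 := by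
      calc i.1.1 = m i * ((m i)⁻¹ * i.1.1 * m i) * (m i)⁻¹ := by group
        _ = m i * (i.1.2 * (m i)⁻¹) := by rw [h5, mul_assoc]
        _ = m i * ((m i)⁻¹ * i.1.2) := by rw [hi']
        _ = i.1.2 := by group
    obtain ⟨g1, g2, g3, g4, g5, -⟩ := i.2
    rw [← h6] at g5
    apply g3
    rcases g2 with g2 | g2
    · exact ⟨g2, (hr _ g1).2.1 g2 g5⟩
    · exact ⟨(hr _ g1).2.2 g2 g5, g2⟩
  -- from `S` to the completions
  by_contra hcon
  rw [not_le] at hcon
  have := hfin z0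
  choose q hq using fun (z : {z // Rigid G x y z}) => ht z0 z.1
  let ψ : S → {z // Rigid G x y z} × Stab G z0 := fun n =>
    (⟨n.1.1 z0, n.2⟩, ⟨(q ⟨n.1.1 z0, n.2⟩)⁻¹ * n.1.1,
      G.mul_mem (G.inv_mem (hq _).1) n.1.2.1, by
        rw [Equiv.Perm.mul_apply, Equiv.Perm.inv_eq_iff_eq, (hq _).2]⟩)
  have hψ : Function.Injective ψ := by
    intro a b h
    have h1 : (⟨a.1.1 z0, a.2⟩ : {z // Rigid G x y z}) = ⟨b.1.1 z0, b.2⟩ := congrArg Prod.fst h
    have h2 : (q ⟨a.1.1 z0, a.2⟩)⁻¹ * a.1.1 = (q ⟨b.1.1 z0, b.2⟩)⁻¹ * b.1.1 :=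
      congrArg (fun s : Stab G z0 => s.1) (congrArg Prod.snd h)
    rw [h1] at h2
    exact Subtype.ext (Subtype.ext (mul_left_cancel h2))
  have hle : #S ≤ #{z // Rigid G x y z} * #(Stab G z0) := by
    have := mk_le_of_injective hψ
    rw [mk_prod, lift_id, lift_id] at this
    exact this
  have hlt : #{z // Rigid G x y z} * #(Stab G z0) < μ :=
    mul_lt_of_lt hμ hcon (lt_of_lt_of_le (lt_aleph0_of_finite _) hμ)
  exact absurd (hScard.trans hle) (not_le.2 hlt)

/-- The local problem on an infinite fixed point set is solvable as soon as every pair has a rigid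
completion. -/
theorem local_infinite (ht : Transitive G) (hfin : ∀ x, Finite (Stab G x)) {F : Set Ω}
    (hF : F.Infinite) (hrig : ∀ x y, FixPair G x y = F → ∃ z, Rigid G x y z) :
    ∃ T, LocalLatin G F T := by
  classical
  have : Infinite F := hF.to_subtype
  have hμ : ℵ₀ ≤ #F := aleph0_le_mk F
  have hD : #{p : Ω × Ω | FixPair G p.1 p.2 = F} ≤ #F := by
    have h1 : #{p : Ω × Ω | FixPair G p.1 p.2 = F} ≤ #(F × F) := by
      refine mk_le_of_injective (f := fun p : {p : Ω × Ω | FixPair G p.1 p.2 = F} =>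
        ((⟨p.1.1, (show FixPair G p.1.1 p.1.2 = F from p.2).subset (left_mem_fixPair _ _)⟩,
          ⟨p.1.2, (show FixPair G p.1.1 p.1.2 = F from p.2).subset (right_mem_fixPair _ _)⟩)
            : F × F)) ?_
      intro p q h
      have e1 : p.1.1 = q.1.1 := congrArg (fun s : F × F => s.1.1) h
      have e2 : p.1.2 = q.1.2 := congrArg (fun s : F × F => s.2.1) h
      exact Subtype.ext (Prod.ext e1 e2)
    refine h1.trans ?_
    simp only [mk_prod, lift_id]
    exact (mul_eq_self hμ).le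
  have hsmall : ∀ x, #(Stab (setStab G F) x) < #F := by
    intro x
    have hx := hfin x
    have h1 : #(Stab (setStab G F) x) ≤ #(Stab G x) := by
      refine mk_le_of_injective (f := fun s : Stab (setStab G F) x =>
        (⟨s.1, s.2.1.1, s.2.2⟩ : Stab G x)) ?_
      intro a b h
      apply Subtype.ext
      exact congrArg (fun s : Stab G x => s.1) h
    exact lt_of_le_of_lt h1 (lt_of_lt_of_le (lt_aleph0_of_finite _) hμ)
  obtain ⟨R, hR1, hR2⟩ := exists_system_mu (G := setStab G F)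
    (D := {p | FixPair G p.1 p.2 = F}) hμ hD hsmall (by
      intro x y hxy
      have hxy' : FixPair G x y = F := hxy
      obtain ⟨z0, hz0⟩ := hrig x y hxy'
      have h1 := completions_card_mu hμ ht hfin (by rw [hxy']) hz0
      refine h1.trans ?_
      refine mk_le_of_injective (f := fun z : {z // Rigid G x y z} =>
        (⟨z.1, (rigid_fixPair z.2).2.trans hxy',
          (by
            show FixPair G z.1 x = F
            rw [fixPair_symm]
            exact (rigid_fixPair z.2).1.trans hxy'), fun g hg => z.2 g hg.1⟩ :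
          {z // (y, z) ∈ {p : Ω × Ω | FixPair G p.1 p.2 = F} ∧
            (z, x) ∈ {p : Ω × Ω | FixPair G p.1 p.2 = F} ∧ Rigid (setStab G F) x y z})) ?_
      intro a b h
      apply Subtype.ext
      exact congrArg (fun s : {z // (y, z) ∈ {p : Ω × Ω | FixPair G p.1 p.2 = F} ∧
            (z, x) ∈ {p : Ω × Ω | FixPair G p.1 p.2 = F} ∧ Rigid (setStab G F) x y z} => s.1) h)
  exact local_of_system hR1 hR2

lemma image_inv_eq {F F' : Set Ω} {g : Equiv.Perm Ω} (h : g '' F = F') :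
    (g⁻¹ : Equiv.Perm Ω) '' F' = F := by
  rw [← h, ← Set.image_comp, ← Equiv.Perm.coe_mul, inv_mul_cancel]
  simp

/-- Pairs whose fixed point sets are `G`-translates of each other. -/
def classSetoid (G : Subgroup (Equiv.Perm Ω)) : Setoid (Ω × Ω) where
  r p q := ∃ g ∈ G, g '' FixPair G p.1 p.2 = FixPair G q.1 q.2
  iseqv := by
    refine ⟨fun p => ⟨1, G.one_mem, by simp⟩, ?_, ?_⟩
    · rintro p q ⟨g, hg, h⟩
      exact ⟨g⁻¹, G.inv_mem hg, image_inv_eq h⟩
    · rintro p q r ⟨g, hg, h⟩ ⟨k, hk, h'⟩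
      exact ⟨k * g, G.mul_mem hk hg, by
        rw [Equiv.Perm.coe_mul, Set.image_comp, h, h']⟩

lemma glue_role (P : Quotient (classSetoid G) → Ω → Ω → Ω → Prop)
    (h1 : ∀ q, ∀ g ∈ G, g '' FixPair G q.out.1 q.out.2 = FixPair G q.out.1 q.out.2 →
      ∀ a b c, P q a b c → P q (g a) (g b) (g c))
    (h2 : ∀ q a b c, P q a b c → FixPair G a b = FixPair G q.out.1 q.out.2)
    (h3 : ∀ q a b, FixPair G a b = FixPair G q.out.1 q.out.2 → ∃! c, P q a b c) (x y : Ω) :
    ∃! z, ∃ q, ∃ g ∈ G, ∃ a b c, P q a b c ∧ g a = x ∧ g b = y ∧ g c = z := by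
  let q : Quotient (classSetoid G) := Quotient.mk _ (x, y)
  obtain ⟨g, hg, hgF⟩ : (classSetoid G).r q.out (x, y) := Quotient.exact (Quotient.out_eq q)
  have hab : FixPair G (g⁻¹ x) (g⁻¹ y) = FixPair G q.out.1 q.out.2 := by
    rw [fixPair_image x y (G.inv_mem hg)]
    exact image_inv_eq hgF
  obtain ⟨c, hc, -⟩ := h3 q _ _ hab
  have main : ∀ q1 q2 : Quotient (classSetoid G), ∀ g1 ∈ G, ∀ g2 ∈ G, ∀ a1 b1 c1 a2 b2 c2,
      P q1 a1 b1 c1 → P q2 a2 b2 c2 → g1 a1 = x → g1 b1 = y → g2 a2 = x → g2 b2 = y →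
      g1 c1 = g2 c2 := by
    intro q1 q2 g1 hg1 g2 hg2 a1 b1 c1 a2 b2 c2 hP1 hP2 e1 e2 f1 f2
    have i1 : g1 '' FixPair G q1.out.1 q1.out.2 = FixPair G x y := by
      rw [← h2 q1 _ _ _ hP1, ← fixPair_image _ _ hg1, e1, e2]
    have i2 : g2 '' FixPair G q2.out.1 q2.out.2 = FixPair G x y := by
      rw [← h2 q2 _ _ _ hP2, ← fixPair_image _ _ hg2, f1, f2]
    have hh : g2⁻¹ * g1 ∈ G := G.mul_mem (G.inv_mem hg2) hg1
    have i3 : (g2⁻¹ * g1 : Equiv.Perm Ω) '' FixPair G q1.out.1 q1.out.2 =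
        FixPair G q2.out.1 q2.out.2 := by
      rw [Equiv.Perm.coe_mul, Set.image_comp, i1]
      exact image_inv_eq i2
    have hq : q1 = q2 := by
      rw [← Quotient.out_eq q1, ← Quotient.out_eq q2]
      exact Quotient.sound ⟨_, hh, i3⟩
    subst hq
    have h4 := h1 q1 _ hh i3 _ _ _ hP1
    have j1 : (g2⁻¹ * g1) a1 = a2 := by
      rw [Equiv.Perm.mul_apply, Equiv.Perm.inv_eq_iff_eq, e1, f1]
    have j2 : (g2⁻¹ * g1) b1 = b2 := by
      rw [Equiv.Perm.mul_apply, Equiv.Perm.inv_eq_iff_eq, e2, f2]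
    rw [j1, j2] at h4
    have h5 := (h3 q1 a2 b2 (h2 q1 _ _ _ hP2)).unique h4 hP2
    rw [Equiv.Perm.mul_apply, Equiv.Perm.inv_eq_iff_eq] at h5
    exact h5
  refine ⟨g c, ⟨q, g, hg, _, _, c, hc, by simp, by simp, rfl⟩, ?_⟩
  rintro z ⟨q2, g2, hg2, a2, b2, c2, hP2, f1, f2, rfl⟩
  exact main q2 q g2 hg2 g hg a2 b2 c2 _ _ c hP2 hc f1 f2 (by simp) (by simp)

/-- Realisability is a local problem on the fixed point sets of two-point stabilisers. -/
theorem realisable_iff_local : Realisable G ↔ ∀ x y, ∃ T, LocalLatin G (FixPair G x y) T := by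
  classical
  constructor
  · rintro ⟨op, hq, hG⟩ x0 y0
    set F := FixPair G x0 y0 with hF
    refine ⟨{s | FixPair G s.1 s.2.1 = F ∧ s.2.2 = op s.1 s.2.1}, ?_, ?_, ?_, ?_, ?_⟩
    · rintro g hg hgF x y z ⟨h1, h2⟩
      simp only at h1 h2
      refine ⟨?_, ?_⟩
      · show FixPair G (g x) (g y) = F
        rw [fixPair_image x y hg, h1, hgF]
      · show g z = op (g x) (g y)
        rw [h2, hG g hg]
    · rintro x y z ⟨h1, h2⟩
      simp only at h1 h2
      subst h2
      have hr := rigid_fixPair (rigid_of_op hq hG x y)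
      exact ⟨h1, hr.1.trans h1, hr.2.trans h1⟩
    · intro x y hxy
      exact ⟨op x y, ⟨hxy, rfl⟩, fun z hz => hz.2⟩
    · intro x z hxz
      obtain ⟨y, hy, hu⟩ := hq.1 x z
      have hr := rigid_fixPair (rigid_of_op hq hG x y)
      rw [hy] at hr
      exact ⟨y, ⟨hr.1.symm.trans hxz, hy.symm⟩, fun y' hy' => hu y' hy'.2.symm⟩
    · intro y z hyz
      obtain ⟨x, hx, hu⟩ := hq.2 y z
      have hr := rigid_fixPair (rigid_of_op hq hG x y)
      rw [hx] at hr
      exact ⟨x, ⟨hr.2.symm.trans hyz, hx.symm⟩, fun x' hx' => hu x' hx'.2.symm⟩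
  · intro hloc
    choose T hT using fun q : Quotient (classSetoid G) => hloc q.out.1 q.out.2
    let S : Ω → Ω → Ω → Prop := fun x y z => ∃ q, ∃ g ∈ G, ∃ a b c, (a, b, c) ∈ T q ∧
      g a = x ∧ g b = y ∧ g c = z
    have S1 : ∀ x y, ∃! z, S x y z := by
      intro x y
      exact glue_role (fun q a b c => (a, b, c) ∈ T q)
        (fun q g hg hgF a b c h => (hT q).1 g hg hgF a b c h)
        (fun q a b c h => ((hT q).2.1 a b c h).1) (fun q a b h => (hT q).2.2.1 a b h) x y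
    have S2 : ∀ x z, ∃! y, S x y z := by
      intro x z
      obtain ⟨y, ⟨q, g, hg, a, c, b, h1, h2, h3, h4⟩, hu⟩ :=
        glue_role (fun q a c b => (a, b, c) ∈ T q)
          (fun q g hg hgF a c b h => (hT q).1 g hg hgF a b c h)
          (fun q a c b h => ((hT q).2.1 a b c h).2.1) (fun q a c h => (hT q).2.2.2.1 a c h) x z
      refine ⟨y, ⟨q, g, hg, a, b, c, h1, h2, h4, h3⟩, ?_⟩
      rintro w ⟨q', g', hg', a', b', c', k1, k2, k3, k4⟩
      exact hu w ⟨q', g', hg', a', c', b', k1, k2, k4, k3⟩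
    have S3 : ∀ y z, ∃! x, S x y z := by
      intro y z
      obtain ⟨x, ⟨q, g, hg, b, c, a, h1, h2, h3, h4⟩, hu⟩ :=
        glue_role (fun q b c a => (a, b, c) ∈ T q)
          (fun q g hg hgF b c a h => (hT q).1 g hg hgF a b c h)
          (fun q b c a h => ((hT q).2.1 a b c h).2.2) (fun q b c h => (hT q).2.2.2.2 b c h) y z
      refine ⟨x, ⟨q, g, hg, a, b, c, h1, h4, h2, h3⟩, ?_⟩
      rintro w ⟨q', g', hg', a', b', c', k1, k2, k3, k4⟩
      exact hu w ⟨q', g', hg', b', c', a', k1, k3, k4, k2⟩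
    have Sinv : ∀ k ∈ G, ∀ x y z, S x y z → S (k x) (k y) (k z) := by
      rintro k hk x y z ⟨q, g, hg, a, b, c, h1, h2, h3, h4⟩
      refine ⟨q, k * g, G.mul_mem hk hg, a, b, c, h1, ?_, ?_, ?_⟩
      · rw [Equiv.Perm.mul_apply, h2]
      · rw [Equiv.Perm.mul_apply, h3]
      · rw [Equiv.Perm.mul_apply, h4]
    choose op hop hopu using S1
    refine ⟨op, ⟨?_, ?_⟩, ?_⟩
    · intro a b
      obtain ⟨y, hy, hu⟩ := S2 a b
      refine ⟨y, (hopu a y b hy).symm, ?_⟩
      intro y' hy'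
      apply hu
      have := hop a y'
      rwa [hy'] at this
    · intro a b
      obtain ⟨x, hx, hu⟩ := S3 a b
      refine ⟨x, (hopu x a b hx).symm, ?_⟩
      intro x' hx'
      apply hu
      have := hop x' a
      rwa [hx'] at this
    · intro k hk x y
      exact hopu _ _ _ (Sinv k hk _ _ _ (hop x y))

/-- Groups with finite point stabilisers: only finite local problems remain. -/
theorem finite_stab_iff (ht : Transitive G) (hfin : ∀ x, Finite (Stab G x)) :
    Realisable G ↔ ∀ x y, ((FixPair G x y).Infinite → ∃ z, Rigid G x y z) ∧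
      ((FixPair G x y).Finite → ∃ T, LocalLatin G (FixPair G x y) T) := by
  constructor
  · intro hR x y
    refine ⟨fun _ => ?_, fun _ => realisable_iff_local.1 hR x y⟩
    obtain ⟨op, hq, hG⟩ := hR
    exact ⟨op x y, rigid_of_op hq hG x y⟩
  · intro h
    rw [realisable_iff_local]
    intro x y
    by_cases hF : (FixPair G x y).Finite
    · exact (h x y).2 hF
    · refine local_infinite ht hfin hF ?_
      intro x' y' hxy
      exact (h x' y').1 (by rw [hxy]; exact hF)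

end Pool.Agent.QGP776
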