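import Pool.Agent.QGP776.Regular

set_option autoImplicit false
set_option linter.unusedSimpArgs false

namespace Pool.Agent.QGP776

universe u v

variable {Ω : Type u} {G : Subgroup (Equiv.Perm Ω)}

lemma Rigid.swap12 {x y z : Ω} (h : Rigid G x y z) : Rigid G y x z := by
  intro g hg
  exact ⟨fun h1 h2 => (h g hg).1 h2 h1, fun h1 h2 => (h g hg).2.2 h1 h2,
    fun h1 h2 => (h g hg).2.1 h1 h2⟩

lemma Rigid.swap23 {x y z : Ω} (h : Rigid G x y z) : Rigid G x z y := by
  intro g hg
  exact ⟨fun h1 h2 => (h g hg).2.1 h1 h2, fun h1 h2 => (h g hg).1 h1 h2,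
    fun h1 h2 => (h g hg).2.2 h2 h1⟩

/-- Two triples of opposite orientation in every role solve the pairs in `D`. -/
lemma solves_two {D : Set (Ω × Ω)} (o : Ω → Ω → Prop)
    (hinv : ∀ g ∈ G, ∀ a b, o a b → o (g a) (g b))
    (htr : ∀ a b a' b', (a, b) ∈ D → (a', b') ∈ D → (o a b ↔ o a' b') →
      ∃ g ∈ G, g a = a' ∧ g b = b')
    {x y z x' y' z' : Ω} (hr : Rigid G x y z) (hr' : Rigid G x' y' z')
    (h12 : (x, y) ∈ D) (h13 : (x, z) ∈ D) (h23 : (y, z) ∈ D)
    (h12' : (x', y') ∈ D) (h13' : (x', z') ∈ D) (h23' : (y', z') ∈ D)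
    (o12 : o x' y' ↔ ¬ o x y) (o13 : o x' z' ↔ ¬ o x z) (o23 : o y' z' ↔ ¬ o y z) :
    Solves G D {(x, y, z), (x', y', z')} := by
  classical
  have hinv' : ∀ g ∈ G, ∀ a b, o (g a) (g b) ↔ o a b := by
    intro g hg a b
    refine ⟨fun h => ?_, hinv g hg a b⟩
    have := hinv g⁻¹ (G.inv_mem hg) _ _ h
    simpa using this
  have role : ∀ (U V : Ω × Ω × Ω → Ω), (U (x, y, z), V (x, y, z)) ∈ D →
      (U (x', y', z'), V (x', y', z')) ∈ D →
      (o (U (x', y', z')) (V (x', y', z')) ↔ ¬ o (U (x, y, z)) (V (x, y, z))) →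
      ∀ a b, (a, b) ∈ D → ∃! t, t ∈ ({(x, y, z), (x', y', z')} : Set (Ω × Ω × Ω)) ∧
        ∃ g ∈ G, g (U t) = a ∧ g (V t) = b := by
    intro U V m m' hneg a b hab
    by_cases hc : o a b ↔ o (U (x, y, z)) (V (x, y, z))
    · obtain ⟨g, hg, e1, e2⟩ := htr _ _ a b m hab hc.symm
      refine ⟨(x, y, z), ⟨Or.inl rfl, g, hg, e1, e2⟩, ?_⟩
      rintro t ⟨rfl | ht, k, hk, f1, f2⟩
      · rfl
      · exfalso
        have ht' : t = (x', y', z') := ht
        subst ht'
        have := hinv' k hk (U (x', y', z')) (V (x', y', z'))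
        rw [f1, f2] at this
        tauto
    · have hc' : o a b ↔ o (U (x', y', z')) (V (x', y', z')) := by tauto
      obtain ⟨g, hg, e1, e2⟩ := htr _ _ a b m' hab hc'.symm
      refine ⟨(x', y', z'), ⟨Or.inr rfl, g, hg, e1, e2⟩, ?_⟩
      rintro t ⟨rfl | ht, k, hk, f1, f2⟩
      · exfalso
        have := hinv' k hk (U (x, y, z)) (V (x, y, z))
        rw [f1, f2] at this
        tauto
      · exact ht
  refine ⟨?_, ?_, ?_, ?_, ?_, ?_, ?_⟩
  · rintro t (rfl | ht)
    · exact hr
    · have ht' : t = (x', y', z') := ht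
      subst ht'; exact hr'
  · rintro t (rfl | ht)
    · exact h12
    · have ht' : t = (x', y', z') := ht
      subst ht'; exact h12'
  · rintro t (rfl | ht)
    · exact h13
    · have ht' : t = (x', y', z') := ht
      subst ht'; exact h13'
  · rintro t (rfl | ht)
    · exact h23
    · have ht' : t = (x', y', z') := ht
      subst ht'; exact h23'
  · exact role (fun t => t.1) (fun t => t.2.1) h12 h12' o12
  · exact role (fun t => t.1) (fun t => t.2.2) h13 h13' o13
  · exact role (fun t => t.2.1) (fun t => t.2.2) h23 h23' o23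

/-- A rigid triple solves the pairs in `D` when `G` has exactly two orbits on `D`, swapped by
reversal. -/
lemma solves_oriented {D : Set (Ω × Ω)} (o : Ω → Ω → Prop)
    (hinv : ∀ g ∈ G, ∀ a b, o a b → o (g a) (g b))
    (htr : ∀ a b a' b', (a, b) ∈ D → (a', b') ∈ D → (o a b ↔ o a' b') →
      ∃ g ∈ G, g a = a' ∧ g b = b')
    (hsymm : ∀ a b, (a, b) ∈ D → (b, a) ∈ D) (hflip : ∀ a b, (a, b) ∈ D → (o b a ↔ ¬ o a b))
    {x y z : Ω} (h4 : Rigid G x y z) (h1 : (x, y) ∈ D) (h2 : (x, z) ∈ D) (h3 : (y, z) ∈ D) :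
    ∃ R1, Solves G D R1 := by
  classical
  have h1' := hsymm _ _ h1
  have h2' := hsymm _ _ h2
  have h3' := hsymm _ _ h3
  have f12 := hflip x y h1
  have f13 := hflip x z h2
  have f23 := hflip y z h3
  by_cases c12 : o x y <;> by_cases c13 : o x z <;> by_cases c23 : o y z
  · -- x → y → z, x → z
    exact ⟨_, solves_two o hinv htr h4 h4.rot.swap12 h1 h2 h3 h3' h2' h1'
      (by simp only [f12, f13, f23, c12, c13, c23]) (by simp only [f12, f13, f23, c12, c13, c23])
      (by simp only [f12, f13, f23, c12, c13, c23])⟩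
  · -- x → z → y
    exact ⟨_, solves_two o hinv htr h4.swap23 h4.rot h2 h1 h3' h3 h1' h2'
      (by simp only [f12, f13, f23, c12, c13, c23, not_true, not_false_iff, iff_true, iff_false])
      (by simp only [f12, f13, f23, c12, c13, c23, not_true, not_false_iff, iff_true, iff_false])
      (by simp only [f12, f13, f23, c12, c13, c23, not_true, not_false_iff, iff_true, iff_false])⟩
  · -- x → y → z → x
    exact ⟨_, solves_two o hinv htr h4 h4.swap12 h1 h2 h3 h1' h3 h2
      (by simp only [f12, f13, f23, c12, c13, c23, not_true, not_false_iff, iff_true, iff_false])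
      (by simp only [f12, f13, f23, c12, c13, c23, not_true, not_false_iff, iff_true, iff_false])
      (by simp only [f12, f13, f23, c12, c13, c23, not_true, not_false_iff, iff_true, iff_false])⟩
  · -- z → x → y
    exact ⟨_, solves_two o hinv htr h4.rot.rot h4.swap12 h2' h3' h1 h1' h3 h2
      (by simp only [f12, f13, f23, c12, c13, c23, not_true, not_false_iff, iff_true, iff_false])
      (by simp only [f12, f13, f23, c12, c13, c23, not_true, not_false_iff, iff_true, iff_false])
      (by simp only [f12, f13, f23, c12, c13, c23, not_true, not_false_iff, iff_true, iff_false])⟩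
  · -- y → x → z
    exact ⟨_, solves_two o hinv htr h4.swap12 h4.rot.rot h1' h3 h2 h2' h3' h1
      (by simp only [f12, f13, f23, c12, c13, c23, not_true, not_false_iff, iff_true, iff_false])
      (by simp only [f12, f13, f23, c12, c13, c23, not_true, not_false_iff, iff_true, iff_false])
      (by simp only [f12, f13, f23, c12, c13, c23, not_true, not_false_iff, iff_true, iff_false])⟩
  · -- y → x, x → z, z → y
    exact ⟨_, solves_two o hinv htr h4 h4.swap12 h1 h2 h3 h1' h3 h2
      (by simp only [f12, f13, f23, c12, c13, c23, not_true, not_false_iff, iff_true, iff_false])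
      (by simp only [f12, f13, f23, c12, c13, c23, not_true, not_false_iff, iff_true, iff_false])
      (by simp only [f12, f13, f23, c12, c13, c23, not_true, not_false_iff, iff_true, iff_false])⟩
  · -- y → z → x
    exact ⟨_, solves_two o hinv htr h4.rot h4.swap23 h3 h1' h2' h2 h1 h3'
      (by simp only [f12, f13, f23, c12, c13, c23, not_true, not_false_iff, iff_true, iff_false])
      (by simp only [f12, f13, f23, c12, c13, c23, not_true, not_false_iff, iff_true, iff_false])
      (by simp only [f12, f13, f23, c12, c13, c23, not_true, not_false_iff, iff_true, iff_false])⟩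
  · -- z → y → x
    exact ⟨_, solves_two o hinv htr h4 h4.rot.swap12 h1 h2 h3 h3' h2' h1'
      (by simp only [f12, f13, f23, c12, c13, c23, not_true, not_false_iff, iff_true, iff_false])
      (by simp only [f12, f13, f23, c12, c13, c23, not_true, not_false_iff, iff_true, iff_false])
      (by simp only [f12, f13, f23, c12, c13, c23, not_true, not_false_iff, iff_true, iff_false])⟩

/-- The criterion when `G` is transitive on the unordered pairs `{x, y}` with `y` not fixed by
`G_x`. -/
theorem homogeneous_iff (hB : FixSymm G) (ht : Transitive G) (ω : Ω)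
    (hT : ∀ x y x' y', y ∉ FixPt G x → y' ∉ FixPt G x' →
      ∃ g ∈ G, (g x = x' ∧ g y = y') ∨ (g x = y' ∧ g y = x')) :
    Realisable G ↔ Realisable (induced G (FixPt G ω)) ∧
      (FixPt G ω = Set.univ ∨ ∃ x y z, y ∉ FixPt G x ∧ z ∉ FixPt G x ∧ z ∉ FixPt G y ∧
        Rigid G x y z) := by
  classical
  constructor
  · intro hR
    refine ⟨realisable_induced hR ω, ?_⟩
    by_cases hF : FixPt G ω = Set.univ
    · exact Or.inl hF
    · right
      obtain ⟨y, hy⟩ := (Set.ne_univ_iff_exists_notMem _).1 hF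
      obtain ⟨op, hq, hG⟩ := hR
      have h1 := op_outside hB hq hG hy
      exact ⟨ω, y, op ω y, hy, h1.1, h1.2, rigid_of_op hq hG _ _⟩
  · rintro ⟨hF, hF2⟩
    by_cases hord : ∀ x y x' y', y ∉ FixPt G x → y' ∉ FixPt G x' → ∃ g ∈ G, g x = x' ∧ g y = y'
    · exact (one_moved_orbit hB ht ω hord).2 ⟨hF, hF2⟩
    · push Not at hord
      obtain ⟨p, q, p', q', hpq, hpq', hno⟩ := hord
      rcases hF2 with hF2 | ⟨x, y, z, h1, h2, h3, h4⟩
      · exfalso
        apply hpq
        obtain ⟨k, hk, hkx⟩ := ht ω p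
        have : k⁻¹ q ∈ FixPt G ω := by rw [hF2]; trivial
        have := fixPt_map this hk
        rw [hkx] at this
        simpa using this
      · -- the orientation
        set o : Ω → Ω → Prop := fun a b => ∃ g ∈ G, g p = a ∧ g q = b with ho
        have hsymm : ∀ a b, b ∉ FixPt G a → a ∉ FixPt G b := fun a b h h' => h (hB _ _ h')
        have hinv : ∀ g ∈ G, ∀ a b, o a b → o (g a) (g b) := by
          rintro g hg a b ⟨k, hk, rfl, rfl⟩
          exact ⟨g * k, G.mul_mem hg hk, rfl, rfl⟩
        -- every pair is oriented in exactly one direction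
        have hor : ∀ a b, b ∉ FixPt G a → o a b ∨ o b a := by
          intro a b hab
          obtain ⟨g, hg, ⟨e1, e2⟩ | ⟨e1, e2⟩⟩ := hT p q a b hpq hab
          · exact Or.inl ⟨g, hg, e1, e2⟩
          · exact Or.inr ⟨g, hg, e1, e2⟩
        have hnot : ∀ a b, o a b → ¬ o b a := by
          rintro a b ⟨g, hg, rfl, rfl⟩ ⟨k, hk, e1, e2⟩
          -- `g⁻¹ k` swaps `p` and `q`
          have s1 : (g⁻¹ * k) p = q := by
            rw [Equiv.Perm.mul_apply, Equiv.Perm.inv_eq_iff_eq, e1]
          have s2 : (g⁻¹ * k) q = p := by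
            rw [Equiv.Perm.mul_apply, Equiv.Perm.inv_eq_iff_eq, e2]
          obtain ⟨l, hl, ⟨f1, f2⟩ | ⟨f1, f2⟩⟩ := hT p q p' q' hpq hpq'
          · exact hno l hl f1 f2
          · refine hno (l * (g⁻¹ * k)) (G.mul_mem hl (G.mul_mem (G.inv_mem hg) hk)) ?_ ?_
            · rw [Equiv.Perm.mul_apply, s1, f2]
            · rw [Equiv.Perm.mul_apply, s2, f1]
        have hflip : ∀ a b, b ∉ FixPt G a → (o b a ↔ ¬ o a b) := fun a b hab =>
          ⟨fun h h' => hnot _ _ h h', fun h => (hor a b hab).resolve_left h⟩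
        have htr : ∀ a b a' b', (a, b) ∈ {r : Ω × Ω | r.2 ∉ FixPt G r.1} →
            (a', b') ∈ {r : Ω × Ω | r.2 ∉ FixPt G r.1} → (o a b ↔ o a' b') →
            ∃ g ∈ G, g a = a' ∧ g b = b' := by
          intro a b a' b' hab hab' hiff
          have hab1 : b ∉ FixPt G a := hab
          have hab2 : b' ∉ FixPt G a' := hab'
          by_cases hc : o a b
          · obtain ⟨g, hg, rfl, rfl⟩ := hc
            obtain ⟨k, hk, rfl, rfl⟩ := hiff.1 ⟨g, hg, rfl, rfl⟩
            exact ⟨k * g⁻¹, G.mul_mem hk (G.inv_mem hg), by simp, by simp⟩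
          · obtain ⟨g, hg, rfl, rfl⟩ := (hor a b hab1).resolve_left hc
            obtain ⟨k, hk, rfl, rfl⟩ := (hor a' b' hab2).resolve_left (fun h => hc (hiff.2 h))
            exact ⟨k * g⁻¹, G.mul_mem hk (G.inv_mem hg), by simp, by simp⟩
        obtain ⟨R0, hR0⟩ := solves_blocks hB ht ω hF
        have hinv0 : ∀ g ∈ G, ∀ x y : Ω, (x, y) ∈ {p : Ω × Ω | p.2 ∈ FixPt G p.1} →
            (g x, g y) ∈ {p : Ω × Ω | p.2 ∈ FixPt G p.1} := by
          intro g hg x y h
          exact fixPt_map h hg
        have hinv1 : ∀ g ∈ G, ∀ x y : Ω, (x, y) ∈ {p : Ω × Ω | p.2 ∉ FixPt G p.1} →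
            (g x, g y) ∈ {p : Ω × Ω | p.2 ∉ FixPt G p.1} := by
          intro g hg x y h h'
          apply h
          have := fixPt_map h' (G.inv_mem hg)
          simpa using this
        have hsol : ∃ R1, Solves G {p | p.2 ∉ FixPt G p.1} R1 :=
          solves_oriented o hinv htr (fun a b h => hsymm a b h) (fun a b h => hflip a b h)
            h4 h1 h2 h3
        obtain ⟨R1, hR1⟩ := hsol
        exact realisable_of_union hR0 hR1 hinv0 hinv1 (fun p => em _) (fun p h h' => h' h)

end Pool.Agent.QGP776
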