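import Pool.Agent.QGP776.Completions

set_option autoImplicit false

namespace Pool.Agent.QGP776

universe u v

open Cardinal

variable {Ω : Type u} {G : Subgroup (Equiv.Perm Ω)}

/-- Conjugation identifies point stabilisers. -/
def stabEquiv {x w : Ω} (k : Equiv.Perm Ω) (hk : k ∈ G) (hkx : k x = w) :
    Stab G x ≃ Stab G w where
  toFun g := ⟨k * g.1 * k⁻¹, G.mul_mem (G.mul_mem hk g.2.1) (G.inv_mem hk), by
    rw [Equiv.Perm.mul_apply, Equiv.Perm.mul_apply, show k⁻¹ w = x by
      rw [Equiv.Perm.inv_eq_iff_eq, hkx], g.2.2, hkx]⟩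
  invFun g := ⟨k⁻¹ * g.1 * k, G.mul_mem (G.mul_mem (G.inv_mem hk) g.2.1) hk, by
    rw [Equiv.Perm.mul_apply, Equiv.Perm.mul_apply, Equiv.Perm.inv_eq_iff_eq, hkx, g.2.2]⟩
  left_inv g := Subtype.ext (by simp [mul_assoc])
  right_inv g := Subtype.ext (by simp [mul_assoc])

lemma fixSymm_of_finite_stab (ht : Transitive G) (hfin : ∀ x, Finite (Stab G x)) : FixSymm G := by
  classical
  intro x w hw g hg hgw
  obtain ⟨k, hk, hkx⟩ := ht x w
  have := hfin x
  have := hfin w
  let φ : Stab G x → Stab G w := fun g => ⟨g.1, g.2.1, hw g.1 g.2.1 g.2.2⟩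
  have hφ : Function.Injective φ := by
    intro a b h
    apply Subtype.ext
    exact congrArg (fun s : Stab G w => s.1) h
  have hcard : Nat.card (Stab G x) = Nat.card (Stab G w) := Nat.card_congr (stabEquiv k hk hkx)
  have hbij : Function.Bijective φ := (Nat.bijective_iff_injective_and_card φ).2 ⟨hφ, hcard⟩
  obtain ⟨s, hs⟩ := hbij.2 ⟨g, hg, hgw⟩
  have h1 : s.1 = g := congrArg (fun s : Stab G w => s.1) hs
  rw [← h1]
  exact s.2.2

lemma rigid_outside (hB : FixSymm G) {x y z : Ω} (hr : Rigid G x y z) (hy : y ∉ FixPt G x) :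
    z ∉ FixPt G x ∧ z ∉ FixPt G y := by
  constructor
  · intro h3
    exact hy fun g hg hgx => (hr g hg).2.1 hgx (h3 g hg hgx)
  · intro h3
    have h4 : x ∈ FixPt G y := fun g hg hgy => (hr g hg).2.2 hgy (h3 g hg hgy)
    exact hy (hB _ _ h4)

lemma fixPair_map {x y w : Ω} (h : w ∈ FixPair G x y) {k : Equiv.Perm Ω} (hk : k ∈ G) :
    k w ∈ FixPair G (k x) (k y) := by
  intro g hg h1 h2
  have h3 := h (k⁻¹ * g * k) (G.mul_mem (G.mul_mem (G.inv_mem hk) hg) hk)
    (by rw [Equiv.Perm.mul_apply, Equiv.Perm.mul_apply, Equiv.Perm.inv_eq_iff_eq, h1])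
    (by rw [Equiv.Perm.mul_apply, Equiv.Perm.mul_apply, Equiv.Perm.inv_eq_iff_eq, h2])
  rw [Equiv.Perm.mul_apply, Equiv.Perm.mul_apply, Equiv.Perm.inv_eq_iff_eq] at h3
  exact h3

lemma fixPair_card (x y : Ω) {k : Equiv.Perm Ω} (hk : k ∈ G) :
    #(FixPair G (k x) (k y)) = #(FixPair G x y) := by
  refine mk_congr ⟨fun w => ⟨k⁻¹ w.1, ?_⟩, fun w => ⟨k w.1, fixPair_map w.2 hk⟩, ?_, ?_⟩
  · have := fixPair_map w.2 (G.inv_mem hk)
    simpa using this
  · intro w; exact Subtype.ext (by simp)
  · intro w; exact Subtype.ext (by simp)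

lemma fixPt_card (x : Ω) {k : Equiv.Perm Ω} (hk : k ∈ G) :
    #(FixPt G (k x)) = #(FixPt G x) := by
  refine mk_congr ⟨fun w => ⟨k⁻¹ w.1, ?_⟩, fun w => ⟨k w.1, fixPt_map w.2 hk⟩, ?_, ?_⟩
  · have := fixPt_map w.2 (G.inv_mem hk)
    simpa using this
  · intro w; exact Subtype.ext (by simp)
  · intro w; exact Subtype.ext (by simp)

theorem infinite_iff [Infinite Ω] (ht : Transitive G) (ω : Ω)
    (h : (Finite (Stab G ω) ∧ ∀ y, y ∉ FixPt G ω → #(FixPair G ω y) = #Ω) ∨
      (#(Stab G ω) < #Ω ∧ ∀ y, y ∉ FixPt G ω → ∀ g ∈ G, g ω = ω → g y = y → g = 1)) :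
    Realisable G ↔ (∀ y, y ∉ FixPt G ω → ∃ z, Rigid G ω y z) ∧
      ((FixPt G ω).Infinite ∨
        ∃ θ : induced G (FixPt G ω) → induced G (FixPt G ω), Function.Bijective θ ∧
          Function.Bijective (fun w => w * θ w)) := by
  classical
  -- symmetry of the block relation
  have hB : FixSymm G := by
    rcases h with ⟨h1, -⟩ | ⟨-, h2⟩
    · refine fixSymm_of_finite_stab ht fun x => ?_
      obtain ⟨k, hk, hkx⟩ := ht ω x
      exact Finite.of_equiv _ (stabEquiv k hk hkx)
    · intro x w hw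
      by_contra hxw
      obtain ⟨k, hk, hkx⟩ := ht ω w
      have h3 : k⁻¹ x ∉ FixPt G ω := by
        intro h4
        have := fixPt_map h4 hk
        rw [hkx] at this
        exact hxw (by simpa using this)
      have h5 : ∀ g ∈ G, g x = x → g = 1 := by
        intro g hg hgx
        have h6 := h2 _ h3 (k⁻¹ * g * k) (G.mul_mem (G.mul_mem (G.inv_mem hk) hg) hk)
          (by rw [Equiv.Perm.mul_apply, Equiv.Perm.mul_apply, Equiv.Perm.inv_eq_iff_eq, hkx,
            hw g hg hgx])
          (by rw [Equiv.Perm.mul_apply, Equiv.Perm.mul_apply, Equiv.Perm.inv_eq_iff_eq]; simp [hgx])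
        calc g = k * (k⁻¹ * g * k) * k⁻¹ := by group
          _ = 1 := by rw [h6]; group
      obtain ⟨l, hl, hlx⟩ := ht w x
      apply hxw
      intro g hg hgw
      have h7 := h5 (l * g * l⁻¹) (G.mul_mem (G.mul_mem hl hg) (G.inv_mem hl)) (by
        rw [Equiv.Perm.mul_apply, Equiv.Perm.mul_apply, show l⁻¹ x = w by
          rw [Equiv.Perm.inv_eq_iff_eq, hlx], hgw, hlx])
      have h8 : g = 1 := by
        calc g = l⁻¹ * (l * g * l⁻¹) * l := by group
          _ = 1 := by rw [h7]; group
      rw [h8]; rfl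
  constructor
  · intro hR
    refine ⟨fun y _ => ?_, Or.inr ((induced_iff hB ht ω).1 (realisable_induced hR ω))⟩
    obtain ⟨op, hq, hG⟩ := hR
    exact ⟨op ω y, rigid_of_op hq hG ω y⟩
  · rintro ⟨hc1, hc2⟩
    have hF : Realisable (induced G (FixPt G ω)) := by
      rcases hc2 with h1 | h1
      · exact induced_infinite hB ht ω h1
      · exact (induced_iff hB ht ω).2 h1
    obtain ⟨R0, hR0⟩ := solves_blocks hB ht ω hF
    have hinv0 : ∀ g ∈ G, ∀ x y : Ω, (x, y) ∈ {p : Ω × Ω | p.2 ∈ FixPt G p.1} →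
        (g x, g y) ∈ {p : Ω × Ω | p.2 ∈ FixPt G p.1} := by
      intro g hg x y h
      exact fixPt_map h hg
    have hinv1 : ∀ g ∈ G, ∀ x y : Ω, (x, y) ∈ {p : Ω × Ω | p.2 ∉ FixPt G p.1} →
        (g x, g y) ∈ {p : Ω × Ω | p.2 ∉ FixPt G p.1} := by
      intro g hg x y h h'
      apply h
      have := fixPt_map h' (G.inv_mem hg)
      simpa using this
    have hinf : ℵ₀ ≤ #Ω := aleph0_le_mk Ω
    have hsmall : ∀ x, #(Stab G x) < #Ω := by
      intro x
      obtain ⟨k, hk, hkx⟩ := ht ω x
      rw [← mk_congr (stabEquiv k hk hkx)]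
      rcases h with ⟨h1, -⟩ | ⟨h1, -⟩
      · exact lt_of_lt_of_le (lt_aleph0_of_finite _) hinf
      · exact h1
    have hrig : ∀ x y, y ∉ FixPt G x → ∃ z, Rigid G x y z := by
      intro x y hy
      obtain ⟨k, hk, hkx⟩ := ht ω x
      have h3 : k⁻¹ y ∉ FixPt G ω := by
        intro h4
        have := fixPt_map h4 hk
        rw [hkx] at this
        exact hy (by simpa using this)
      obtain ⟨z, hz⟩ := hc1 _ h3
      refine ⟨k z, ?_⟩
      have := hz.map hk
      rw [hkx] at this
      simpa using this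
    have hcount : ∀ x y, y ∉ FixPt G x → #Ω ≤ #{z // Rigid G x y z} := by
      intro x y hy
      obtain ⟨z0, hz0⟩ := hrig x y hy
      obtain ⟨k, hk, hkx⟩ := ht ω x
      have h3 : k⁻¹ y ∉ FixPt G ω := by
        intro h4
        have := fixPt_map h4 hk
        rw [hkx] at this
        exact hy (by simpa using this)
      rcases h with ⟨h1, h2⟩ | ⟨h1, h2⟩
      · refine completions_card ht (fun x => ?_) ?_ hz0
        · obtain ⟨k, hk, hkx⟩ := ht ω x
          exact Finite.of_equiv _ (stabEquiv k hk hkx)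
        · have h4 := fixPair_card ω (k⁻¹ y) hk
          rw [hkx, show k (k⁻¹ y) = y by simp] at h4
          rw [h4]
          exact h2 _ h3
      · have htriv : ∀ a b, b ∉ FixPt G a → ∀ g ∈ G, g a = a → g b = b → g = 1 := by
          intro a b hb g hg hga hgb
          obtain ⟨k, hk, hka⟩ := ht ω a
          have h3 : k⁻¹ b ∉ FixPt G ω := by
            intro h4
            have := fixPt_map h4 hk
            rw [hka] at this
            exact hb (by simpa using this)
          have h6 := h2 _ h3 (k⁻¹ * g * k) (G.mul_mem (G.mul_mem (G.inv_mem hk) hg) hk)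
            (by rw [Equiv.Perm.mul_apply, Equiv.Perm.mul_apply, Equiv.Perm.inv_eq_iff_eq, hka,
              hga])
            (by rw [Equiv.Perm.mul_apply, Equiv.Perm.mul_apply, Equiv.Perm.inv_eq_iff_eq]
                simp [hgb])
          calc g = k * (k⁻¹ * g * k) * k⁻¹ := by group
            _ = 1 := by rw [h6]; group
        have hall : ∀ z, z ∉ FixPt G x → z ∉ FixPt G y → Rigid G x y z := by
          intro z h4 h5 g hg
          refine ⟨fun a b => ?_, fun a b => ?_, fun a b => ?_⟩
          · rw [htriv x y hy g hg a b]; rfl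
          · rw [htriv x z h4 g hg a b]; rfl
          · rw [htriv y z h5 g hg a b]; rfl
        obtain ⟨o1, o2⟩ := rigid_outside hB hz0 hy
        by_cases hA : #(FixPt G x ∪ FixPt G y : Set Ω) < #Ω
        · have h4 := mk_compl_of_infinite _ hA
          rw [← h4]
          exact mk_le_of_injective (f := fun (z : ((FixPt G x ∪ FixPt G y)ᶜ : Set Ω)) =>
            (⟨z.1, hall z.1 (fun h => z.2 (Or.inl h)) (fun h => z.2 (Or.inr h))⟩ :
              {z // Rigid G x y z})) (by
              intro a b hab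
              apply Subtype.ext
              exact congrArg (fun s : {z // Rigid G x y z} => s.1) hab)
        · have h5 : #(FixPt G y) = #(FixPt G x) := by
            obtain ⟨l, hl, hlx⟩ := ht x y
            rw [← hlx]; exact fixPt_card x hl
          have h6 : #(FixPt G z0) = #(FixPt G x) := by
            obtain ⟨l, hl, hlx⟩ := ht x z0
            rw [← hlx]; exact fixPt_card x hl
          have h7 : #Ω ≤ #(FixPt G x) := by
            by_contra h8
            rw [not_le] at h8
            apply hA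
            refine lt_of_le_of_lt (mk_union_le _ _) ?_
            rw [h5]
            exact add_lt_of_lt hinf h8 h8
          rw [← h6] at h7
          refine h7.trans ?_
          exact mk_le_of_injective (f := fun (z : FixPt G z0) =>
            (⟨z.1, hall z.1 (fun h => o1 (fixPt_trans h (hB _ _ z.2)))
              (fun h => o2 (fixPt_trans h (hB _ _ z.2)))⟩ : {z // Rigid G x y z})) (by
              intro a b hab
              apply Subtype.ext
              exact congrArg (fun s : {z // Rigid G x y z} => s.1) hab)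
    obtain ⟨R1, hR1⟩ := solves_transfinite (G := G) (D := {p | p.2 ∉ FixPt G p.1}) hsmall
      (fun x y hxy h' => hxy (hB _ _ h')) (by
        intro x y hxy
        have hy : y ∉ FixPt G x := hxy
        refine (hcount x y hy).trans ?_
        exact mk_le_of_injective (f := fun (z : {z // Rigid G x y z}) =>
          (⟨z.1, (rigid_outside hB z.2 hy).2, fun h' => (rigid_outside hB z.2 hy).1 (hB _ _ h'),
            z.2⟩ : {z // (y, z) ∈ {p : Ω × Ω | p.2 ∉ FixPt G p.1} ∧
              (z, x) ∈ {p : Ω × Ω | p.2 ∉ FixPt G p.1} ∧ Rigid G x y z})) (by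
          intro a b hab
          apply Subtype.ext
          exact congrArg (fun s : {z // (y, z) ∈ {p : Ω × Ω | p.2 ∉ FixPt G p.1} ∧
              (z, x) ∈ {p : Ω × Ω | p.2 ∉ FixPt G p.1} ∧ Rigid G x y z} => s.1) hab))
    exact realisable_of_union hR0 hR1 hinv0 hinv1 (fun p => em _) (fun p h h' => h' h)

end Pool.Agent.QGP776
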