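import Pool.Agent.QGP776.Infinite

set_option autoImplicit false

namespace Pool.Agent.QGP776

universe u v

open Cardinal

variable {Ω : Type u} {G : Subgroup (Equiv.Perm Ω)}

lemma exists_step_mu {μ : Cardinal.{u}} (hinf : ℵ₀ ≤ μ) {D : Set (Ω × Ω)}
    (hsmall : ∀ x, #(Stab G x) < μ)
    (hcomp : ∀ x y, (x, y) ∈ D → μ ≤ #{z // (y, z) ∈ D ∧ (z, x) ∈ D ∧ Rigid G x y z})
    {J : Type u} (hJ : #J < μ) (P : J → Fin 3 → Ω) (hgood : ∀ j, Good G D (P j))
    (hpair : ∀ j j', Conf G (P j) (P j') → P j = P j') (c : Fin 3) (p : Ω × Ω) (hp : p ∈ D) :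
    ∃ t, Good G D t ∧ Match G c t p ∧ ∀ j, Conf G (P j) t → P j = t := by
  classical
  by_cases h : ∃ j, Match G c (P j) p
  · obtain ⟨j, hj⟩ := h
    exact ⟨P j, hgood j, hj, fun j' h' => hpair j' j h'⟩
  · push Not at h
    obtain ⟨a, b⟩ := p
    set F1 : Set Ω := ⋃ j, {z | ∃ g ∈ G, g (P j (c + 2)) = b ∧ g (P j c) = z} with hF1
    set F2 : Set Ω := ⋃ j, {z | ∃ g ∈ G, g (P j (c + 1)) = a ∧ g (P j c) = z} with hF2
    have c1 : #F1 < μ := lt_of_le_of_lt (forb_card _ _ _) (mul_lt_of_lt hinf hJ (hsmall b))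
    have c2 : #F2 < μ := lt_of_le_of_lt (forb_card _ _ _) (mul_lt_of_lt hinf hJ (hsmall a))
    have c3 : #(F1 ∪ F2 : Set Ω) < μ :=
      lt_of_le_of_lt (mk_union_le _ _) (add_lt_of_lt hinf c1 c2)
    have hz : ∃ z, ((b, z) ∈ D ∧ (z, a) ∈ D ∧ Rigid G a b z) ∧ z ∉ F1 ∪ F2 := by
      by_contra hcon
      push Not at hcon
      have hsub : {z | (b, z) ∈ D ∧ (z, a) ∈ D ∧ Rigid G a b z} ⊆ F1 ∪ F2 := fun z hz => hcon z hz
      have := (hcomp a b hp).trans (mk_le_mk_of_subset hsub)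
      exact absurd this (not_le.2 c3)
    obtain ⟨z, ⟨hz1, hz2, hz3⟩, hz4⟩ := hz
    have n1 : ∀ c : Fin 3, c + 1 ≠ c := by decide
    have n2 : ∀ c : Fin 3, c + 2 ≠ c := by decide
    have n3 : ∀ c : Fin 3, c + 2 ≠ c + 1 := by decide
    have a1 : ∀ c : Fin 3, c + 1 + 1 = c + 2 := by decide
    have a2 : ∀ c : Fin 3, c + 1 + 2 = c := by decide
    have a3 : ∀ c : Fin 3, c + 2 + 1 = c := by decide
    have a4 : ∀ c : Fin 3, c + 2 + 2 = c + 1 := by decide
    have tri : ∀ c c' : Fin 3, c' = c ∨ c' = c + 1 ∨ c' = c + 2 := by decide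
    let t : Fin 3 → Ω := fun d => if d = c then z else if d = c + 1 then a else b
    have t0 : t c = z := by simp [t]
    have t1 : t (c + 1) = a := by simp [t, n1 c]
    have t2 : t (c + 2) = b := by simp [t, n2 c, n3 c]
    refine ⟨t, ⟨?_, ?_⟩, ?_, ?_⟩
    · intro c'
      rcases tri c c' with rfl | rfl | rfl
      · rw [t1, t2]; exact hp
      · rw [a1, a2, t2, t0]; exact hz1
      · rw [a3, a4, t0, t1]; exact hz2
    · have hr : Rigid G (t (c + 1)) (t (c + 2)) (t c) := by rw [t0, t1, t2]; exact hz3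
      have hc : c = 0 ∨ c = 1 ∨ c = 2 := by
        have := tri 0 c
        simpa using this
      rcases hc with rfl | rfl | rfl
      · exact hr.rot.rot
      · exact hr.rot
      · exact hr
    · exact ⟨1, G.one_mem, by rw [t1]; rfl, by rw [t2]; rfl⟩
    · intro j hconf
      exfalso
      obtain ⟨c', g, hg, h1, h2⟩ := hconf
      rcases tri c c' with rfl | rfl | rfl
      · rw [t1] at h1
        rw [t2] at h2
        exact h j ⟨g, hg, h1, h2⟩
      · rw [a1] at h1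
        rw [a2] at h2
        simp only [t2] at h1
        simp only [t0] at h2
        exact hz4 (Or.inl (Set.mem_iUnion.2 ⟨j, g, hg, h1, h2⟩))
      · rw [a3] at h1
        rw [a4] at h2
        simp only [t0] at h1
        simp only [t1] at h2
        exact hz4 (Or.inr (Set.mem_iUnion.2 ⟨j, g, hg, h2, h1⟩))

theorem exists_system_mu {μ : Cardinal.{u}} (hinf : ℵ₀ ≤ μ) {D : Set (Ω × Ω)} (hD : #D ≤ μ)
    (hsmall : ∀ x, #(Stab G x) < μ)
    (hcomp : ∀ x y, (x, y) ∈ D → μ ≤ #{z // (y, z) ∈ D ∧ (z, x) ∈ D ∧ Rigid G x y z}) :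
    ∃ R : Set (Fin 3 → Ω), (∀ t ∈ R, Good G D t) ∧
      ∀ c, ∀ p ∈ D, ∃! t, t ∈ R ∧ Match G c t p := by
  classical
  by_cases hne : Nonempty Ω
  swap
  · exact ⟨∅, by simp, fun c p _ => absurd ⟨p.1⟩ hne⟩
  obtain ⟨ω⟩ := hne
  let Req : Type u := Fin 3 × D
  have hReq : #Req ≤ μ := by
    have h1 : #Req = 3 * #D := by
      rw [show #Req = #(Fin 3 × D) from rfl, mk_prod]; simp
    rw [h1]
    calc 3 * #D ≤ μ * μ := by
          refine mul_le_mul' ?_ hD
          exact (natCast_lt_aleph0 (n := 3)).le.trans hinf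
      _ = μ := mul_eq_self hinf
  obtain ⟨r, wo, hr⟩ := Cardinal.exists_ord_eq Req
  have hlt : ∀ i : Req, #{j // r j i} < μ := by
    intro i
    have h1 : #{j // r j i} < #Req := by
      have := Cardinal.card_typein_lt (r := r) i hr
      simpa using this
    exact lt_of_lt_of_le h1 hReq
  have hwf : WellFounded r := wo.wf
  let step : (i : Req) → ((j : Req) → r j i → Fin 3 → Ω) → Fin 3 → Ω := fun i P =>
    if h : ∃ t, Good G D t ∧ Match G i.1 t i.2.1 ∧ ∀ j (hj : r j i), Conf G (P j hj) t →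
      P j hj = t then h.choose else fun _ => ω
  let t : Req → Fin 3 → Ω := hwf.fix step
  have ht : ∀ i, t i = step i (fun j _ => t j) := fun i => hwf.fix_eq step i
  have main : ∀ i, Good G D (t i) ∧ Match G i.1 (t i) i.2.1 ∧
      ∀ j, r j i → Conf G (t j) (t i) → t j = t i := by
    intro i
    induction i using hwf.induction with
    | _ i ih =>
      have hex : ∃ s, Good G D s ∧ Match G i.1 s i.2.1 ∧ ∀ j (hj : r j i), Conf G (t j) s →
          t j = s := by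
        obtain ⟨s, h1, h2, h3⟩ := exists_step_mu (D := D) hinf hsmall hcomp (J := {j // r j i})
          (hlt i) (fun j => t j.1) (fun j => (ih j.1 j.2).1) (by
            intro j j' hc
            rcases trichotomous_of r j.1 j'.1 with h | h | h
            · exact (ih j'.1 j'.2).2.2 j.1 h hc
            · show t j.1 = t j'.1
              rw [h]
            · exact ((ih j.1 j.2).2.2 j'.1 h hc.symm).symm) i.1 i.2.1 i.2.2
        exact ⟨s, h1, h2, fun j hj hc => h3 ⟨j, hj⟩ hc⟩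
      have hti : t i = hex.choose := by
        rw [ht i]
        simp only [step, dif_pos hex]
      rw [hti]
      exact ⟨hex.choose_spec.1, hex.choose_spec.2.1, fun j hj hc => hex.choose_spec.2.2 j hj hc⟩
  have pairw : ∀ i j, Conf G (t i) (t j) → t i = t j := by
    intro i j hc
    rcases trichotomous_of r i j with h | h | h
    · exact (main j).2.2 i h hc
    · rw [h]
    · exact ((main i).2.2 j h hc.symm).symm
  refine ⟨Set.range t, ?_, ?_⟩
  · rintro _ ⟨i, rfl⟩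
    exact (main i).1
  · intro c p hp
    refine ⟨t (c, ⟨p, hp⟩), ⟨⟨_, rfl⟩, (main (c, ⟨p, hp⟩)).2.1⟩, ?_⟩
    rintro _ ⟨⟨j, rfl⟩, hj⟩
    exact pairw _ _ (conf_of_match hj (main (c, ⟨p, hp⟩)).2.1)

/-- The elements of `G` that map `F` onto itself. -/
def setStab (G : Subgroup (Equiv.Perm Ω)) (F : Set Ω) : Subgroup (Equiv.Perm Ω) where
  carrier := {g | g ∈ G ∧ g '' F = F}
  one_mem' := ⟨G.one_mem, by simp⟩
  mul_mem' := by
    rintro a b ⟨ha, ha'⟩ ⟨hb, hb'⟩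
    refine ⟨G.mul_mem ha hb, ?_⟩
    rw [Equiv.Perm.coe_mul, Set.image_comp, hb', ha']
  inv_mem' := by
    rintro a ⟨ha, ha'⟩
    refine ⟨G.inv_mem ha, ?_⟩
    nth_rewrite 1 [← ha']
    rw [← Set.image_comp, ← Equiv.Perm.coe_mul, inv_mul_cancel]
    simp

/-- `T` solves the local problem on `F`: a partial Latin square, invariant under the elements of `G`
that map `F` onto itself, whose cells are exactly the pairs `(x, y)` with `Fix(G_xy) = F`. -/
def LocalLatin (G : Subgroup (Equiv.Perm Ω)) (F : Set Ω) (T : Set (Ω × Ω × Ω)) : Prop :=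
  (∀ g ∈ G, g '' F = F → ∀ x y z, (x, y, z) ∈ T → (g x, g y, g z) ∈ T) ∧
  (∀ x y z, (x, y, z) ∈ T → FixPair G x y = F ∧ FixPair G x z = F ∧ FixPair G y z = F) ∧
  (∀ x y, FixPair G x y = F → ∃! z, (x, y, z) ∈ T) ∧
  (∀ x z, FixPair G x z = F → ∃! y, (x, y, z) ∈ T) ∧
  (∀ y z, FixPair G y z = F → ∃! x, (x, y, z) ∈ T)

lemma fixPair_symm (x y : Ω) : FixPair G x y = FixPair G y x := by
  ext w
  exact ⟨fun h g hg h1 h2 => h g hg h2 h1, fun h g hg h1 h2 => h g hg h2 h1⟩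

lemma left_mem_fixPair (x y : Ω) : x ∈ FixPair G x y := fun _ _ h _ => h

lemma right_mem_fixPair (x y : Ω) : y ∈ FixPair G x y := fun _ _ _ h => h

lemma fixPair_image (x y : Ω) {k : Equiv.Perm Ω} (hk : k ∈ G) :
    FixPair G (k x) (k y) = k '' FixPair G x y := by
  ext w
  constructor
  · intro hw
    refine ⟨k⁻¹ w, ?_, by simp⟩
    have := fixPair_map hw (G.inv_mem hk)
    simpa using this
  · rintro ⟨v, hv, rfl⟩
    exact fixPair_map hv hk

lemma rigid_fixPair {x y z : Ω} (h : Rigid G x y z) :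
    FixPair G x z = FixPair G x y ∧ FixPair G y z = FixPair G x y := by
  constructor
  · ext w
    exact ⟨fun hw g hg h1 h2 => hw g hg h1 ((h g hg).1 h1 h2),
      fun hw g hg h1 h2 => hw g hg h1 ((h g hg).2.1 h1 h2)⟩
  · ext w
    exact ⟨fun hw g hg h1 h2 => hw g hg h2 ((h g hg).1 h1 h2),
      fun hw g hg h1 h2 => hw g hg ((h g hg).2.2 h1 h2) h1⟩

lemma local_of_system {F : Set Ω} {R : Set (Fin 3 → Ω)}
    (hgood : ∀ t ∈ R, Good (setStab G F) {p | FixPair G p.1 p.2 = F} t)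
    (hR : ∀ c, ∀ p ∈ {p : Ω × Ω | FixPair G p.1 p.2 = F}, ∃! t, t ∈ R ∧
      Match (setStab G F) c t p) : ∃ T, LocalLatin G F T := by
  classical
  have rig : ∀ t ∈ R, ∀ c, Rigid (setStab G F) (t (c + 1)) (t (c + 2)) (t c) := by
    intro t ht c
    have h0 := (hgood t ht).2
    fin_cases c
    · exact h0.rot
    · exact h0.rot.rot
    · exact h0
  have inv : ∀ g ∈ setStab G F, ∀ x y, FixPair G x y = F → FixPair G (g x) (g y) = F := by
    intro g hg x y h
    rw [fixPair_image x y hg.1, h, hg.2]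
  -- the role statement
  have role : ∀ (c : Fin 3) x y, FixPair G x y = F → ∃! z, ∃ t ∈ R, ∃ g ∈ setStab G F,
      g (t (c + 1)) = x ∧ g (t (c + 2)) = y ∧ g (t c) = z := by
    intro c x y hxy
    obtain ⟨t, ⟨ht, g, hg, h1, h2⟩, hu⟩ := hR c (x, y) hxy
    refine ⟨g (t c), ⟨t, ht, g, hg, h1, h2, rfl⟩, ?_⟩
    rintro z ⟨s, hs, k, hk, f1, f2, rfl⟩
    have hst := hu s ⟨hs, k, hk, f1, f2⟩
    subst hst
    exact ((rig s hs c).agree hk hg).1 (by rw [f1]; exact h1.symm) (by rw [f2]; exact h2.symm)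
  refine ⟨{s | ∃ t ∈ R, ∃ g ∈ setStab G F, g (t 1) = s.1 ∧ g (t 2) = s.2.1 ∧ g (t 0) = s.2.2},
    ?_, ?_, ?_, ?_, ?_⟩
  · rintro k hk hkF x y z ⟨t, ht, g, hg, h1, h2, h3⟩
    refine ⟨t, ht, k * g, (setStab G F).mul_mem ⟨hk, hkF⟩ hg, ?_, ?_, ?_⟩
    · simp only [Equiv.Perm.mul_apply]; exact congrArg k h1
    · simp only [Equiv.Perm.mul_apply]; exact congrArg k h2
    · simp only [Equiv.Perm.mul_apply]; exact congrArg k h3
  · rintro x y z ⟨t, ht, g, hg, h1, h2, h3⟩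
    simp only at h1 h2 h3
    have e0 : FixPair G (t 1) (t 2) = F := (hgood t ht).1 0
    have e1 : FixPair G (t 2) (t 0) = F := (hgood t ht).1 1
    have e2 : FixPair G (t 0) (t 1) = F := (hgood t ht).1 2
    rw [← h1, ← h2, ← h3]
    exact ⟨inv g hg _ _ e0, inv g hg _ _ (by rw [fixPair_symm]; exact e2), inv g hg _ _ e1⟩
  · intro x y hxy
    obtain ⟨z, ⟨t, ht, g, hg, h1, h2, h3⟩, hu⟩ := role 0 x y hxy
    refine ⟨z, ⟨t, ht, g, hg, h1, h2, h3⟩, ?_⟩
    rintro w ⟨s, hs, k, hk, f1, f2, f3⟩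
    exact hu w ⟨s, hs, k, hk, f1, f2, f3⟩
  · intro x z hxz
    obtain ⟨y, ⟨t, ht, g, hg, h1, h2, h3⟩, hu⟩ := role 2 z x (by rw [fixPair_symm]; exact hxz)
    refine ⟨y, ⟨t, ht, g, hg, h2, h3, h1⟩, ?_⟩
    rintro w ⟨s, hs, k, hk, f1, f2, f3⟩
    exact hu w ⟨s, hs, k, hk, f3, f1, f2⟩
  · intro y z hyz
    obtain ⟨x, ⟨t, ht, g, hg, h1, h2, h3⟩, hu⟩ := role 1 y z hyz
    refine ⟨x, ⟨t, ht, g, hg, h3, h1, h2⟩, ?_⟩
    rintro w ⟨s, hs, k, hk, f1, f2, f3⟩
    exact hu w ⟨s, hs, k, hk, f2, f3, f1⟩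

end Pool.Agent.QGP776
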