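import Pool.Agent.QGP776.Regular

set_option autoImplicit false

namespace Pool.Agent.QGP776

universe u v

open Cardinal Pointwise

/-- Finite coset covers: the cosets of subgroups of infinite index can be dropped. -/
lemma cover_drop {N : Type u} [Group N] {ι : Type v} [Finite ι] (H : ι → Subgroup N) (g : ι → N)
    (hcov : ∀ n : N, ∃ i, (g i)⁻¹ * n ∈ H i) : ∀ n : N, ∃ i, (H i).FiniteIndex ∧
      (g i)⁻¹ * n ∈ H i := by
  classical
  have : Fintype ι := Fintype.ofFinite ι
  have h1 : ⋃ i ∈ (Finset.univ : Finset ι), g i • (H i : Set N) = Set.univ := by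
    rw [Set.eq_univ_iff_forall]
    intro n
    obtain ⟨i, hi⟩ := hcov n
    simp only [Set.mem_iUnion]
    exact ⟨i, Finset.mem_univ i, (mem_leftCoset_iff (g i)).2 hi⟩
  have h2 := Subgroup.leftCoset_cover_filter_FiniteIndex h1
  intro n
  have h3 : n ∈ ⋃ k ∈ (Finset.univ : Finset ι).filter (fun i => (H i).FiniteIndex),
      g k • (H k : Set N) := by rw [h2]; trivial
  simp only [Set.mem_iUnion] at h3
  obtain ⟨i, hi, hn⟩ := h3
  exact ⟨i, (Finset.mem_filter.1 hi).2, (mem_leftCoset_iff (g i)).1 hn⟩

/-- If finitely many cosets cover an infinite group up to a set of smaller cardinality, then they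
cover it. -/
lemma neumann_card {N : Type u} [Group N] [Infinite N] {ι : Type v} [Finite ι]
    (H : ι → Subgroup N) (g : ι → N) (S : Set N)
    (hcov : ∀ n : N, n ∈ S ∨ ∃ i, (g i)⁻¹ * n ∈ H i) (hS : #S < #N) :
    ∀ n : N, ∃ i, (g i)⁻¹ * n ∈ H i := by
  classical
  by_cases hfin : S.Finite
  · have : Finite S := hfin
    have hbot : ¬ (⊥ : Subgroup N).FiniteIndex := by
      intro h
      have h1 := h.index_ne_zero
      rw [Subgroup.index_bot] at h1
      exact h1 Nat.card_eq_zero_of_infinite
    have h1 := cover_drop (ι := ι ⊕ S) (Sum.elim H (fun _ => ⊥)) (Sum.elim g (fun s => s.1)) (by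
      intro n
      rcases hcov n with h | ⟨i, hi⟩
      · exact ⟨Sum.inr ⟨n, h⟩, by simp⟩
      · exact ⟨Sum.inl i, hi⟩)
    intro n
    obtain ⟨i | s, h2, h3⟩ := h1 n
    · exact ⟨i, h3⟩
    · exact absurd h2 hbot
  · have hinf : Infinite S := Set.infinite_coe_iff.2 hfin
    set M : Subgroup N := Subgroup.closure S with hM
    have hMcard : #M < #N := by
      have h1 : #M ≤ #(FreeGroup S) := by
        have h2 : M = (FreeGroup.lift ((↑) : S → N)).range := FreeGroup.closure_eq_range S
        rw [h2]
        exact mk_range_le (f := FreeGroup.lift ((↑) : S → N))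
      rw [mk_freeGroup, max_eq_left (aleph0_le_mk S)] at h1
      exact lt_of_le_of_lt h1 hS
    have hMidx : ¬ M.FiniteIndex := by
      intro h
      have h1 : Finite (N ⧸ M) := inferInstance
      have h2 : #N = #(N ⧸ M) * #M := by
        have e := mk_congr (Subgroup.groupEquivQuotientProdSubgroup (s := M))
        rw [mk_prod] at e
        simpa using e
      have h3 : #(N ⧸ M) * #M < #N :=
        mul_lt_of_lt (aleph0_le_mk N) (lt_of_lt_of_le (lt_aleph0_of_finite _) (aleph0_le_mk N))
          hMcard
      exact absurd h2 h3.ne'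
    have h1 := cover_drop (ι := Option ι) (fun o => o.elim M H) (fun o => o.elim 1 g) (by
      intro n
      rcases hcov n with h | ⟨i, hi⟩
      · exact ⟨none, by simpa using Subgroup.subset_closure h⟩
      · exact ⟨some i, hi⟩)
    intro n
    obtain ⟨_ | i, h2, h3⟩ := h1 n
    · exact absurd h2 hMidx
    · exact ⟨i, h3⟩

end Pool.Agent.QGP776
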