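import Pool.Agent.QGP776.Basic

set_option autoImplicit false

namespace Pool.Agent.QGP776

universe u

open MulAction

variable {Ω : Type u} {G : Subgroup (Equiv.Perm Ω)}

/-- The obstruction on the common fixed points of a subset of `G`. -/
theorem fixed_obstruction (hR : Realisable G) {P : Subgroup (Equiv.Perm Ω)} (hPG : P ≤ G)
    (hfinP : Finite P) (hP : IsPGroup 2 P) {L : Set (Equiv.Perm Ω)} (hL : L ⊆ G) {F : Set Ω}
    (hFdef : F = {x | ∀ g ∈ L, g x = x}) (hF : F.Finite) (hPF : ∀ g ∈ P, ∀ x ∈ F, g x ∈ F)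
    (k : ℕ) (hk : 0 < k) (hcard : ¬ 2 ^ (k + 1) ∣ F.ncard)
    (h : ∀ x ∈ F, 2 ^ k ∣ Nat.card (orbit P x)) :
    ∃ x ∈ F, Nat.card (orbit P x) = 2 ^ k ∧
      ¬ IsCyclic (↥(Subgroup.normalizer (stabilizer P x : Set P)) ⧸
        (stabilizer P x).subgroupOf (Subgroup.normalizer (stabilizer P x : Set P))) := by
  classical
  obtain ⟨op, hq, hG⟩ := hR
  have : Finite F := hF
  let act : MulAction P F :=
    { smul := fun g w => ⟨g.1 w.1, hPF g.1 g.2 w.1 w.2⟩
      one_smul := fun w => rfl
      mul_smul := fun g k w => rfl }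
  have hsmul : ∀ (g : P) (w : F), ((g • w : F) : Ω) = g.1 w.1 := fun g w => rfl
  have hcl : ∀ x y : F, op x.1 y.1 ∈ F := by
    intro x y
    refine hFdef.symm.subset ?_
    intro g hg
    have hx : x.1 ∈ {x | ∀ g ∈ L, g x = x} := hFdef.subset x.2
    have hy : y.1 ∈ {x | ∀ g ∈ L, g x = x} := hFdef.subset y.2
    rw [hG g (hL hg), hx g hg, hy g hg]
  obtain ⟨w, hw1, hw2⟩ := exists_noncyclic (Ω := F) (P := P) (op := fun x y => ⟨op x.1 y.1, hcl x y⟩)
    (by
      intro a x y h
      have h' : op a.1 x.1 = op a.1 y.1 := congrArg Subtype.val h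
      exact Subtype.ext ((hq.1 a.1 (op a.1 y.1)).unique h' rfl))
    (by
      intro b x y h
      have h' : op x.1 b.1 = op y.1 b.1 := congrArg Subtype.val h
      exact Subtype.ext ((hq.2 b.1 (op y.1 b.1)).unique h' rfl))
    (by
      intro g x y
      exact Subtype.ext (hG g.1 (hPG g.2) x.1 y.1))
    hP k hk
    (by
      intro w
      have e : orbit P w ≃ orbit P w.1 :=
        { toFun := fun v => ⟨v.1.1, by
            obtain ⟨g, hg⟩ := v.2
            exact ⟨g, by rw [← hg]; rfl⟩⟩
          invFun := fun v => ⟨⟨v.1, by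
            obtain ⟨g, hg⟩ := v.2
            rw [← hg]
            exact hPF g.1 g.2 w.1 w.2⟩, by
            obtain ⟨g, hg⟩ := v.2
            exact ⟨g, Subtype.ext hg⟩⟩
          left_inv := fun v => rfl
          right_inv := fun v => rfl }
      rw [Nat.card_congr e]
      exact h w.1 w.2)
    (by rw [Nat.card_coe_set_eq]; exact hcard)
  refine ⟨w.1, w.2, ?_, ?_⟩
  · have e : orbit P w ≃ orbit P w.1 :=
      { toFun := fun v => ⟨v.1.1, by
          obtain ⟨g, hg⟩ := v.2
          exact ⟨g, by rw [← hg]; rfl⟩⟩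
        invFun := fun v => ⟨⟨v.1, by
          obtain ⟨g, hg⟩ := v.2
          rw [← hg]
          exact hPF g.1 g.2 w.1 w.2⟩, by
          obtain ⟨g, hg⟩ := v.2
          exact ⟨g, Subtype.ext hg⟩⟩
        left_inv := fun v => rfl
        right_inv := fun v => rfl }
    rw [← hw1, Nat.card_congr e]
  · have hst : stabilizer P w = stabilizer P w.1 := by
      ext g
      rw [mem_stabilizer_iff, mem_stabilizer_iff]
      exact ⟨fun h => congrArg Subtype.val h, fun h => Subtype.ext h⟩
    rw [hst] at hw2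
    exact hw2

end Pool.Agent.QGP776
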