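import Pool.Agent.QGP776.Transfinite

set_option autoImplicit false

namespace Pool.Agent.QGP776

universe u v

open Cardinal

variable {Ω : Type u} {G : Subgroup (Equiv.Perm Ω)}

/-- For a regular group `W`, realisability is the existence of a complete mapping. -/
theorem regular_iff {F : Type u} (W : Subgroup (Equiv.Perm F)) (o : F)
    (hreg : ∀ x y : F, ∃! n, n ∈ W ∧ n x = y) :
    Realisable W ↔ ∃ θ : W → W, Function.Bijective θ ∧ Function.Bijective (fun w => w * θ w) := by
  have hN : RegularNormal W W :=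
    ⟨le_refl W, fun g hg n hn => W.mul_mem (W.mul_mem hg hn) (W.inv_mem hg), hreg⟩
  rw [regular_normal_iff hN o]
  constructor
  · rintro ⟨f, h1, h2, h3, -⟩
    refine ⟨fun w => ⟨w.1⁻¹ * f w.1, W.mul_mem (W.inv_mem w.2) (h1 _ w.2)⟩, ?_, ?_⟩
    · rw [Function.bijective_iff_existsUnique]
      intro b
      obtain ⟨n, ⟨hn, hfn⟩, hu⟩ := h3 b.1 b.2
      refine ⟨⟨n, hn⟩, Subtype.ext hfn, ?_⟩
      intro a ha
      exact Subtype.ext (hu a.1 ⟨a.2, congrArg Subtype.val ha⟩)
    · rw [Function.bijective_iff_existsUnique]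
      intro b
      obtain ⟨n, ⟨hn, hfn⟩, hu⟩ := h2 b.1 b.2
      refine ⟨⟨n, hn⟩, Subtype.ext ?_, ?_⟩
      · show n * (n⁻¹ * f n) = b.1
        rw [mul_inv_cancel_left, hfn]
      · intro a ha
        apply Subtype.ext
        apply hu a.1
        refine ⟨a.2, ?_⟩
        have h4 : a.1 * (a.1⁻¹ * f a.1) = b.1 := congrArg Subtype.val ha
        rwa [mul_inv_cancel_left] at h4
  · classical
    rintro ⟨θ, h1, h2⟩
    let f : Equiv.Perm F → Equiv.Perm F := fun n => if h : n ∈ W then n * (θ ⟨n, h⟩).1 else 1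
    have hf : ∀ n (h : n ∈ W), f n = n * (θ ⟨n, h⟩).1 := fun n h => by simp only [f, dif_pos h]
    refine ⟨f, ?_, ?_, ?_, ?_⟩
    · intro n hn
      rw [hf n hn]
      exact W.mul_mem hn (θ ⟨n, hn⟩).2
    · intro m hm
      obtain ⟨n, hn, hu⟩ := (Function.bijective_iff_existsUnique _).1 h2 ⟨m, hm⟩
      refine ⟨n.1, ⟨n.2, ?_⟩, ?_⟩
      · rw [hf n.1 n.2]
        exact congrArg Subtype.val hn
      · rintro n' ⟨hn', he⟩
        rw [hf n' hn'] at he
        exact congrArg Subtype.val (hu ⟨n', hn'⟩ (Subtype.ext he))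
    · intro m hm
      obtain ⟨n, hn, hu⟩ := (Function.bijective_iff_existsUnique _).1 h1 ⟨m, hm⟩
      refine ⟨n.1, ⟨n.2, ?_⟩, ?_⟩
      · rw [hf n.1 n.2, inv_mul_cancel_left]
        exact congrArg Subtype.val hn
      · rintro n' ⟨hn', he⟩
        rw [hf n' hn', inv_mul_cancel_left] at he
        exact congrArg Subtype.val (hu ⟨n', hn'⟩ (Subtype.ext he))
    · intro h hh hho n hn
      have h1 : h = 1 := (hreg o o).unique ⟨hh, hho⟩ ⟨W.one_mem, rfl⟩
      subst h1
      simp

/-- The group induced on a block of fixed points is regular. -/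
lemma induced_regular (hB : FixSymm G) (ht : Transitive G) (ω : Ω)
    (x y : FixPt G ω) : ∃! n, n ∈ induced G (FixPt G ω) ∧ n x = y := by
  obtain ⟨k, hk, hkx⟩ := ht x.1 y.1
  have hy : FixPt G y.1 = FixPt G ω := Set.Subset.antisymm
    (fun w hw => fixPt_trans y.2 hw) (fun w hw => fixPt_trans (hB _ _ y.2) hw)
  have hx : FixPt G x.1 = FixPt G ω := Set.Subset.antisymm
    (fun w hw => fixPt_trans x.2 hw) (fun w hw => fixPt_trans (hB _ _ x.2) hw)
  have m1 : ∀ w, w ∈ FixPt G ω → k w ∈ FixPt G ω := by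
    intro w hw
    rw [← hx] at hw
    have := fixPt_map hw hk
    rwa [hkx, hy] at this
  have m2 : ∀ w, w ∈ FixPt G ω → k⁻¹ w ∈ FixPt G ω := by
    intro w hw
    rw [← hy] at hw
    have := fixPt_map hw (G.inv_mem hk)
    rwa [show k⁻¹ y.1 = x.1 by rw [Equiv.Perm.inv_eq_iff_eq, hkx], hx] at this
  let q : Equiv.Perm (FixPt G ω) :=
    { toFun := fun w => ⟨k w.1, m1 _ w.2⟩
      invFun := fun w => ⟨k⁻¹ w.1, m2 _ w.2⟩
      left_inv := fun w => Subtype.ext (by simp)
      right_inv := fun w => Subtype.ext (by simp) }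
  refine ⟨q, ⟨⟨k, hk, fun w => rfl⟩, Subtype.ext hkx⟩, ?_⟩
  rintro p ⟨⟨g, hg, hpg⟩, hpx⟩
  ext w
  rw [hpg]
  show g w.1 = k w.1
  have h1 : (k⁻¹ * g) x.1 = x.1 := by
    rw [Equiv.Perm.mul_apply, ← hpg, hpx, Equiv.Perm.inv_eq_iff_eq, hkx]
  have h2 : w.1 ∈ FixPt G x.1 := by rw [hx]; exact w.2
  have h3 := h2 _ (G.mul_mem (G.inv_mem hk) hg) h1
  rw [Equiv.Perm.mul_apply, Equiv.Perm.inv_eq_iff_eq] at h3
  exact h3

theorem induced_iff (hB : FixSymm G) (ht : Transitive G) (ω : Ω) :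
    Realisable (induced G (FixPt G ω)) ↔
      ∃ θ : induced G (FixPt G ω) → induced G (FixPt G ω), Function.Bijective θ ∧
        Function.Bijective (fun w => w * θ w) :=
  regular_iff _ ⟨ω, fixPt_self ω⟩ (induced_regular hB ht ω)

/-- On an infinite block the induced group is always realisable. -/
theorem induced_infinite (hB : FixSymm G) (ht : Transitive G) (ω : Ω)
    (hinf : (FixPt G ω).Infinite) : Realisable (induced G (FixPt G ω)) := by
  have : Infinite (FixPt G ω) := hinf.to_subtype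
  have hone : ∀ (p : Equiv.Perm (FixPt G ω)), p ∈ induced G (FixPt G ω) → ∀ x, p x = x → p = 1 :=
    fun p hp x hpx => (induced_regular hB ht ω x x).unique ⟨hp, hpx⟩
      ⟨(induced G (FixPt G ω)).one_mem, rfl⟩
  have hsmall : ∀ x, #(Stab (induced G (FixPt G ω)) x) < #(FixPt G ω) := by
    intro x
    have h1 : #(Stab (induced G (FixPt G ω)) x) ≤ 1 := by
      rw [Cardinal.le_one_iff_subsingleton]
      constructor
      rintro ⟨p, hp, hpx⟩ ⟨q, hq, hqx⟩
      apply Subtype.ext
      exact (hone p hp x hpx).trans (hone q hq x hqx).symm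
    exact lt_of_le_of_lt h1 (one_lt_aleph0.trans_le (aleph0_le_mk _))
  obtain ⟨R, hR⟩ := solves_transfinite (G := induced G (FixPt G ω)) (D := Set.univ) hsmall
    (fun _ _ _ => trivial) (by
      intro x y _
      have : ∀ z, (y, z) ∈ (Set.univ : Set (FixPt G ω × FixPt G ω)) ∧
          (z, x) ∈ (Set.univ : Set (FixPt G ω × FixPt G ω)) ∧
          Rigid (induced G (FixPt G ω)) x y z := by
        intro z
        refine ⟨trivial, trivial, fun p hp => ⟨fun h _ => ?_, fun h _ => ?_, fun h _ => ?_⟩⟩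
        · rw [hone p hp _ h]; rfl
        · rw [hone p hp _ h]; rfl
        · rw [hone p hp _ h]; rfl
      refine Cardinal.mk_le_of_injective (f := fun z => ⟨z, this z⟩) ?_
      intro a b h
      exact congrArg Subtype.val h)
  rw [criterion]
  exact ⟨R, hR.rigid, fun x y => hR.h12 x y trivial, fun x y => hR.h13 x y trivial,
    fun x y => hR.h23 x y trivial⟩

/-- For finite `Ω` the relation `w ∈ FixPt G x` is symmetric. -/
lemma fixSymm_of_finite [Finite Ω] (ht : Transitive G) : FixSymm G :=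
  fun _ _ h => fixPt_symm ht h

end Pool.Agent.QGP776
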