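import Pool.Agent.QGP776.Blocks

set_option autoImplicit false

namespace Pool.Agent.QGP776

universe u v

open Cardinal

variable {Ω : Type u} {G : Subgroup (Equiv.Perm Ω)}

lemma Rigid.rot {x y z : Ω} (h : Rigid G x y z) : Rigid G y z x := by
  intro g hg
  exact ⟨fun h1 h2 => (h g hg).2.2 h1 h2, fun h1 h2 => (h g hg).1 h2 h1,
    fun h1 h2 => (h g hg).2.1 h2 h1⟩

/-- The triple `t` matches the pair `p` in the two coordinates other than `c`. -/
def Match (G : Subgroup (Equiv.Perm Ω)) (c : Fin 3) (t : Fin 3 → Ω) (p : Ω × Ω) : Prop :=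
  ∃ g ∈ G, g (t (c + 1)) = p.1 ∧ g (t (c + 2)) = p.2

/-- Rigid triples with all pairs in `D`. -/
def Good (G : Subgroup (Equiv.Perm Ω)) (D : Set (Ω × Ω)) (t : Fin 3 → Ω) : Prop :=
  (∀ c, (t (c + 1), t (c + 2)) ∈ D) ∧ Rigid G (t 0) (t 1) (t 2)

/-- Conflict of two triples. -/
def Conf (G : Subgroup (Equiv.Perm Ω)) (t s : Fin 3 → Ω) : Prop :=
  ∃ c, Match G c t (s (c + 1), s (c + 2))

lemma Conf.symm {t s : Fin 3 → Ω} (h : Conf G t s) : Conf G s t := by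
  obtain ⟨c, g, hg, h1, h2⟩ := h
  exact ⟨c, g⁻¹, G.inv_mem hg, by rw [Equiv.Perm.inv_eq_iff_eq]; exact h1.symm,
    by rw [Equiv.Perm.inv_eq_iff_eq]; exact h2.symm⟩

lemma conf_of_match {t s : Fin 3 → Ω} {c : Fin 3} {p : Ω × Ω} (h1 : Match G c t p)
    (h2 : Match G c s p) : Conf G t s := by
  obtain ⟨g, hg, e1, e2⟩ := h1
  obtain ⟨k, hk, f1, f2⟩ := h2
  refine ⟨c, k⁻¹ * g, G.mul_mem (G.inv_mem hk) hg, ?_, ?_⟩
  · rw [Equiv.Perm.mul_apply, Equiv.Perm.inv_eq_iff_eq, e1, f1]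
  · rw [Equiv.Perm.mul_apply, Equiv.Perm.inv_eq_iff_eq, e2, f2]

/-- The stabiliser of `x` in `G`, as a type. -/
def Stab (G : Subgroup (Equiv.Perm Ω)) (x : Ω) : Type u := {g : Equiv.Perm Ω // g ∈ G ∧ g x = x}

lemma forb_card {J : Type u} (q r : J → Ω) (b : Ω) :
    #(⋃ j, {z | ∃ g ∈ G, g (q j) = b ∧ g (r j) = z} : Set Ω) ≤ #J * #(Stab G b) := by
  classical
  let g0 : J → Equiv.Perm Ω := fun j => if h : ∃ g ∈ G, g (q j) = b then h.choose else 1
  have hg0 : ∀ j, (∃ g ∈ G, g (q j) = b) → g0 j ∈ G ∧ g0 j (q j) = b := by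
    intro j h
    simp only [g0, dif_pos h]
    exact h.choose_spec
  let φ : J × Stab G b → Ω := fun p => p.2.1 (g0 p.1 (r p.1))
  have hsub : (⋃ j, {z | ∃ g ∈ G, g (q j) = b ∧ g (r j) = z} : Set Ω) ⊆ Set.range φ := by
    intro z hz
    obtain ⟨j, g, hg, h1, h2⟩ := Set.mem_iUnion.1 hz
    obtain ⟨h3, h4⟩ := hg0 j ⟨g, hg, h1⟩
    refine ⟨(j, ⟨g * (g0 j)⁻¹, G.mul_mem hg (G.inv_mem h3), ?_⟩), ?_⟩
    · rw [Equiv.Perm.mul_apply, show (g0 j)⁻¹ b = q j by rw [Equiv.Perm.inv_eq_iff_eq, h4], h1]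
    · show (g * (g0 j)⁻¹) (g0 j (r j)) = z
      rw [Equiv.Perm.mul_apply]; simp [h2]
  calc #(⋃ j, {z | ∃ g ∈ G, g (q j) = b ∧ g (r j) = z} : Set Ω) ≤ #(Set.range φ) :=
        mk_le_mk_of_subset hsub
    _ ≤ #(J × Stab G b) := mk_range_le
    _ = #J * #(Stab G b) := by rw [mk_prod, lift_id, lift_id]

lemma exists_step [Infinite Ω] {D : Set (Ω × Ω)}
    (hsmall : ∀ x, #(Stab G x) < #Ω)
    (hcomp : ∀ x y, (x, y) ∈ D → #Ω ≤ #{z // (y, z) ∈ D ∧ (z, x) ∈ D ∧ Rigid G x y z})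
    {J : Type u} (hJ : #J < #Ω) (P : J → Fin 3 → Ω) (hgood : ∀ j, Good G D (P j))
    (hpair : ∀ j j', Conf G (P j) (P j') → P j = P j') (c : Fin 3) (p : Ω × Ω) (hp : p ∈ D) :
    ∃ t, Good G D t ∧ Match G c t p ∧ ∀ j, Conf G (P j) t → P j = t := by
  classical
  by_cases h : ∃ j, Match G c (P j) p
  · obtain ⟨j, hj⟩ := h
    exact ⟨P j, hgood j, hj, fun j' h' => hpair j' j h'⟩
  · push Not at h
    obtain ⟨a, b⟩ := p
    set F1 : Set Ω := ⋃ j, {z | ∃ g ∈ G, g (P j (c + 2)) = b ∧ g (P j c) = z} with hF1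
    set F2 : Set Ω := ⋃ j, {z | ∃ g ∈ G, g (P j (c + 1)) = a ∧ g (P j c) = z} with hF2
    have hinf : ℵ₀ ≤ #Ω := aleph0_le_mk Ω
    have c1 : #F1 < #Ω := lt_of_le_of_lt (forb_card _ _ _) (mul_lt_of_lt hinf hJ (hsmall b))
    have c2 : #F2 < #Ω := lt_of_le_of_lt (forb_card _ _ _) (mul_lt_of_lt hinf hJ (hsmall a))
    have c3 : #(F1 ∪ F2 : Set Ω) < #Ω :=
      lt_of_le_of_lt (mk_union_le _ _) (add_lt_of_lt hinf c1 c2)
    have hz : ∃ z, ((b, z) ∈ D ∧ (z, a) ∈ D ∧ Rigid G a b z) ∧ z ∉ F1 ∪ F2 := by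
      by_contra hcon
      push Not at hcon
      have hsub : {z | (b, z) ∈ D ∧ (z, a) ∈ D ∧ Rigid G a b z} ⊆ F1 ∪ F2 := fun z hz => hcon z hz
      have := (hcomp a b hp).trans (mk_le_mk_of_subset hsub)
      exact absurd this (not_le.2 c3)
    obtain ⟨z, ⟨hz1, hz2, hz3⟩, hz4⟩ := hz
    have n1 : ∀ c : Fin 3, c + 1 ≠ c := by decide
    have n2 : ∀ c : Fin 3, c + 2 ≠ c := by decide
    have n3 : ∀ c : Fin 3, c + 2 ≠ c + 1 := by decide
    have a1 : ∀ c : Fin 3, c + 1 + 1 = c + 2 := by decide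
    have a2 : ∀ c : Fin 3, c + 1 + 2 = c := by decide
    have a3 : ∀ c : Fin 3, c + 2 + 1 = c := by decide
    have a4 : ∀ c : Fin 3, c + 2 + 2 = c + 1 := by decide
    have tri : ∀ c c' : Fin 3, c' = c ∨ c' = c + 1 ∨ c' = c + 2 := by decide
    let t : Fin 3 → Ω := fun d => if d = c then z else if d = c + 1 then a else b
    have t0 : t c = z := by simp [t]
    have t1 : t (c + 1) = a := by simp [t, n1 c]
    have t2 : t (c + 2) = b := by simp [t, n2 c, n3 c]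
    refine ⟨t, ⟨?_, ?_⟩, ?_, ?_⟩
    · intro c'
      rcases tri c c' with rfl | rfl | rfl
      · rw [t1, t2]; exact hp
      · rw [a1, a2, t2, t0]; exact hz1
      · rw [a3, a4, t0, t1]; exact hz2
    · have hr : Rigid G (t (c + 1)) (t (c + 2)) (t c) := by rw [t0, t1, t2]; exact hz3
      have hc : c = 0 ∨ c = 1 ∨ c = 2 := by
        have := tri 0 c
        simpa using this
      rcases hc with rfl | rfl | rfl
      · exact hr.rot.rot
      · exact hr.rot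
      · exact hr
    · exact ⟨1, G.one_mem, by rw [t1]; rfl, by rw [t2]; rfl⟩
    · intro j hconf
      exfalso
      obtain ⟨c', g, hg, h1, h2⟩ := hconf
      rcases tri c c' with rfl | rfl | rfl
      · rw [t1] at h1
        rw [t2] at h2
        exact h j ⟨g, hg, h1, h2⟩
      · rw [a1] at h1
        rw [a2] at h2
        simp only [a1, t2] at h1
        simp only [a2, t0] at h2
        exact hz4 (Or.inl (Set.mem_iUnion.2 ⟨j, g, hg, h1, h2⟩))
      · rw [a3] at h1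
        rw [a4] at h2
        simp only [a3, t0] at h1
        simp only [a4, t1] at h2
        exact hz4 (Or.inr (Set.mem_iUnion.2 ⟨j, g, hg, h2, h1⟩))

theorem exists_system [Infinite Ω] {D : Set (Ω × Ω)}
    (hsmall : ∀ x, #(Stab G x) < #Ω)
    (hcomp : ∀ x y, (x, y) ∈ D → #Ω ≤ #{z // (y, z) ∈ D ∧ (z, x) ∈ D ∧ Rigid G x y z}) :
    ∃ R : Set (Fin 3 → Ω), (∀ t ∈ R, Good G D t) ∧
      ∀ c, ∀ p ∈ D, ∃! t, t ∈ R ∧ Match G c t p := by
  classical
  let Req : Type u := Fin 3 × D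
  have hinf : ℵ₀ ≤ #Ω := aleph0_le_mk Ω
  have hReq : #Req ≤ #Ω := by
    have h1 : #Req = 3 * #D := by
      rw [show #Req = #(Fin 3 × D) from rfl, mk_prod]; simp
    have h2 : #D ≤ #Ω := by
      calc #D ≤ #(Ω × Ω) := mk_set_le D
        _ = #Ω := by simp only [mk_prod, lift_id]; exact mul_eq_self hinf
    rw [h1]
    calc 3 * #D ≤ #Ω * #Ω := by
          refine mul_le_mul' ?_ h2
          exact (nat_lt_aleph0 3).le.trans hinf
      _ = #Ω := mul_eq_self hinf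
  obtain ⟨r, wo, hr⟩ := Cardinal.exists_ord_eq Req
  have hlt : ∀ i : Req, #{j // r j i} < #Ω := by
    intro i
    have h1 : #{j // r j i} < #Req := by
      have := Cardinal.card_typein_lt (r := r) i hr
      simpa using this
    exact lt_of_lt_of_le h1 hReq
  have hwf : WellFounded r := wo.wf
  obtain ⟨ω⟩ : Nonempty Ω := inferInstance
  let step : (i : Req) → ((j : Req) → r j i → Fin 3 → Ω) → Fin 3 → Ω := fun i P =>
    if h : ∃ t, Good G D t ∧ Match G i.1 t i.2.1 ∧ ∀ j (hj : r j i), Conf G (P j hj) t →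
      P j hj = t then h.choose else fun _ => ω
  let t : Req → Fin 3 → Ω := hwf.fix step
  have ht : ∀ i, t i = step i (fun j _ => t j) := fun i => hwf.fix_eq step i
  have main : ∀ i, Good G D (t i) ∧ Match G i.1 (t i) i.2.1 ∧
      ∀ j, r j i → Conf G (t j) (t i) → t j = t i := by
    intro i
    induction i using hwf.induction with
    | _ i ih =>
      have hex : ∃ s, Good G D s ∧ Match G i.1 s i.2.1 ∧ ∀ j (hj : r j i), Conf G (t j) s →
          t j = s := by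
        obtain ⟨s, h1, h2, h3⟩ := exists_step (D := D) hsmall hcomp (J := {j // r j i}) (hlt i)
          (fun j => t j.1) (fun j => (ih j.1 j.2).1) (by
            intro j j' hc
            rcases trichotomous_of r j.1 j'.1 with h | h | h
            · exact (ih j'.1 j'.2).2.2 j.1 h hc
            · show t j.1 = t j'.1
              rw [h]
            · exact ((ih j.1 j.2).2.2 j'.1 h hc.symm).symm) i.1 i.2.1 i.2.2
        exact ⟨s, h1, h2, fun j hj hc => h3 ⟨j, hj⟩ hc⟩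
      have hti : t i = hex.choose := by
        rw [ht i]
        simp only [step, dif_pos hex]
      rw [hti]
      exact ⟨hex.choose_spec.1, hex.choose_spec.2.1, fun j hj hc => hex.choose_spec.2.2 j hj hc⟩
  have pairw : ∀ i j, Conf G (t i) (t j) → t i = t j := by
    intro i j hc
    rcases trichotomous_of r i j with h | h | h
    · exact (main j).2.2 i h hc
    · rw [h]
    · exact ((main i).2.2 j h hc.symm).symm
  refine ⟨Set.range t, ?_, ?_⟩
  · rintro _ ⟨i, rfl⟩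
    exact (main i).1
  · intro c p hp
    refine ⟨t (c, ⟨p, hp⟩), ⟨⟨_, rfl⟩, (main (c, ⟨p, hp⟩)).2.1⟩, ?_⟩
    rintro _ ⟨⟨j, rfl⟩, hj⟩
    exact pairw _ _ (conf_of_match hj (main (c, ⟨p, hp⟩)).2.1)

theorem solves_transfinite [Infinite Ω] {D : Set (Ω × Ω)}
    (hsmall : ∀ x, #(Stab G x) < #Ω) (hsym : ∀ x y, (x, y) ∈ D → (y, x) ∈ D)
    (hcomp : ∀ x y, (x, y) ∈ D → #Ω ≤ #{z // (y, z) ∈ D ∧ (z, x) ∈ D ∧ Rigid G x y z}) :
    ∃ R, Solves G D R := by
  obtain ⟨R, hR, hu⟩ := exists_system hsmall hcomp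
  let φ : (Fin 3 → Ω) → Ω × Ω × Ω := fun t => (t 1, t 2, t 0)
  have hφ : Function.Injective φ := by
    intro s t h
    simp only [φ, Prod.mk.injEq] at h
    funext d
    fin_cases d
    · exact h.2.2
    · exact h.1
    · exact h.2.1
  have role : ∀ (c : Fin 3) (U V : Ω × Ω × Ω → Ω), (∀ t, U (φ t) = t (c + 1)) →
      (∀ t, V (φ t) = t (c + 2)) → ∀ x y, (x, y) ∈ D →
      ∃! s, s ∈ φ '' R ∧ ∃ g ∈ G, g (U s) = x ∧ g (V s) = y := by
    intro c U V hU hV x y hxy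
    obtain ⟨t, ⟨htR, g, hg, h1, h2⟩, hun⟩ := hu c (x, y) hxy
    refine ⟨φ t, ⟨⟨t, htR, rfl⟩, g, hg, by rw [hU, h1], by rw [hV, h2]⟩, ?_⟩
    rintro _ ⟨⟨s, hs, rfl⟩, k, hk, f1, f2⟩
    rw [hU] at f1
    rw [hV] at f2
    rw [hun s ⟨hs, k, hk, f1, f2⟩]
  refine ⟨φ '' R, ?_, ?_, ?_, ?_, ?_, ?_, ?_⟩
  · rintro _ ⟨t, ht, rfl⟩
    exact (hR t ht).2.rot
  · rintro _ ⟨t, ht, rfl⟩
    exact (hR t ht).1 0
  · rintro _ ⟨t, ht, rfl⟩
    exact hsym _ _ ((hR t ht).1 2)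
  · rintro _ ⟨t, ht, rfl⟩
    exact (hR t ht).1 1
  · exact role 0 (fun t => t.1) (fun t => t.2.1) (fun _ => rfl) (fun _ => rfl)
  · intro x z hxz
    obtain ⟨s, ⟨hs, g, hg, h1, h2⟩, hun⟩ := role 2 (fun t => t.2.2) (fun t => t.1)
      (fun _ => rfl) (fun _ => rfl) z x (hsym _ _ hxz)
    refine ⟨s, ⟨hs, g, hg, h2, h1⟩, ?_⟩
    rintro s' ⟨hs', k, hk, f1, f2⟩
    exact hun s' ⟨hs', k, hk, f2, f1⟩
  · exact role 1 (fun t => t.2.1) (fun t => t.2.2) (fun _ => rfl) (fun _ => rfl)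

end Pool.Agent.QGP776
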